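import Mathlib

/-!
# Nondeterministic branching programs
-/

set_option autoImplicit false

namespace Pool.Agent.V8H39.SR

/-- A nondeterministic branching program with the variables `V`: a directed graph with a node
`start` and a node `accept`, in which an edge is free or labelled by a literal `(v, c)`, which stands
for the test whether the variable `v` has the value `c`. -/
structure NBP (V : Type) where
  Node : Type
  [fintype : Fintype Node]
  start : Node
  accept : Node
  edge : Node → Option (V × Bool) → Node → Prop

attribute [instance] NBP.fintype

namespace NBP

variable {V : Type}

/-- There is a path from `u` to `w` on which the variables of the list `L` are tested, in this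
order; edges with the label `(v, c)` can only be used if `R v c`. -/
inductive Walk (B : NBP V) (R : V → Bool → Prop) : B.Node → List V → B.Node → Prop
  | nil (u : B.Node) : Walk B R u [] u
  | free {u u' w : B.Node} {L : List V} (h : B.edge u none u') (h' : Walk B R u' L w) :
      Walk B R u L w
  | test {u u' w : B.Node} {L : List V} {v : V} {c : Bool} (h : B.edge u (some (v, c)) u')
      (hc : R v c) (h' : Walk B R u' L w) : Walk B R u (v :: L) w

/-- There is a path from `start` to `accept` on which all tests hold for `x`. -/
def Accepts (B : NBP V) (x : V → Bool) : Prop :=
  ∃ L, B.Walk (fun v c => x v = c) B.start L B.accept

/-- There is a path from `start` to `accept`, consistent or not, on which the variables of the list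
`L` are tested. -/
def Path (B : NBP V) (L : List V) : Prop := B.Walk (fun _ _ => True) B.start L B.accept

end NBP

end Pool.Agent.V8H39.SR
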