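import Mathlib

/-!
# Machines with and without a store, and the tree function
-/

set_option autoImplicit false

open Finset

namespace Pool.Agent.V8H39.SR

/-! ### Machines -/

/-- What a machine does in a configuration (without the store): it stops with an answer, guesses the
next configuration, reads the input bit `v` (the next configuration depends on the value), puts a
symbol on the store, or takes the topmost symbol from the store. -/
inductive Act (V Γ S : Type) : Type
  | halt (b : Bool)
  | guess (next : Set S)
  | read (v : V) (next : Bool → S)
  | push (c : Γ) (next : S)
  | pop (next : Γ → S)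

/-- A nondeterministic machine with a pushdown store, for inputs with the bits `V`. `Conf` is the set
of its configurations, the contents of the store not counted. -/
structure Mach (V : Type) where
  /-- the symbols for the store -/
  Γ : Type
  /-- the configurations, without the store -/
  Conf : Type
  [fintype : Fintype Conf]
  [fintypeΓ : Fintype Γ]
  start : Conf
  act : Conf → Act V Γ Conf

attribute [instance] Mach.fintype Mach.fintypeΓ

namespace Mach

variable {V : Type}

/-- `P.Comp R q s L b`: starting in the configuration `q` with the store `s` (top first), the machine
has a computation which stops with the answer `b` and in which the bits of the list `L` are read, in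
this order; at a bit `v` it may find the value `c` whenever `R v c`. -/
inductive Comp (P : Mach V) (R : V → Bool → Prop) : P.Conf → List P.Γ → List V → Bool → Prop
  | halt {q : P.Conf} {s : List P.Γ} {b : Bool} (h : P.act q = Act.halt b) : Comp P R q s [] b
  | guess {q q' : P.Conf} {s : List P.Γ} {L : List V} {b : Bool} {next : Set P.Conf}
      (h : P.act q = Act.guess next) (hq : q' ∈ next) (h' : Comp P R q' s L b) : Comp P R q s L b
  | read {q : P.Conf} {s : List P.Γ} {L : List V} {b : Bool} {v : V} {next : Bool → P.Conf}
      {c : Bool} (h : P.act q = Act.read v next) (hc : R v c) (h' : Comp P R (next c) s L b) :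
      Comp P R q s (v :: L) b
  | push {q : P.Conf} {s : List P.Γ} {L : List V} {b : Bool} {c : P.Γ} {next : P.Conf}
      (h : P.act q = Act.push c next) (h' : Comp P R next (c :: s) L b) : Comp P R q s L b
  | pop {q : P.Conf} {s : List P.Γ} {L : List V} {b : Bool} {c : P.Γ} {next : P.Γ → P.Conf}
      (h : P.act q = Act.pop next) (h' : Comp P R (next c) s L b) : Comp P R q (c :: s) L b

/-- On the input `x` the machine can stop with the answer `b`. -/
def Answers (P : Mach V) (x : V → Bool) (b : Bool) : Prop :=
  ∃ L, P.Comp (fun v c => x v = c) P.start [] L b

/-- The bits of the list `L` are read on some path from the start to the answer `b`; a path may find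
different values when it reads the same bit several times. -/
def Path (P : Mach V) (L : List V) (b : Bool) : Prop :=
  P.Comp (fun _ _ => True) P.start [] L b

/-- The machine is deterministic. -/
def Det (P : Mach V) : Prop := ∀ q next, P.act q ≠ Act.guess next

/-- The machine does not use its store. -/
def Storeless (P : Mach V) : Prop :=
  ∀ q, (∀ c next, P.act q ≠ Act.push c next) ∧ ∀ next, P.act q ≠ Act.pop next

end Mach

/-! ### The tree function -/

/-- The input bits for a tree of height `h` and arity `D`: each node has a block of bits indexed by
`ι`. -/
def Var (D : ℕ) (ι : Type) : ℕ → Type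
  | 0 => ι
  | h + 1 => ι ⊕ (Fin D × Var D ι h)

instance Var.decEq (D : ℕ) (ι : Type) [DecidableEq ι] : (h : ℕ) → DecidableEq (Var D ι h)
  | 0 => inferInstanceAs (DecidableEq ι)
  | h + 1 =>
    have := Var.decEq D ι h
    inferInstanceAs (DecidableEq (ι ⊕ (Fin D × Var D ι h)))

instance Var.fintype (D : ℕ) (ι : Type) [Fintype ι] : (h : ℕ) → Fintype (Var D ι h)
  | 0 => inferInstanceAs (Fintype ι)
  | h + 1 =>
    have := Var.fintype D ι h
    inferInstanceAs (Fintype (ι ⊕ (Fin D × Var D ι h)))

section

variable {D : ℕ} {F : Type} [Field F] [Fintype F]

/-- the value of a block of bits: the sum of the field elements whose bit is one -/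
def blk (y : F → Bool) : F := ∑ e, if y e = true then e else 0

/-- the block at the root -/
def root {ι : Type} {h : ℕ} (x : Var D ι (h + 1) → Bool) : ι → Bool := fun e => x (Sum.inl e)

/-- the input for the subtree number `p` -/
def sub {ι : Type} {h : ℕ} (x : Var D ι (h + 1) → Bool) (p : Fin D) : Var D ι h → Bool :=
  fun v => x (Sum.inr (p, v))

/-- The value of a leaf is the value of its block; the value of another node is the value of its block
plus the product of the values of its `D` children. -/
def val : (h : ℕ) → (Var D F h → Bool) → F
  | 0, x => blk x
  | h + 1, x => blk (root x) + ∏ p, val h (sub x p)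

end

end Pool.Agent.V8H39.SR
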