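import Mathlib
import Pool.Agent.V8H39.SR.Defs
import Pool.Agent.V8H39.SR.BDefs

/-!
# Branching programs as machines without a store
-/

set_option autoImplicit false

open Finset

namespace Pool.Agent.V8H39.SR

namespace NBP

variable {V : Type}

/-- the configurations -/
abbrev Cf (B : NBP V) : Type := Bool ⊕ (B.Node ⊕ (B.Node × V × Bool × Bool))

/-- the machine -/
def mach [Fintype V] (B : NBP V) : Mach V where
  Γ := Empty
  Conf := Cf B
  start := Sum.inr (Sum.inl B.start)
  act
    | Sum.inl b => Act.halt b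
    | Sum.inr (Sum.inl u) => Act.guess {q | (u = B.accept ∧ q = Sum.inl true) ∨
        (∃ u', B.edge u none u' ∧ q = Sum.inr (Sum.inl u')) ∨
        ∃ v c, q = Sum.inr (Sum.inr (u, v, c, false))}
    | Sum.inr (Sum.inr (u, v, c, false)) => Act.read v fun b =>
        if b = c then Sum.inr (Sum.inr (u, v, c, true)) else Sum.inl false
    | Sum.inr (Sum.inr (u, v, c, true)) =>
        Act.guess {q | ∃ u', B.edge u (some (v, c)) u' ∧ q = Sum.inr (Sum.inl u')}

/-- what an accepting computation means -/
def Good (B : NBP V) (R : V → Bool → Prop) (L : List V) : Cf B → Prop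
  | Sum.inl b => b = true ∧ L = []
  | Sum.inr (Sum.inl u) => B.Walk R u L B.accept
  | Sum.inr (Sum.inr (u, v, c, false)) => ∃ u' L', B.edge u (some (v, c)) u' ∧ R v c ∧
      L = v :: L' ∧ B.Walk R u' L' B.accept
  | Sum.inr (Sum.inr (u, v, c, true)) => ∃ u', B.edge u (some (v, c)) u' ∧
      B.Walk R u' L B.accept

variable [Fintype V]

theorem comp_of_walk (B : NBP V) (R : V → Bool → Prop) {u w : B.Node} {L : List V}
    (h : B.Walk R u L w) (hw : w = B.accept) (s : List Empty) :
    B.mach.Comp R (Sum.inr (Sum.inl u)) s L true := by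
  induction h with
  | nil u =>
    refine Mach.Comp.guess (q' := Sum.inl true) rfl (Or.inl ⟨hw, rfl⟩) ?_
    exact Mach.Comp.halt rfl
  | @free u u' w L h h' ih =>
    exact Mach.Comp.guess (q' := Sum.inr (Sum.inl u')) rfl (Or.inr (Or.inl ⟨u', h, rfl⟩)) (ih hw)
  | @test u u' w L v c h hc h' ih =>
    refine Mach.Comp.guess (q' := Sum.inr (Sum.inr (u, v, c, false))) rfl
      (Or.inr (Or.inr ⟨v, c, rfl⟩)) ?_
    refine Mach.Comp.read (c := c) rfl hc ?_
    rw [if_pos rfl]
    exact Mach.Comp.guess (q' := Sum.inr (Sum.inl u')) rfl ⟨u', h, rfl⟩ (ih hw)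

theorem good_of_comp (B : NBP V) (R : V → Bool → Prop) {q : B.mach.Conf} {s : List Empty}
    {L : List V} {b : Bool} (h : B.mach.Comp R q s L b) (hb : b = true) : B.Good R L q := by
  induction h with
  | @halt q s b h =>
    rcases q with b' | u | ⟨u, v, c, _ | _⟩
    · injection h with h
      exact ⟨h.trans hb, rfl⟩
    · cases h
    · cases h
    · cases h
  | @guess q q' s L b next h hq h' ih =>
    have ih := ih hb
    rcases q with b' | u | ⟨u, v, c, _ | _⟩
    · cases h
    · injection h with h
      rw [← h] at hq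
      rcases hq with ⟨hu, rfl⟩ | ⟨u', hu, rfl⟩ | ⟨v, c, rfl⟩
      · obtain ⟨-, rfl⟩ := ih
        rw [hu]
        exact Walk.nil _
      · exact Walk.free hu ih
      · obtain ⟨u', L', he, hc, rfl, hw⟩ := ih
        exact Walk.test he hc hw
    · cases h
    · injection h with h
      rw [← h] at hq
      obtain ⟨u', hu, rfl⟩ := hq
      exact ⟨u', hu, ih⟩
  | @read q s L b v next c h hc h' ih =>
    have ih := ih hb
    rcases q with b' | u | ⟨u, v', c', _ | _⟩
    · cases h
    · cases h
    · injection h with h1 h2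
      subst h1
      rw [← h2] at ih
      beta_reduce at ih
      by_cases hcc : c = c'
      · subst hcc
        rw [if_pos rfl] at ih
        obtain ⟨u', hu, hw⟩ := ih
        exact ⟨u', L, hu, hc, rfl, hw⟩
      · rw [if_neg hcc] at ih
        cases ih.1
    · cases h
  | @push q s L b c next h h' ih => exact c.elim
  | @pop q s L b c next h h' ih => exact c.elim

theorem mach_answers (B : NBP V) (x : V → Bool) : B.mach.Answers x true ↔ B.Accepts x :=
  ⟨fun ⟨L, h⟩ => ⟨L, B.good_of_comp _ h rfl⟩, fun ⟨L, h⟩ => ⟨L, B.comp_of_walk _ h rfl []⟩⟩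

theorem mach_path (B : NBP V) (L : List V) (h : B.mach.Path L true) : B.Path L :=
  B.good_of_comp _ h rfl

theorem mach_storeless (B : NBP V) : B.mach.Storeless := by
  intro q
  constructor
  · intro c
    exact c.elim
  · intro next h
    rcases q with b' | u | ⟨u, v', c', _ | _⟩ <;> cases h

theorem card_mach (B : NBP V) : Fintype.card B.mach.Conf =
    2 + (Fintype.card B.Node + Fintype.card B.Node * (Fintype.card V * 4)) := by
  show Fintype.card (Cf B) = _
  simp only [Fintype.card_sum, Fintype.card_prod, Fintype.card_bool]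

end NBP

end Pool.Agent.V8H39.SR
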