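import Mathlib
import Pool.Agent.V8H39.SR.Defs

/-!
# Notions for the tree function
-/

set_option autoImplicit false

open Finset

namespace Pool.Agent.V8H39.SR

section

variable {D : ℕ} {F : Type} [Field F] [Fintype F]

/-- nodes (other than the root) of the tree -/
def Hole (D : ℕ) : ℕ → Type
  | 0 => Empty
  | h + 1 => Fin D × Option (Hole D h)

/-- the product of the values of the children other than `p` -/
def oth {h : ℕ} (x : Var D F (h + 1) → Bool) (p : Fin D) : F :=
  ∏ p' ∈ univ.erase p, val h (sub x p')

/-- the value of the root if the value of the node `π` is replaced by zero -/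
def hval : (h : ℕ) → Hole D h → (Var D F h → Bool) → F
  | 0, _, _ => 0
  | _ + 1, (_, none), x => blk (root x)
  | h + 1, (p, some π), x => blk (root x) + oth x p * hval h π (sub x p)

/-- the inputs without zeros -/
def Nice : (h : ℕ) → (Var D F h → Bool) → Prop
  | 0, x => blk (F := F) x ≠ 0
  | h + 1, x => val (h + 1) x ≠ 0 ∧ (∀ π : Hole D (h + 1), hval (h + 1) π x ≠ 0) ∧
      ∀ p, Nice h (sub x p)

end

/-- `x` outside `A` and `B`, `a` on `A`, `b` on `B` -/
def mix {V : Type} [DecidableEq V] (A B : Finset V) (x a b : V → Bool) : V → Bool :=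
  fun v => if v ∈ A then a v else if v ∈ B then b v else x v

section

variable {V : Type} [Fintype V] {F : Type} [Field F]

/-- the vectors `u a` with `a` in `𝒜` are spread over the space -/
def Spread (K m : ℕ) (𝒜 : (V → Bool) → Prop) (u : (V → Bool) → Fin m → F) : Prop :=
  ∀ (U : Submodule F (Fin m → F)) (v : Fin m → F),
    Nat.card {a // 𝒜 a ∧ u a - v ∈ U} * K ^ m ≤
      2 ^ Fintype.card V * K ^ Module.finrank F U

end

end Pool.Agent.V8H39.SR
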