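import Mathlib
import Pool.Agent.V8H39.SR.Tree

/-!
# Thick sets of bits in a tree
-/

set_option autoImplicit false

open Finset

namespace Pool.Agent.V8H39.SR

variable {D : ℕ} {ι : Type}

/-- In a thick set there are, at each inner node, at least `a` children to go on with, and at the
leaves reached in this way at least `r` bits of the block belong to the set. -/
def Thick (a r : ℕ) : (h : ℕ) → (Var D ι h → Prop) → Prop
  | 0, S => ∃ I : Finset ι, r ≤ I.card ∧ ∀ i ∈ I, S i
  | h + 1, S => ∃ P : Finset (Fin D), a ≤ P.card ∧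
      ∀ p ∈ P, Thick a r h (fun v => S (Sum.inr (p, v)))

theorem Thick.mono {a a' r r' : ℕ} (ha : a' ≤ a) (hr : r' ≤ r) :
    ∀ {h : ℕ} {S S' : Var D ι h → Prop}, (∀ v, S v → S' v) → Thick a r h S → Thick a' r' h S'
  | 0, _, _, hS, ⟨I, hI, h⟩ => ⟨I, hr.trans hI, fun i hi => hS _ (h i hi)⟩
  | _ + 1, _, _, hS, ⟨P, hP, h⟩ =>
    ⟨P, ha.trans hP, fun p hp => Thick.mono ha hr (fun _ hv => hS _ hv) (h p hp)⟩

theorem thick_union {a r : ℕ} : ∀ {h : ℕ} {S S' : Var D ι h → Prop},
    Thick (2 * a) (2 * r) h (fun v => S v ∨ S' v) → Thick a r h S ∨ Thick a r h S'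
  | 0, S, S', ⟨I, hI, h⟩ => by
    classical
    have h1 : I ⊆ I.filter (fun i : ι => S i) ∪ I.filter (fun i : ι => S' i) := by
      intro i hi
      rcases h i hi with h2 | h2
      · exact mem_union_left _ (mem_filter.2 ⟨hi, h2⟩)
      · exact mem_union_right _ (mem_filter.2 ⟨hi, h2⟩)
    have h2 := (card_le_card h1).trans (card_union_le _ _)
    rcases Nat.lt_or_ge (I.filter (fun i : ι => S i)).card r with h3 | h3
    · exact Or.inr ⟨I.filter (fun i : ι => S' i), by omega, fun i hi => (mem_filter.1 hi).2⟩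
    · exact Or.inl ⟨I.filter (fun i : ι => S i), h3, fun i hi => (mem_filter.1 hi).2⟩
  | h + 1, S, S', ⟨P, hP, hh⟩ => by
    classical
    have h1 : P ⊆ P.filter (fun p => Thick a r h (fun v => S (Sum.inr (p, v)))) ∪
        P.filter (fun p => Thick a r h (fun v => S' (Sum.inr (p, v)))) := by
      intro i hi
      rcases thick_union (hh i hi) with h2 | h2
      · exact mem_union_left _ (mem_filter.2 ⟨hi, h2⟩)
      · exact mem_union_right _ (mem_filter.2 ⟨hi, h2⟩)
    have h2 := (card_le_card h1).trans (card_union_le _ _)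
    rcases Nat.lt_or_ge (P.filter (fun p => Thick a r h (fun v => S (Sum.inr (p, v))))).card a
      with h3 | h3
    · exact Or.inr ⟨P.filter (fun p => Thick a r h (fun v => S' (Sum.inr (p, v)))), by omega,
        fun i hi => (mem_filter.1 hi).2⟩
    · exact Or.inl ⟨P.filter (fun p => Thick a r h (fun v => S (Sum.inr (p, v)))), h3,
        fun i hi => (mem_filter.1 hi).2⟩

/-- weak separation -/
def Weak {α β : Type} (t : α → ℕ) (S : α → Prop) (t' : β → ℕ) (S' : β → Prop) : Prop :=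
  (∀ v v', S v → S' v' → t v ≤ t' v') ∨ (∀ v v', S v → S' v' → t' v' ≤ t v)

theorem Weak.mono {α β : Type} {t : α → ℕ} {S T : α → Prop} {t' : β → ℕ} {S' T' : β → Prop}
    (h : Weak t S t' S') (h1 : ∀ v, T v → S v) (h2 : ∀ v, T' v → S' v) : Weak t T t' T' := by
  rcases h with h | h
  · exact Or.inl fun v v' hv hv' => h v v' (h1 v hv) (h2 v' hv')
  · exact Or.inr fun v v' hv hv' => h v v' (h1 v hv) (h2 v' hv')

theorem separate [Fintype ι] {a r h : ℕ} {S S' : Var D ι h → Prop} (t t' : Var D ι h → ℕ)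
    (hS : Thick (2 * a) (2 * r) h S) (hS' : Thick (2 * a) (2 * r) h S') :
    ∃ S₁ S₁' : Var D ι h → Prop, (∀ v, S₁ v → S v) ∧ (∀ v, S₁' v → S' v) ∧ Thick a r h S₁ ∧
      Thick a r h S₁' ∧ Weak t S₁ t' S₁' := by
  classical
  have hex : ∃ θ, Thick a r h (fun v => S v ∧ t v ≤ θ) ∨ Thick a r h (fun v => S' v ∧ t' v ≤ θ) :=
    ⟨univ.sup t, Or.inl (Thick.mono (by omega) (by omega)
      (fun v hv => ⟨hv, le_sup (f := t) (mem_univ v)⟩) hS)⟩
  obtain ⟨θ, hθ, hmin⟩ : ∃ θ, (Thick a r h (fun v => S v ∧ t v ≤ θ) ∨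
      Thick a r h (fun v => S' v ∧ t' v ≤ θ)) ∧ ∀ θ' < θ,
      ¬ (Thick a r h (fun v => S v ∧ t v ≤ θ') ∨ Thick a r h (fun v => S' v ∧ t' v ≤ θ')) :=
    ⟨Nat.find hex, Nat.find_spec hex, fun θ' h => Nat.find_min hex h⟩
  have key : Thick a r h (fun v => S v ∧ θ ≤ t v) ∧ Thick a r h (fun v => S' v ∧ θ ≤ t' v) := by
    rcases Nat.eq_zero_or_pos θ with rfl | hpos
    · exact ⟨Thick.mono (by omega) (by omega) (fun v hv => ⟨hv, Nat.zero_le _⟩) hS,
        Thick.mono (by omega) (by omega) (fun v hv => ⟨hv, Nat.zero_le _⟩) hS'⟩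
    · have h1 := hmin (θ - 1) (by omega)
      push Not at h1
      constructor
      · have h2 : Thick (2 * a) (2 * r) h (fun v => (S v ∧ t v ≤ θ - 1) ∨ (S v ∧ θ ≤ t v)) :=
          Thick.mono le_rfl le_rfl (fun v hv => by
            rcases Nat.lt_or_ge (t v) θ with h3 | h3
            · exact Or.inl ⟨hv, by omega⟩
            · exact Or.inr ⟨hv, h3⟩) hS
        exact (thick_union h2).resolve_left h1.1
      · have h2 : Thick (2 * a) (2 * r) h (fun v => (S' v ∧ t' v ≤ θ - 1) ∨ (S' v ∧ θ ≤ t' v)) :=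
          Thick.mono le_rfl le_rfl (fun v hv => by
            rcases Nat.lt_or_ge (t' v) θ with h3 | h3
            · exact Or.inl ⟨hv, by omega⟩
            · exact Or.inr ⟨hv, h3⟩) hS'
        exact (thick_union h2).resolve_left h1.2
  rcases hθ with hθ | hθ
  · exact ⟨_, _, fun v hv => hv.1, fun v hv => hv.1, hθ, key.2,
      Or.inl fun v v' hv hv' => hv.2.trans hv'.2⟩
  · exact ⟨_, _, fun v hv => hv.1, fun v hv => hv.1, key.1, hθ,
      Or.inr fun v v' hv hv' => hv'.2.trans hv.2⟩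

/-- Many pairs of children are separated. -/
theorem refine_family [Fintype ι] {h N k : ℕ} (t : Fin N → Fin k → Var D ι h → ℕ)
    (E : Finset ((Fin N × Fin N) × (Fin k × Fin k))) :
    (∀ e ∈ E, e.1.1 ≠ e.1.2) → ∀ (a r : ℕ) (S : Fin N → Var D ι h → Prop),
    (∀ p, Thick (2 ^ E.card * a) (2 ^ E.card * r) h (S p)) →
    ∃ S' : Fin N → Var D ι h → Prop, (∀ p v, S' p v → S p v) ∧ (∀ p, Thick a r h (S' p)) ∧
      ∀ e ∈ E, Weak (t e.1.1 e.2.1) (S' e.1.1) (t e.1.2 e.2.2) (S' e.1.2) := by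
  classical
  induction E using Finset.induction_on with
  | empty =>
    intro _ a r S hS
    exact ⟨S, fun _ _ h => h, fun p => by simpa using hS p, fun e he => by simp at he⟩
  | insert e E he ih =>
    intro hne a r S hS
    obtain ⟨S₁, h1, h2, h3⟩ := ih (fun e' he' => hne e' (mem_insert_of_mem he')) (2 * a) (2 * r) S
      (fun p => by
        have := hS p
        rw [card_insert_of_notMem he, pow_succ, mul_assoc, mul_assoc] at this
        exact this)
    have hpe := hne e (mem_insert_self _ _)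
    obtain ⟨T, T', h4, h5, h6, h7, h8⟩ := separate (t e.1.1 e.2.1) (t e.1.2 e.2.2) (h2 e.1.1)
      (h2 e.1.2)
    obtain ⟨S₂, hS₂⟩ : ∃ S₂ : Fin N → Var D ι h → Prop, ∀ p, S₂ p =
      if p = e.1.1 then T else if p = e.1.2 then T' else S₁ p := ⟨_, fun _ => rfl⟩
    have hsub : ∀ p v, S₂ p v → S₁ p v := by
      intro p v hv
      rw [hS₂] at hv
      by_cases hp : p = e.1.1
      · subst hp
        rw [if_pos rfl] at hv
        exact h4 v hv
      · rw [if_neg hp] at hv
        by_cases hp' : p = e.1.2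
        · subst hp'
          rw [if_pos rfl] at hv
          exact h5 v hv
        · rw [if_neg hp'] at hv
          exact hv
    refine ⟨S₂, fun p v hv => h1 p v (hsub p v hv), ?_, ?_⟩
    · intro p
      rw [hS₂]
      by_cases hp : p = e.1.1
      · rw [if_pos hp]
        exact h6
      · rw [if_neg hp]
        by_cases hp' : p = e.1.2
        · rw [if_pos hp']
          exact h7
        · rw [if_neg hp']
          exact Thick.mono (by omega) (by omega) (fun _ h => h) (h2 p)
    · intro e' he'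
      rcases mem_insert.1 he' with rfl | he'
      · have e1 : S₂ e'.1.1 = T := by rw [hS₂]; simp
        have e2 : S₂ e'.1.2 = T' := by
          rw [hS₂]
          simp [Ne.symm hpe]
        rw [e1, e2]
        exact h8
      · exact (h3 e' he').mono (hsub _) (hsub _)

/-- relation of two sets with respect to a matrix -/
def Rel {α β : Type} {k : ℕ} (M : Fin k → Fin k → Bool) (t : Fin k → α → ℕ) (S : α → Prop)
    (t' : Fin k → β → ℕ) (S' : β → Prop) : Prop :=
  ∀ j j' v v', S v → S' v' → (M j j' = true → t j v ≤ t' j' v') ∧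
    (M j j' = false → t' j' v' ≤ t j v)

/-- the number of children for one step -/
def NN (k : ℕ) : ℕ := 2 ^ 2 ^ (k * k) + 1

/-- the factor for one step -/
def QQ (k : ℕ) : ℕ := NN k * 2 ^ (NN k * NN k * (k * k))

theorem exists_triple {k : ℕ} (col : Fin (NN k) → Fin (NN k) → (Fin k → Fin k → Bool)) :
    ∃ x y z : Fin (NN k), x < y ∧ y < z ∧ col x y = col y z := by
  classical
  obtain ⟨g, hg⟩ : ∃ g : Fin (NN k) → Finset (Fin k → Fin k → Bool), ∀ y c,
      c ∈ g y ↔ ∃ x < y, col x y = c :=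
    ⟨fun y => univ.filter fun c => ∃ x < y, col x y = c, fun y c => by simp⟩
  have hcard : Fintype.card (Finset (Fin k → Fin k → Bool)) < Fintype.card (Fin (NN k)) := by
    rw [Fintype.card_finset, Fintype.card_fin, Fintype.card_fun, Fintype.card_fun,
      Fintype.card_fin, Fintype.card_bool, ← pow_mul]
    unfold NN
    omega
  obtain ⟨y, z, hne, h⟩ := Fintype.exists_ne_map_eq_of_card_lt g hcard
  have main : ∀ y z : Fin (NN k), y < z → g y = g z → ∃ x y z : Fin (NN k), x < y ∧ y < z ∧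
      col x y = col y z := by
    intro y z hyz h
    have h1 : col y z ∈ g z := (hg _ _).2 ⟨y, hyz, rfl⟩
    rw [← h] at h1
    obtain ⟨x, hx, h2⟩ := (hg _ _).1 h1
    exact ⟨x, y, z, hx, hyz, h2⟩
  rcases lt_or_gt_of_ne hne with h1 | h1
  · exact main y z h1 h
  · exact main z y h1 h.symm

theorem step [Fintype ι] {h k a r : ℕ} (ha : 1 ≤ a) (t : Fin k → Var D ι (h + 1) → ℕ)
    (S : Var D ι (h + 1) → Prop) (hS : Thick (QQ k * a) (QQ k * r) (h + 1) S) :
    ∃ (x y z : Fin D) (M : Fin k → Fin k → Bool) (X Y Z : Var D ι h → Prop),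
      x ≠ y ∧ z ≠ y ∧ (∀ v, X v → S (Sum.inr (x, v))) ∧ (∀ v, Y v → S (Sum.inr (y, v))) ∧
      (∀ v, Z v → S (Sum.inr (z, v))) ∧ Thick a r h X ∧ Thick a r h Y ∧ Thick a r h Z ∧
      Rel M (fun j v => t j (Sum.inr (x, v))) X (fun j v => t j (Sum.inr (y, v))) Y ∧
      Rel M (fun j v => t j (Sum.inr (y, v))) Y (fun j v => t j (Sum.inr (z, v))) Z := by
  classical
  obtain ⟨P, hP, hPS⟩ := hS
  obtain ⟨E, hE⟩ : ∃ E : Finset ((Fin (NN k) × Fin (NN k)) × (Fin k × Fin k)),
    E = univ.filter (fun e => e.1.1 ≠ e.1.2) := ⟨_, rfl⟩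
  have hEc : E.card ≤ NN k * NN k * (k * k) := by
    rw [hE]
    refine (card_filter_le _ _).trans (le_of_eq ?_)
    rw [card_univ]
    simp [Fintype.card_prod]
  have hpow : 2 ^ E.card ≤ QQ k := by
    have h1 : 2 ^ E.card ≤ 2 ^ (NN k * NN k * (k * k)) := Nat.pow_le_pow_right (by norm_num) hEc
    refine h1.trans ?_
    unfold QQ
    exact Nat.le_mul_of_pos_left _ (Nat.succ_pos _)
  have hNP : NN k ≤ P.card := by
    refine le_trans ?_ hP
    have : NN k * 1 ≤ NN k * (2 ^ (NN k * NN k * (k * k)) * a) :=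
      Nat.mul_le_mul_left _ (Nat.mul_pos (pow_pos (by norm_num) _) ha)
    unfold QQ
    rw [mul_assoc]
    omega
  obtain ⟨f⟩ : Nonempty (Fin (NN k) ↪ P) :=
    Function.Embedding.nonempty_of_card_le (by rw [Fintype.card_fin, Fintype.card_coe]; exact hNP)
  obtain ⟨S', h1, h2, h3⟩ := refine_family (fun p j v => t j (Sum.inr ((f p : Fin D), v))) E
    (fun e he => by rw [hE] at he; exact (mem_filter.1 he).2) a r
    (fun p v => S (Sum.inr ((f p : Fin D), v)))
    (fun p => Thick.mono (Nat.mul_le_mul_right _ hpow) (Nat.mul_le_mul_right _ hpow)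
      (fun _ h => h) (hPS (f p) (f p).2))
  obtain ⟨col, hcol⟩ : ∃ col : Fin (NN k) → Fin (NN k) → (Fin k → Fin k → Bool),
      ∀ p p' j j', col p p' j j' = true ↔ ∀ v v', S' p v → S' p' v' →
        t j (Sum.inr ((f p : Fin D), v)) ≤ t j' (Sum.inr ((f p' : Fin D), v')) :=
    ⟨fun p p' j j' => decide (∀ v v', S' p v → S' p' v' →
        t j (Sum.inr ((f p : Fin D), v)) ≤ t j' (Sum.inr ((f p' : Fin D), v'))),
      fun p p' j j' => by simp⟩
  obtain ⟨x, y, z, hxy, hyz, hc⟩ := exists_triple col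
  have hrel : ∀ p p', p ≠ p' → Rel (col p p') (fun j v => t j (Sum.inr ((f p : Fin D), v))) (S' p)
      (fun j v => t j (Sum.inr ((f p' : Fin D), v))) (S' p') := by
    intro p p' hpp j j' v v' hv hv'
    refine ⟨fun h => (hcol p p' j j').1 h v v' hv hv', fun h => ?_⟩
    have h4 : ((p, p'), (j, j')) ∈ E := by
      rw [hE]
      simpa using hpp
    rcases h3 _ h4 with h5 | h5
    · have h6 := (hcol p p' j j').2 h5
      rw [h6] at h
      exact absurd h (by simp)
    · exact h5 v v' hv hv'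
  have hinj : ∀ p p', p ≠ p' → (f p : Fin D) ≠ (f p' : Fin D) := fun p p' hpp h =>
    hpp (f.injective (Subtype.ext h))
  refine ⟨f x, f y, f z, col x y, S' x, S' y, S' z, hinj _ _ hxy.ne, hinj _ _ hyz.ne', h1 x, h1 y,
    h1 z, h2 x, h2 y, h2 z, hrel x y hxy.ne, ?_⟩
  rw [hc]
  exact hrel y z hyz.ne

end Pool.Agent.V8H39.SR
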