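import Mathlib
import Pool.Agent.V8H39.SR.Thick

/-!
# Chains in a tree
-/

set_option autoImplicit false

open Finset

namespace Pool.Agent.V8H39.SR

variable {D : ℕ} {ι : Type}

/-- the leaves of the tree -/
def Leaf (D : ℕ) : ℕ → Type
  | 0 => Unit
  | h + 1 => Fin D × Leaf D h

/-- the bits of a leaf -/
def leafVar : (h : ℕ) → Leaf D h → ι → Var D ι h
  | 0, _, i => i
  | h + 1, (p, l), i => Sum.inr (p, leafVar h l i)

theorem leafVar_inj : ∀ (h : ℕ) (l : Leaf D h), Function.Injective (leafVar (ι := ι) h l)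
  | 0, _ => fun _ _ h => h
  | h + 1, (p, l) => fun i j hij => by
    have h1 : (Sum.inr (p, leafVar h l i) : ι ⊕ (Fin D × Var D ι h)) =
      Sum.inr (p, leafVar h l j) := hij
    exact leafVar_inj h l (by simpa using h1)

/-- the bits of a leaf -/
def leafEmb {h : ℕ} (l : Leaf D h) : ι ↪ Var D ι h := ⟨leafVar h l, leafVar_inj h l⟩

/-- the bits of a subtree -/
def lift {h : ℕ} (p : Fin D) : Var D ι h ↪ Var D ι (h + 1) :=
  ⟨fun v => (Sum.inr (p, v) : ι ⊕ (Fin D × Var D ι h)), fun v w hvw => by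
    have h1 : (Sum.inr (p, v) : ι ⊕ (Fin D × Var D ι h)) = Sum.inr (p, w) := hvw
    simpa using h1⟩

/-- Chains with `n` blocks of bits, alternately put in `B` and in `A`, from the bottom to the top. -/
inductive Ch [DecidableEq ι] (r : ℕ) : (h : ℕ) → (n : ℕ) → Finset (Var D ι h) →
    Finset (Var D ι h) → Prop
  | nil (h : ℕ) : Ch r h 0 ∅ ∅
  | skip {h n : ℕ} {A B : Finset (Var D ι h)} (p : Fin D) (hc : Ch r h n A B) :
      Ch r (h + 1) n (A.map (lift p)) (B.map (lift p))
  | stepB {h m : ℕ} {A B : Finset (Var D ι h)} (y z : Fin D) (hzy : z ≠ y) (l : Leaf D h)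
      (I : Finset ι) (hI : r ≤ I.card) (hc : Ch r h (2 * m) A B) :
      Ch r (h + 1) (2 * m + 1) (A.map (lift y))
        (B.map (lift y) ∪ (I.map (leafEmb l)).map (lift z))
  | stepA {h m : ℕ} {A B : Finset (Var D ι h)} (y x : Fin D) (hxy : x ≠ y) (l : Leaf D h)
      (I : Finset ι) (hI : r ≤ I.card) (hc : Ch r h (2 * m + 1) A B) :
      Ch r (h + 1) (2 * m + 2) (A.map (lift y) ∪ (I.map (leafEmb l)).map (lift x))
        (B.map (lift y))

theorem exists_leaf {a r : ℕ} (ha : 1 ≤ a) : ∀ {h : ℕ} {S : Var D ι h → Prop}, Thick a r h S →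
    ∃ (l : Leaf D h) (I : Finset ι), r ≤ I.card ∧ ∀ i ∈ I, S (leafVar h l i)
  | 0, _, ⟨I, hI, h⟩ => ⟨(), I, hI, h⟩
  | h + 1, S, ⟨P, hP, hh⟩ => by
    obtain ⟨p, hp⟩ : P.Nonempty := card_pos.1 (by omega)
    obtain ⟨l, I, hI, h1⟩ := exists_leaf ha (hh p hp)
    exact ⟨(p, l), I, hI, h1⟩

theorem cl_aux [Fintype ι] [DecidableEq ι] (k r : ℕ) : ∀ (h : ℕ) (S : Var D ι h → Prop)
    (t : Fin k → Var D ι h → ℕ), Thick (QQ k ^ h) (QQ k ^ h * r) h S →
    ∃ n : (Fin k → Fin k → Bool) → ℕ, ∑ M, n M = h ∧ ∀ M, ∀ m ≤ n M,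
      ∃ A B : Finset (Var D ι h), Ch r h m A B ∧ (∀ v ∈ A, S v) ∧ (∀ v ∈ B, S v) ∧
        ∀ j j', ∀ a ∈ A, ∀ b ∈ B, (M j j' = true → t j a ≤ t j' b) ∧
          (M j j' = false → t j' b ≤ t j a)
  | 0, S, t, _ => ⟨fun _ => 0, by simp, fun M m hm => by
      have : m = 0 := Nat.le_zero.1 hm
      subst this
      exact ⟨∅, ∅, Ch.nil 0, by simp, by simp, by simp⟩⟩
  | h + 1, S, t, hS => by
    classical
    have hQ : 1 ≤ QQ k := Nat.mul_pos (Nat.succ_pos _) (pow_pos (by norm_num) _)
    have hQh : 1 ≤ QQ k ^ h := Nat.one_le_pow _ _ hQ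
    obtain ⟨x, y, z, M₀, X, Y, Z, hxy, hzy, hX, hY, hZ, tX, tY, tZ, rel1, rel2⟩ :=
      step (a := QQ k ^ h) (r := QQ k ^ h * r) hQh t S (by
        rw [← mul_assoc, ← pow_succ']
        exact hS)
    obtain ⟨n, hn, hch⟩ := cl_aux k r h Y (fun j v => t j (Sum.inr (y, v))) tY
    have hskip : ∀ M, ∀ m ≤ n M, ∃ A B : Finset (Var D ι (h + 1)), Ch r (h + 1) m A B ∧
        (∀ v ∈ A, S v) ∧ (∀ v ∈ B, S v) ∧ ∀ j j', ∀ a ∈ A, ∀ b ∈ B,
          (M j j' = true → t j a ≤ t j' b) ∧ (M j j' = false → t j' b ≤ t j a) := by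
      intro M m hm
      obtain ⟨A, B, h1, h2, h3, h4⟩ := hch M m hm
      refine ⟨A.map (lift y), B.map (lift y), Ch.skip y h1, ?_, ?_, ?_⟩
      · intro v hv
        obtain ⟨v', hv', rfl⟩ := mem_map.1 hv
        exact hY _ (h2 v' hv')
      · intro v hv
        obtain ⟨v', hv', rfl⟩ := mem_map.1 hv
        exact hY _ (h3 v' hv')
      · intro j j' a ha b hb
        obtain ⟨a', ha', rfl⟩ := mem_map.1 ha
        obtain ⟨b', hb', rfl⟩ := mem_map.1 hb
        exact h4 j j' a' ha' b' hb'
    refine ⟨Function.update n M₀ (n M₀ + 1), ?_, ?_⟩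
    · rw [Finset.sum_update_of_mem (mem_univ M₀)]
      have h1 := Finset.sum_erase_add univ n (mem_univ M₀)
      rw [Finset.erase_eq, hn] at h1
      omega
    · intro M m hm
      by_cases hM : M = M₀
      · subst hM
        rw [Function.update_self] at hm
        rcases Nat.lt_or_ge (n M) m with hlt | hle
        · have hm' : m = n M + 1 := by omega
          obtain ⟨A, B, h1, h2, h3, h4⟩ := hch M (n M) le_rfl
          rcases Nat.even_or_odd' (n M) with ⟨c, hc | hc⟩
          · obtain ⟨l, I, hI, hl⟩ := exists_leaf hQh tZ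
            rw [hc] at h1
            refine ⟨A.map (lift y), B.map (lift y) ∪ (I.map (leafEmb l)).map (lift z), ?_, ?_, ?_,
              ?_⟩
            · rw [hm', hc]
              exact Ch.stepB y z hzy l I ((Nat.le_mul_of_pos_left _ hQh).trans hI) h1
            · intro v hv
              obtain ⟨v', hv', rfl⟩ := mem_map.1 hv
              exact hY _ (h2 v' hv')
            · intro v hv
              rcases mem_union.1 hv with hv | hv
              · obtain ⟨v', hv', rfl⟩ := mem_map.1 hv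
                exact hY _ (h3 v' hv')
              · obtain ⟨v', hv', rfl⟩ := mem_map.1 hv
                obtain ⟨i, hi, rfl⟩ := mem_map.1 hv'
                exact hZ _ (hl i hi)
            · intro j j' a ha b hb
              obtain ⟨a', ha', rfl⟩ := mem_map.1 ha
              rcases mem_union.1 hb with hb | hb
              · obtain ⟨b', hb', rfl⟩ := mem_map.1 hb
                exact h4 j j' a' ha' b' hb'
              · obtain ⟨v', hv', rfl⟩ := mem_map.1 hb
                obtain ⟨i, hi, rfl⟩ := mem_map.1 hv'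
                exact rel2 j j' a' _ (h2 a' ha') (hl i hi)
          · obtain ⟨l, I, hI, hl⟩ := exists_leaf hQh tX
            rw [hc] at h1
            refine ⟨A.map (lift y) ∪ (I.map (leafEmb l)).map (lift x), B.map (lift y), ?_, ?_, ?_,
              ?_⟩
            · rw [hm', hc]
              exact Ch.stepA y x hxy l I ((Nat.le_mul_of_pos_left _ hQh).trans hI) h1
            · intro v hv
              rcases mem_union.1 hv with hv | hv
              · obtain ⟨v', hv', rfl⟩ := mem_map.1 hv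
                exact hY _ (h2 v' hv')
              · obtain ⟨v', hv', rfl⟩ := mem_map.1 hv
                obtain ⟨i, hi, rfl⟩ := mem_map.1 hv'
                exact hX _ (hl i hi)
            · intro v hv
              obtain ⟨v', hv', rfl⟩ := mem_map.1 hv
              exact hY _ (h3 v' hv')
            · intro j j' a ha b hb
              obtain ⟨b', hb', rfl⟩ := mem_map.1 hb
              rcases mem_union.1 ha with ha | ha
              · obtain ⟨a', ha', rfl⟩ := mem_map.1 ha
                exact h4 j j' a' ha' b' hb'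
              · obtain ⟨v', hv', rfl⟩ := mem_map.1 ha
                obtain ⟨i, hi, rfl⟩ := mem_map.1 hv'
                exact rel1 j j' _ b' (hl i hi) (h3 b' hb')
        · exact hskip M m hle
      · rw [Function.update_of_ne hM] at hm
        exact hskip M m hm

theorem thick_univ [Fintype ι] {a r : ℕ} (ha : a ≤ D) (hr : r ≤ Fintype.card ι) :
    ∀ h : ℕ, Thick a r h (fun _ : Var D ι h => True)
  | 0 => ⟨univ, by simpa using hr, fun _ _ => trivial⟩
  | h + 1 => ⟨univ, by simpa using ha, fun _ _ => thick_univ ha hr h⟩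

/-- **Chains which are separated for the times.** -/
theorem exists_chain [Fintype ι] [DecidableEq ι] (k m r h : ℕ) (hh : 2 ^ (k * k) * (2 * m) ≤ h)
    {S : Var D ι h → Prop} (hS : Thick (QQ k ^ h) (QQ k ^ h * r) h S)
    (t : Fin k → Var D ι h → ℕ) :
    ∃ A B : Finset (Var D ι h), Ch r h (2 * m) A B ∧ (∀ a ∈ A, S a) ∧ (∀ b ∈ B, S b) ∧
      ∀ j j', (∀ a ∈ A, ∀ b ∈ B, t j a ≤ t j' b) ∨ (∀ a ∈ A, ∀ b ∈ B, t j' b ≤ t j a) := by
  classical
  obtain ⟨n, hn, hch⟩ := cl_aux k r h S t hS
  have hex : ∃ M, 2 * m ≤ n M := by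
    by_contra hcon
    push Not at hcon
    have h1 : ∑ M, n M < ∑ _M : Fin k → Fin k → Bool, 2 * m :=
      sum_lt_sum_of_nonempty ⟨fun _ _ => true, mem_univ _⟩ fun M _ => hcon M
    rw [hn, sum_const, card_univ, Fintype.card_fun, Fintype.card_fun, Fintype.card_fin,
      Fintype.card_bool, ← pow_mul, smul_eq_mul] at h1
    omega
  obtain ⟨M, hM⟩ := hex
  obtain ⟨A, B, h1, h2, h3, h4⟩ := hch M (2 * m) hM
  refine ⟨A, B, h1, h2, h3, fun j j' => ?_⟩
  cases hM' : M j j'
  · exact Or.inr fun a ha b hb => (h4 j j' a ha b hb).2 hM'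
  · exact Or.inl fun a ha b hb => (h4 j j' a ha b hb).1 hM'

theorem Ch.nonempty [DecidableEq ι] {r h n : ℕ} {A B : Finset (Var D ι h)} (hr : 1 ≤ r)
    (hc : Ch r h n A B) : 2 ≤ n → A.Nonempty := by
  induction hc with
  | nil h => intro h1; omega
  | skip p _ ih =>
    intro h1
    exact (ih h1).map
  | stepB y z _ l I _ _ ih =>
    intro h1
    exact (ih (by omega)).map
  | stepA y x _ l I hI _ _ =>
    intro _
    have h1 : I.Nonempty := card_pos.1 (by omega)
    exact h1.map.map.mono subset_union_right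

end Pool.Agent.V8H39.SR
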