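import Mathlib
import Pool.Agent.V8H39.SR.Chain

/-!
# Sets of bits of large weight in a tree, and separated subtrees
-/

set_option autoImplicit false

open Finset

namespace Pool.Agent.V8H39.SR

variable {D : ℕ} {ι : Type}

theorem filt_union [Fintype ι] (P Q R : ι → Prop) [DecidablePred P] [DecidablePred Q]
    [DecidablePred R] (h : ∀ i, P i → Q i ∨ R i) :
    (univ.filter P).card ≤ (univ.filter Q).card + (univ.filter R).card := by
  classical
  refine (card_le_card fun i hi => ?_).trans (card_union_le _ _)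
  rw [mem_union, mem_filter, mem_filter]
  rw [mem_filter] at hi
  rcases h i hi.2 with h | h
  · exact Or.inl ⟨hi.1, h⟩
  · exact Or.inr ⟨hi.1, h⟩

theorem filt_mono [Fintype ι] (P Q : ι → Prop) [DecidablePred P] [DecidablePred Q]
    (h : ∀ i, P i → Q i) : (univ.filter P).card ≤ (univ.filter Q).card :=
  card_le_card fun i hi => by
    rw [mem_filter] at hi ⊢
    exact ⟨hi.1, h i hi.2⟩

theorem filt_self [Fintype ι] (P : ι → Prop) [DecidablePred P] {r : ℕ}
    (h : r ≤ (univ.filter P).card) : ∃ I : Finset ι, r ≤ I.card ∧ ∀ i ∈ I, P i :=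
  ⟨univ.filter P, h, fun i hi => (mem_filter.1 hi).2⟩

open scoped Classical in
/-- the number of the bits of leaves which belong to `S` -/
noncomputable def wt [Fintype ι] : (h : ℕ) → (Var D ι h → Prop) → ℕ
  | 0, S => (univ.filter fun i : ι => S i).card
  | h + 1, S => ∑ p : Fin D, wt h (fun v => S (Sum.inr (p, v)))

theorem wt_mono [Fintype ι] (h : ℕ) {S S' : Var D ι h → Prop} (hS : ∀ v, S v → S' v) :
    wt h S ≤ wt h S' := by
  induction h with
  | zero =>
    exact @filt_mono ι _ _ _ (fun _ => Classical.propDecidable _) (fun _ => Classical.propDecidable _)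
      fun i => hS i
  | succ h ih => exact sum_le_sum fun p _ => ih fun v hv => hS _ hv

theorem wt_union [Fintype ι] (h : ℕ) (S S' : Var D ι h → Prop) :
    wt h (fun v => S v ∨ S' v) ≤ wt h S + wt h S' := by
  induction h with
  | zero =>
    exact @filt_union ι _ _ _ _ (fun _ => Classical.propDecidable _) (fun _ => Classical.propDecidable _)
      (fun _ => Classical.propDecidable _) fun _ hi => hi
  | succ h ih =>
    show (∑ p : Fin D, wt h _) ≤ (∑ p : Fin D, wt h _) + ∑ p : Fin D, wt h _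
    rw [← sum_add_distrib]
    exact sum_le_sum fun p _ => ih _ _

theorem wt_le [Fintype ι] (h : ℕ) (S : Var D ι h → Prop) : wt h S ≤ D ^ h * Fintype.card ι := by
  induction h with
  | zero =>
    rw [pow_zero, one_mul]
    exact card_le_univ _
  | succ h ih =>
    calc wt (h + 1) S = ∑ p : Fin D, wt h (fun v => S (Sum.inr (p, v))) := rfl
      _ ≤ ∑ _p : Fin D, D ^ h * Fintype.card ι := sum_le_sum fun p _ => ih _
      _ = D ^ (h + 1) * Fintype.card ι := by
        rw [sum_const, card_univ, Fintype.card_fin, smul_eq_mul]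
        ring

/-- large sets have a leaf with many bits -/
theorem wt_leaf [Fintype ι] (hD : 1 ≤ D) {r : ℕ} : ∀ (h : ℕ) (S : Var D ι h → Prop),
    r * D ^ h ≤ wt h S → ∃ (l : Leaf D h) (I : Finset ι), r ≤ I.card ∧ ∀ i ∈ I, S (leafVar h l i)
  | 0, S, hS => by
    rw [pow_zero, mul_one] at hS
    obtain ⟨I, h1, h2⟩ := @filt_self ι _ _ (fun _ => Classical.propDecidable _) _ hS
    exact ⟨(), I, h1, h2⟩
  | h + 1, S, hS => by
    have hex : ∃ p : Fin D, r * D ^ h ≤ wt h (fun v => S (Sum.inr (p, v))) := by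
      by_contra hcon
      push Not at hcon
      have h1 : wt (h + 1) S < ∑ _p : Fin D, r * D ^ h :=
        sum_lt_sum_of_nonempty ⟨⟨0, hD⟩, mem_univ _⟩ fun p _ => hcon p
      rw [sum_const, card_univ, Fintype.card_fin, smul_eq_mul] at h1
      have h2 : D * (r * D ^ h) = r * D ^ (h + 1) := by ring
      omega
    obtain ⟨p, hp⟩ := hex
    obtain ⟨l, I, h1, h2⟩ := wt_leaf hD h _ hp
    exact ⟨(p, l), I, h1, h2⟩

theorem wt_separate [Fintype ι] {h : ℕ} {a : ℝ} {S S' : Var D ι h → Prop}
    (t t' : Var D ι h → ℕ) (hS : 2 * a ≤ wt h S) (hS' : 2 * a ≤ wt h S') :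
    ∃ S₁ S₁' : Var D ι h → Prop, (∀ v, S₁ v → S v) ∧ (∀ v, S₁' v → S' v) ∧ a ≤ wt h S₁ ∧
      a ≤ wt h S₁' ∧ Weak t S₁ t' S₁' := by
  classical
  rcases le_or_gt a 0 with ha | ha
  · refine ⟨fun _ => False, fun _ => False, fun _ h => h.elim, fun _ h => h.elim,
      ha.trans (Nat.cast_nonneg _), ha.trans (Nat.cast_nonneg _),
      Or.inl fun _ _ h => h.elim⟩
  have hmono : ∀ {S S' : Var D ι h → Prop}, (∀ v, S v → S' v) → (wt h S : ℝ) ≤ wt h S' :=
    fun hS => by exact_mod_cast wt_mono h hS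
  have hunion : ∀ {S T T' : Var D ι h → Prop}, (∀ v, S v → T v ∨ T' v) → 2 * a ≤ wt h S →
      a ≤ wt h T ∨ a ≤ wt h T' := by
    intro S T T' hST hS
    have h1 := hmono hST
    have h2 : (wt h (fun v => T v ∨ T' v) : ℝ) ≤ wt h T + wt h T' := by
      exact_mod_cast wt_union h T T'
    by_contra hcon
    push Not at hcon
    linarith [hcon.1, hcon.2]
  have hex : ∃ θ, a ≤ wt h (fun v => S v ∧ t v ≤ θ) ∨ a ≤ wt h (fun v => S' v ∧ t' v ≤ θ) := by
    refine ⟨univ.sup t, Or.inl ?_⟩
    have := hmono (S := S) (S' := fun v => S v ∧ t v ≤ univ.sup t)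
      (fun v hv => ⟨hv, le_sup (f := t) (mem_univ v)⟩)
    linarith
  obtain ⟨θ, hθ, hmin⟩ : ∃ θ, (a ≤ wt h (fun v => S v ∧ t v ≤ θ) ∨
      a ≤ wt h (fun v => S' v ∧ t' v ≤ θ)) ∧ ∀ θ' < θ,
      ¬ (a ≤ wt h (fun v => S v ∧ t v ≤ θ') ∨ a ≤ wt h (fun v => S' v ∧ t' v ≤ θ')) :=
    ⟨Nat.find hex, Nat.find_spec hex, fun θ' h => Nat.find_min hex h⟩
  have key : a ≤ wt h (fun v => S v ∧ θ ≤ t v) ∧ a ≤ wt h (fun v => S' v ∧ θ ≤ t' v) := by
    rcases Nat.eq_zero_or_pos θ with rfl | hpos
    · have h1 := hmono (S := S) (S' := fun v => S v ∧ 0 ≤ t v) (fun v hv => ⟨hv, Nat.zero_le _⟩)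
      have h2 := hmono (S := S') (S' := fun v => S' v ∧ 0 ≤ t' v)
        (fun v hv => ⟨hv, Nat.zero_le _⟩)
      constructor <;> linarith
    · have h1 := hmin (θ - 1) (by omega)
      push Not at h1
      constructor
      · refine (hunion (T := fun v => S v ∧ t v ≤ θ - 1) (T' := fun v => S v ∧ θ ≤ t v) ?_
          hS).resolve_left (not_le.2 h1.1)
        intro v hv
        rcases Nat.lt_or_ge (t v) θ with h3 | h3
        · exact Or.inl ⟨hv, by omega⟩
        · exact Or.inr ⟨hv, h3⟩
      · refine (hunion (T := fun v => S' v ∧ t' v ≤ θ - 1) (T' := fun v => S' v ∧ θ ≤ t' v) ?_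
          hS').resolve_left (not_le.2 h1.2)
        intro v hv
        rcases Nat.lt_or_ge (t' v) θ with h3 | h3
        · exact Or.inl ⟨hv, by omega⟩
        · exact Or.inr ⟨hv, h3⟩
  rcases hθ with hθ | hθ
  · exact ⟨_, _, fun v hv => hv.1, fun v hv => hv.1, hθ, key.2,
      Or.inl fun v v' hv hv' => hv.2.trans hv'.2⟩
  · exact ⟨_, _, fun v hv => hv.1, fun v hv => hv.1, key.1, hθ,
      Or.inr fun v v' hv hv' => hv'.2.trans hv.2⟩

/-- Many pairs of children are separated. -/
theorem wt_refine [Fintype ι] {h N k : ℕ} (t : Fin N → Fin k → Var D ι h → ℕ)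
    (E : Finset ((Fin N × Fin N) × (Fin k × Fin k))) :
    (∀ e ∈ E, e.1.1 ≠ e.1.2) → ∀ (a : ℝ), 0 ≤ a → ∀ (S : Fin N → Var D ι h → Prop),
    (∀ p, 2 ^ E.card * a ≤ wt h (S p)) →
    ∃ S' : Fin N → Var D ι h → Prop, (∀ p v, S' p v → S p v) ∧ (∀ p, a ≤ wt h (S' p)) ∧
      ∀ e ∈ E, Weak (t e.1.1 e.2.1) (S' e.1.1) (t e.1.2 e.2.2) (S' e.1.2) := by
  classical
  induction E using Finset.induction_on with
  | empty =>
    intro _ a _ S hS
    exact ⟨S, fun _ _ h => h, fun p => by simpa using hS p, fun e he => by simp at he⟩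
  | insert e E he ih =>
    intro hne a ha S hS
    obtain ⟨S₁, h1, h2, h3⟩ := ih (fun e' he' => hne e' (mem_insert_of_mem he')) (2 * a)
      (by linarith) S (fun p => by
        have := hS p
        rw [card_insert_of_notMem he, pow_succ, mul_assoc] at this
        exact this)
    have hpe := hne e (mem_insert_self _ _)
    obtain ⟨T, T', h4, h5, h6, h7, h8⟩ := wt_separate (t e.1.1 e.2.1) (t e.1.2 e.2.2) (h2 e.1.1)
      (h2 e.1.2)
    obtain ⟨S₂, hS₂⟩ : ∃ S₂ : Fin N → Var D ι h → Prop, ∀ p, S₂ p =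
      if p = e.1.1 then T else if p = e.1.2 then T' else S₁ p := ⟨_, fun _ => rfl⟩
    have hsub : ∀ p v, S₂ p v → S₁ p v := by
      intro p v hv
      rw [hS₂] at hv
      by_cases hp : p = e.1.1
      · subst hp
        rw [if_pos rfl] at hv
        exact h4 v hv
      · rw [if_neg hp] at hv
        by_cases hp' : p = e.1.2
        · subst hp'
          rw [if_pos rfl] at hv
          exact h5 v hv
        · rw [if_neg hp'] at hv
          exact hv
    refine ⟨S₂, fun p v hv => h1 p v (hsub p v hv), ?_, ?_⟩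
    · intro p
      rw [hS₂]
      by_cases hp : p = e.1.1
      · rw [if_pos hp]
        exact h6
      · rw [if_neg hp]
        by_cases hp' : p = e.1.2
        · rw [if_pos hp']
          exact h7
        · rw [if_neg hp']
          have := h2 p
          linarith
    · intro e' he'
      rcases mem_insert.1 he' with rfl | he'
      · have e1 : S₂ e'.1.1 = T := by rw [hS₂]; simp
        have e2 : S₂ e'.1.2 = T' := by
          rw [hS₂]
          simp [Ne.symm hpe]
        rw [e1, e2]
        exact h8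
      · exact (h3 e' he').mono (hsub _) (hsub _)

/-- the loss for one step -/
def GG (k : ℕ) : ℕ := 2 * 2 ^ (NN k * NN k * (k * k))

/-- the number of the children -/
def DD (k : ℕ) : ℕ := 2 * NN k * GG k

theorem GG_ge (k : ℕ) : 2 ≤ GG k := by
  unfold GG
  have : 0 < 2 ^ (NN k * NN k * (k * k)) := by positivity
  omega

theorem wt_step [Fintype ι] {h k : ℕ} {W : ℝ} (hW : 0 < W) (hD : NN k ≤ D)
    (t : Fin k → Var D ι (h + 1) → ℕ)
    (S : Var D ι (h + 1) → Prop) (hS : W ≤ wt (h + 1) S) :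
    (∃ y : Fin D, W ≤ 2 * NN k * (wt h (fun v => S (Sum.inr (y, v))) : ℝ)) ∨
    ∃ (x y z : Fin D) (M : Fin k → Fin k → Bool) (X Y Z : Var D ι h → Prop),
      x ≠ y ∧ z ≠ y ∧ (∀ v, X v → S (Sum.inr (x, v))) ∧ (∀ v, Y v → S (Sum.inr (y, v))) ∧
      (∀ v, Z v → S (Sum.inr (z, v))) ∧ W / (D * GG k) ≤ wt h X ∧ W / (D * GG k) ≤ wt h Y ∧
      W / (D * GG k) ≤ wt h Z ∧
      Rel M (fun j v => t j (Sum.inr (x, v))) X (fun j v => t j (Sum.inr (y, v))) Y ∧
      Rel M (fun j v => t j (Sum.inr (y, v))) Y (fun j v => t j (Sum.inr (z, v))) Z := by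
  classical
  have hN : 1 ≤ NN k := Nat.succ_pos _
  have hD0 : (0 : ℝ) < D := by exact_mod_cast (lt_of_lt_of_le hN hD)
  obtain ⟨P, hP⟩ : ∃ P : Finset (Fin D), P = univ.filter fun p : Fin D =>
    W ≤ 2 * D * (wt h (fun v => S (Sum.inr (p, v))) : ℝ) := ⟨_, rfl⟩
  have hsum : (wt (h + 1) S : ℝ) = ∑ p : Fin D, (wt h (fun v => S (Sum.inr (p, v))) : ℝ) := by
    have : wt (h + 1) S = ∑ p : Fin D, wt h (fun v => S (Sum.inr (p, v))) := rfl
    rw [this, Nat.cast_sum]
  rcases Nat.lt_or_ge P.card (NN k) with hlt | hge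
  · left
    by_contra hcon
    push Not at hcon
    have h1 : ∑ p ∈ Pᶜ, (wt h (fun v => S (Sum.inr (p, v))) : ℝ) ≤ W / 2 := by
      calc ∑ p ∈ Pᶜ, (wt h (fun v => S (Sum.inr (p, v))) : ℝ) ≤ ∑ _p ∈ Pᶜ, W / (2 * D) := by
            refine sum_le_sum fun p hp => ?_
            rw [mem_compl, hP, mem_filter] at hp
            push Not at hp
            have h2 := hp (mem_univ _)
            rw [le_div_iff₀ (by positivity)]
            linarith
        _ = (Pᶜ.card : ℝ) * (W / (2 * D)) := by rw [sum_const, nsmul_eq_mul]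
        _ ≤ (D : ℝ) * (W / (2 * D)) := by
            have : (Pᶜ.card : ℝ) ≤ D := by
              have h3 := card_le_univ Pᶜ
              rw [Fintype.card_fin] at h3
              exact_mod_cast h3
            gcongr
        _ = W / 2 := by field_simp
    have h2 : ∑ p ∈ P, (wt h (fun v => S (Sum.inr (p, v))) : ℝ) < W / 2 := by
      rcases P.eq_empty_or_nonempty with hemp | hne
      · rw [hemp, sum_empty]
        linarith
      · calc ∑ p ∈ P, (wt h (fun v => S (Sum.inr (p, v))) : ℝ) < ∑ _p ∈ P, W / (2 * NN k) := by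
              refine sum_lt_sum_of_nonempty hne fun p _ => ?_
              rw [lt_div_iff₀ (by positivity)]
              have := hcon p
              linarith
          _ = (P.card : ℝ) * (W / (2 * NN k)) := by rw [sum_const, nsmul_eq_mul]
          _ ≤ (NN k : ℝ) * (W / (2 * NN k)) := by
              have : (P.card : ℝ) ≤ NN k := by exact_mod_cast hlt.le
              gcongr
          _ = W / 2 := by
              have : (0 : ℝ) < NN k := by exact_mod_cast hN
              field_simp
    have h3 := sum_add_sum_compl P fun p => (wt h (fun v => S (Sum.inr (p, v))) : ℝ)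
    rw [← hsum] at h3
    linarith
  · right
    obtain ⟨E, hE⟩ : ∃ E : Finset ((Fin (NN k) × Fin (NN k)) × (Fin k × Fin k)),
      E = univ.filter (fun e => e.1.1 ≠ e.1.2) := ⟨_, rfl⟩
    have hEc : E.card ≤ NN k * NN k * (k * k) := by
      rw [hE]
      refine (card_filter_le _ _).trans (le_of_eq ?_)
      rw [card_univ]
      simp [Fintype.card_prod]
    have hpow : (2 : ℝ) ^ E.card * 2 ≤ GG k := by
      have h1 : (2 : ℝ) ^ E.card ≤ 2 ^ (NN k * NN k * (k * k)) :=
        pow_le_pow_right₀ (by norm_num) hEc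
      have h2 : (GG k : ℝ) = 2 * 2 ^ (NN k * NN k * (k * k)) := by
        unfold GG
        push_cast
        ring
      linarith
    obtain ⟨f⟩ : Nonempty (Fin (NN k) ↪ P) :=
      Function.Embedding.nonempty_of_card_le (by rw [Fintype.card_fin, Fintype.card_coe]; exact hge)
    have hG0 : (0 : ℝ) < GG k := by
      have := GG_ge k
      exact_mod_cast (by omega : 0 < GG k)
    obtain ⟨S', h1, h2, h3⟩ := wt_refine (fun p j v => t j (Sum.inr ((f p : Fin D), v))) E
      (fun e he => by rw [hE] at he; exact (mem_filter.1 he).2) (W / (D * GG k)) (by positivity)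
      (fun p v => S (Sum.inr ((f p : Fin D), v)))
      (fun p => by
        have h5 : ∀ q ∈ P, W ≤ 2 * D * (wt h (fun v => S (Sum.inr (q, v))) : ℝ) := by
          intro q hq
          rw [hP, mem_filter] at hq
          exact hq.2
        have h5 := h5 _ (f p).2
        calc 2 ^ E.card * (W / (D * GG k)) = (2 ^ E.card * 2 / GG k) * (W / (2 * D)) := by
              field_simp
          _ ≤ 1 * (W / (2 * D)) := by
              gcongr
              rw [div_le_one hG0]
              exact hpow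
          _ ≤ _ := by
              rw [one_mul, div_le_iff₀ (by positivity)]
              linarith)
    obtain ⟨col, hcol⟩ : ∃ col : Fin (NN k) → Fin (NN k) → (Fin k → Fin k → Bool),
        ∀ p p' j j', col p p' j j' = true ↔ ∀ v v', S' p v → S' p' v' →
          t j (Sum.inr ((f p : Fin D), v)) ≤ t j' (Sum.inr ((f p' : Fin D), v')) :=
      ⟨fun p p' j j' => decide (∀ v v', S' p v → S' p' v' →
          t j (Sum.inr ((f p : Fin D), v)) ≤ t j' (Sum.inr ((f p' : Fin D), v'))),
        fun p p' j j' => by simp⟩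
    obtain ⟨x, y, z, hxy, hyz, hc⟩ := exists_triple col
    have hrel : ∀ p p', p ≠ p' → Rel (col p p') (fun j v => t j (Sum.inr ((f p : Fin D), v)))
        (S' p) (fun j v => t j (Sum.inr ((f p' : Fin D), v))) (S' p') := by
      intro p p' hpp j j' v v' hv hv'
      refine ⟨fun h => (hcol p p' j j').1 h v v' hv hv', fun h => ?_⟩
      have h4 : ((p, p'), (j, j')) ∈ E := by
        rw [hE]
        simpa using hpp
      rcases h3 _ h4 with h5 | h5
      · have h6 := (hcol p p' j j').2 h5
        rw [h6] at h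
        exact absurd h (by simp)
      · exact h5 v v' hv hv'
    have hinj : ∀ p p', p ≠ p' → (f p : Fin D) ≠ (f p' : Fin D) := fun p p' hpp h =>
      hpp (f.injective (Subtype.ext h))
    refine ⟨f x, f y, f z, col x y, S' x, S' y, S' z, hinj _ _ hxy.ne, hinj _ _ hyz.ne', h1 x,
      h1 y, h1 z, h2 x, h2 y, h2 z, hrel x y hxy.ne, ?_⟩
    rw [hc]
    exact hrel y z hyz.ne

end Pool.Agent.V8H39.SR
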