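import Mathlib
import Pool.Agent.V8H39.SR.Wt

/-!
# Long chains in sets of large weight
-/

set_option autoImplicit false

open Finset

namespace Pool.Agent.V8H39.SR

variable {D : ℕ} {ι : Type}

/-- the chains for a matrix -/
def Chs [DecidableEq ι] (k r : ℕ) {h : ℕ} (S : Var D ι h → Prop) (t : Fin k → Var D ι h → ℕ)
    (M : Fin k → Fin k → Bool) (m : ℕ) : Prop :=
  ∃ A B : Finset (Var D ι h), Ch r h m A B ∧ (∀ v ∈ A, S v) ∧ (∀ v ∈ B, S v) ∧
    ∀ j j', ∀ a ∈ A, ∀ b ∈ B, (M j j' = true → t j a ≤ t j' b) ∧ (M j j' = false → t j' b ≤ t j a)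

theorem Chs.skip [DecidableEq ι] {k r h : ℕ} {S : Var D ι (h + 1) → Prop}
    {t : Fin k → Var D ι (h + 1) → ℕ} {M : Fin k → Fin k → Bool} {m : ℕ} (y : Fin D)
    {Y : Var D ι h → Prop} (hY : ∀ v, Y v → S (Sum.inr (y, v)))
    (hc : Chs k r Y (fun j v => t j (Sum.inr (y, v))) M m) : Chs k r S t M m := by
  obtain ⟨A, B, h1, h2, h3, h4⟩ := hc
  refine ⟨A.map (lift y), B.map (lift y), Ch.skip y h1, ?_, ?_, ?_⟩
  · intro v hv
    obtain ⟨v', hv', rfl⟩ := mem_map.1 hv
    exact hY _ (h2 v' hv')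
  · intro v hv
    obtain ⟨v', hv', rfl⟩ := mem_map.1 hv
    exact hY _ (h3 v' hv')
  · intro j j' a ha b hb
    obtain ⟨a', ha', rfl⟩ := mem_map.1 ha
    obtain ⟨b', hb', rfl⟩ := mem_map.1 hb
    exact h4 j j' a' ha' b' hb'

theorem Chs.next [DecidableEq ι] {k r h : ℕ} {S : Var D ι (h + 1) → Prop}
    {t : Fin k → Var D ι (h + 1) → ℕ} {M : Fin k → Fin k → Bool} {m : ℕ} {x y z : Fin D}
    (hxy : x ≠ y) (hzy : z ≠ y)
    {X Y Z : Var D ι h → Prop} (hX : ∀ v, X v → S (Sum.inr (x, v)))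
    (hY : ∀ v, Y v → S (Sum.inr (y, v))) (hZ : ∀ v, Z v → S (Sum.inr (z, v)))
    (rel1 : Rel M (fun j v => t j (Sum.inr (x, v))) X (fun j v => t j (Sum.inr (y, v))) Y)
    (rel2 : Rel M (fun j v => t j (Sum.inr (y, v))) Y (fun j v => t j (Sum.inr (z, v))) Z)
    (lX : ∃ (l : Leaf D h) (I : Finset ι), r ≤ I.card ∧ ∀ i ∈ I, X (leafVar h l i))
    (lZ : ∃ (l : Leaf D h) (I : Finset ι), r ≤ I.card ∧ ∀ i ∈ I, Z (leafVar h l i))
    (hc : Chs k r Y (fun j v => t j (Sum.inr (y, v))) M m) : Chs k r S t M (m + 1) := by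
  obtain ⟨A, B, h1, h2, h3, h4⟩ := hc
  rcases Nat.even_or_odd' m with ⟨c, hc | hc⟩
  · obtain ⟨l, I, hI, hl⟩ := lZ
    rw [hc] at h1
    refine ⟨A.map (lift y), B.map (lift y) ∪ (I.map (leafEmb l)).map (lift z), ?_, ?_, ?_, ?_⟩
    · rw [hc]
      exact Ch.stepB y z hzy l I hI h1
    · intro v hv
      obtain ⟨v', hv', rfl⟩ := mem_map.1 hv
      exact hY _ (h2 v' hv')
    · intro v hv
      rcases mem_union.1 hv with hv | hv
      · obtain ⟨v', hv', rfl⟩ := mem_map.1 hv
        exact hY _ (h3 v' hv')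
      · obtain ⟨v', hv', rfl⟩ := mem_map.1 hv
        obtain ⟨i, hi, rfl⟩ := mem_map.1 hv'
        exact hZ _ (hl i hi)
    · intro j j' a ha b hb
      obtain ⟨a', ha', rfl⟩ := mem_map.1 ha
      rcases mem_union.1 hb with hb | hb
      · obtain ⟨b', hb', rfl⟩ := mem_map.1 hb
        exact h4 j j' a' ha' b' hb'
      · obtain ⟨v', hv', rfl⟩ := mem_map.1 hb
        obtain ⟨i, hi, rfl⟩ := mem_map.1 hv'
        exact rel2 j j' a' _ (h2 a' ha') (hl i hi)
  · obtain ⟨l, I, hI, hl⟩ := lX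
    rw [hc] at h1
    refine ⟨A.map (lift y) ∪ (I.map (leafEmb l)).map (lift x), B.map (lift y), ?_, ?_, ?_, ?_⟩
    · rw [hc]
      exact Ch.stepA y x hxy l I hI h1
    · intro v hv
      rcases mem_union.1 hv with hv | hv
      · obtain ⟨v', hv', rfl⟩ := mem_map.1 hv
        exact hY _ (h2 v' hv')
      · obtain ⟨v', hv', rfl⟩ := mem_map.1 hv
        obtain ⟨i, hi, rfl⟩ := mem_map.1 hv'
        exact hX _ (hl i hi)
    · intro v hv
      obtain ⟨v', hv', rfl⟩ := mem_map.1 hv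
      exact hY _ (h3 v' hv')
    · intro j j' a ha b hb
      obtain ⟨b', hb', rfl⟩ := mem_map.1 hb
      rcases mem_union.1 ha with ha | ha
      · obtain ⟨a', ha', rfl⟩ := mem_map.1 ha
        exact h4 j j' a' ha' b' hb'
      · obtain ⟨v', hv', rfl⟩ := mem_map.1 ha
        obtain ⟨i, hi, rfl⟩ := mem_map.1 hv'
        exact rel1 j j' _ b' (hl i hi) (h3 b' hb')

theorem wt_chains [Fintype ι] [DecidableEq ι] {k r : ℕ} (hr : 1 ≤ r) (hD : D = DD k) :
    ∀ (h : ℕ) (S : Var D ι h → Prop) (t : Fin k → Var D ι h → ℕ) (W : ℝ), W ≤ wt h S →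
    (r : ℝ) * D ^ h * GG k ^ h ≤ W →
    ∃ n : (Fin k → Fin k → Bool) → ℕ, W * (2 * NN k) ^ (∑ M, n M) ≤
      Fintype.card ι * (2 * NN k) ^ h * (D * GG k) ^ (∑ M, n M) ∧
      ∀ M, ∀ m ≤ n M, Chs k r S t M m := by
  have hN : 1 ≤ NN k := Nat.succ_pos _
  have hG := GG_ge k
  have hND : NN k ≤ D := by
    rw [hD]
    unfold DD
    nlinarith
  have hN0 : (0 : ℝ) < NN k := by exact_mod_cast hN
  have hG0 : (0 : ℝ) < GG k := by exact_mod_cast (by omega : 0 < GG k)
  have hD0 : (0 : ℝ) < D := by exact_mod_cast (lt_of_lt_of_le hN hND)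
  have hr0 : (0 : ℝ) < r := by exact_mod_cast hr
  have hG1 : (1 : ℝ) ≤ GG k := by exact_mod_cast (by omega : 1 ≤ GG k)
  have hDN : (2 * NN k : ℝ) ≤ D * GG k := by
    have h1 : 2 * NN k ≤ D := by
      rw [hD]
      unfold DD
      nlinarith
    have h2 : (2 * NN k : ℝ) ≤ D := by exact_mod_cast h1
    nlinarith
  intro h
  induction h with
  | zero =>
    intro S t W hW _
    refine ⟨fun _ => 0, ?_, fun M m hm => ?_⟩
    · have h1 := wt_le 0 S
      rw [pow_zero, one_mul] at h1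
      have h2 : (wt 0 S : ℝ) ≤ Fintype.card ι := by exact_mod_cast h1
      simp
      linarith
    · have : m = 0 := Nat.le_zero.1 hm
      subst this
      exact ⟨∅, ∅, Ch.nil 0, by simp, by simp, by simp⟩
  | succ h ih =>
    intro S t W hW hlow
    have hpos : (0 : ℝ) < r * D ^ h * GG k ^ h := by positivity
    have hlow' : (r * D ^ h * GG k ^ h) * (D * GG k) ≤ W := by
      calc (r * D ^ h * GG k ^ h : ℝ) * (D * GG k) = r * D ^ (h + 1) * GG k ^ (h + 1) := by ring
        _ ≤ W := hlow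
    have hW0 : 0 < W := lt_of_lt_of_le (by positivity) hlow'
    rcases wt_step hW0 hND t S hW with ⟨y, hy⟩ | ⟨x, y, z, M₀, X, Y, Z, hxy, hzy, hX, hY, hZ, wX,
      wY, wZ, rel1, rel2⟩
    · obtain ⟨n, hn, hch⟩ := ih (fun v => S (Sum.inr (y, v))) (fun j v => t j (Sum.inr (y, v)))
        (W / (2 * NN k)) (by
          rw [div_le_iff₀ (by positivity)]
          linarith) (by
          rw [le_div_iff₀ (by positivity)]
          calc (r * D ^ h * GG k ^ h : ℝ) * (2 * NN k) ≤ (r * D ^ h * GG k ^ h) * (D * GG k) := by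
                gcongr
            _ ≤ W := hlow')
      refine ⟨n, ?_, fun M m hm => (hch M m hm).skip y fun v hv => hv⟩
      obtain ⟨a, ha⟩ : ∃ a, a = ∑ M, n M := ⟨_, rfl⟩
      rw [← ha] at hn ⊢
      calc W * (2 * NN k) ^ a = (W / (2 * NN k) * (2 * NN k) ^ a) * (2 * NN k) := by
            field_simp
        _ ≤ (Fintype.card ι * (2 * NN k) ^ h * (D * GG k) ^ a) * (2 * NN k) := by
            gcongr
        _ = _ := by ring
    · have hlow3 : (r * D ^ h * GG k ^ h : ℝ) ≤ W / (D * GG k) := by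
        rw [le_div_iff₀ (by positivity)]
        exact hlow'
      obtain ⟨n, hn, hch⟩ := ih Y (fun j v => t j (Sum.inr (y, v))) (W / (D * GG k)) wY hlow3
      have hleaf : ∀ T : Var D ι h → Prop, W / (D * GG k) ≤ wt h T →
          ∃ (l : Leaf D h) (I : Finset ι), r ≤ I.card ∧ ∀ i ∈ I, T (leafVar h l i) := by
        intro T hT
        refine wt_leaf (by omega) h T ?_
        have h1 : (r * D ^ h : ℝ) ≤ r * D ^ h * GG k ^ h :=
          le_mul_of_one_le_right (by positivity) (one_le_pow₀ hG1)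
        have h2 : (r * D ^ h : ℝ) ≤ wt h T := by linarith
        exact_mod_cast h2
      refine ⟨Function.update n M₀ (n M₀ + 1), ?_, ?_⟩
      · have hsum : ∑ M, Function.update n M₀ (n M₀ + 1) M = (∑ M, n M) + 1 := by
          rw [Finset.sum_update_of_mem (mem_univ M₀)]
          have h1 := Finset.sum_erase_add univ n (mem_univ M₀)
          rw [Finset.erase_eq] at h1
          omega
        rw [hsum]
        obtain ⟨a, ha⟩ : ∃ a, a = ∑ M, n M := ⟨_, rfl⟩
        rw [← ha] at hn ⊢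
        calc W * (2 * NN k) ^ (a + 1) =
              (W / (D * GG k) * (2 * NN k) ^ a) * ((2 * NN k) * (D * GG k)) := by
              field_simp
              ring
          _ ≤ (Fintype.card ι * (2 * NN k) ^ h * (D * GG k) ^ a) * ((2 * NN k) * (D * GG k)) := by
              gcongr
          _ = _ := by ring
      · intro M m hm
        by_cases hM : M = M₀
        · subst hM
          rw [Function.update_self] at hm
          rcases Nat.lt_or_ge (n M) m with hlt | hle
          · have hm' : m = n M + 1 := by omega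
            rw [hm']
            exact Chs.next hxy hzy hX hY hZ rel1 rel2 (hleaf X wX) (hleaf Z wZ) (hch M _ le_rfl)
          · exact (hch M m hle).skip y hY
        · rw [Function.update_of_ne hM] at hm
          exact (hch M m hm).skip y hY

/-- **Long chains which are separated for the times.** -/
theorem exists_chain' [Fintype ι] [DecidableEq ι] (k m r h : ℕ) (hr : 1 ≤ r) (hD : D = DD k)
    (hh : 2 ^ (k * k) * (2 * m) * 2 + 1 ≤ h) (hq : 2 * (r * GG k ^ h) ≤ Fintype.card ι)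
    {S : Var D ι h → Prop} (hS : D ^ h * Fintype.card ι ≤ 2 * wt h S)
    (t : Fin k → Var D ι h → ℕ) :
    ∃ A B : Finset (Var D ι h), Ch r h (2 * m) A B ∧ (∀ a ∈ A, S a) ∧ (∀ b ∈ B, S b) ∧
      ∀ j j', (∀ a ∈ A, ∀ b ∈ B, t j a ≤ t j' b) ∨ (∀ a ∈ A, ∀ b ∈ B, t j' b ≤ t j a) := by
  classical
  have hN : 1 ≤ NN k := Nat.succ_pos _
  have hG := GG_ge k
  have hG1 : (1 : ℝ) < GG k := by exact_mod_cast (by omega : 1 < GG k)
  have hN0 : (0 : ℝ) < NN k := by exact_mod_cast hN
  have hG0 : (0 : ℝ) < GG k := by linarith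
  have hq0 : 0 < Fintype.card ι := by
    have : 0 < r * GG k ^ h := Nat.mul_pos hr (by positivity)
    omega
  have hq0' : (0 : ℝ) < Fintype.card ι := by exact_mod_cast hq0
  have hDc : (D : ℝ) = 2 * NN k * GG k := by
    rw [hD]
    unfold DD
    push_cast
    ring
  have hS' : (D : ℝ) ^ h * Fintype.card ι / 2 ≤ wt h S := by
    have h1 : (D : ℝ) ^ h * Fintype.card ι ≤ 2 * wt h S := by exact_mod_cast hS
    linarith
  have hq' : 2 * ((r : ℝ) * GG k ^ h) ≤ Fintype.card ι := by exact_mod_cast hq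
  obtain ⟨n, hn, hch⟩ := wt_chains hr hD h S t _ hS' (by
    have hD0 : (0 : ℝ) ≤ D ^ h := by positivity
    nlinarith)
  obtain ⟨a, ha⟩ : ∃ a, a = ∑ M, n M := ⟨_, rfl⟩
  rw [← ha] at hn
  -- the number of branchings
  have hlen : h ≤ 2 * a + 1 := by
    by_contra hcon
    push Not at hcon
    have h1 : (GG k : ℝ) ^ h ≤ 2 * GG k ^ (2 * a) := by
      have h2 : (GG k : ℝ) ^ h * ((2 * NN k) ^ h * Fintype.card ι * (2 * NN k) ^ a) ≤
          (2 * GG k ^ (2 * a)) * ((2 * NN k) ^ h * Fintype.card ι * (2 * NN k) ^ a) := by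
        calc (GG k : ℝ) ^ h * ((2 * NN k) ^ h * Fintype.card ι * (2 * NN k) ^ a) =
              2 * ((D : ℝ) ^ h * Fintype.card ι / 2 * (2 * NN k) ^ a) := by
              rw [hDc, mul_pow (2 * (NN k : ℝ))]
              ring
          _ ≤ 2 * (Fintype.card ι * (2 * NN k) ^ h * (D * GG k) ^ a) := by linarith
          _ = _ := by
              have h3 : ((D : ℝ) * GG k) ^ a = (2 * NN k) ^ a * GG k ^ (2 * a) := by
                rw [hDc, pow_mul, ← mul_pow]
                congr 1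
                ring
              rw [h3]
              ring
      exact le_of_mul_le_mul_right h2 (by positivity)
    have h2 : (2 : ℝ) * GG k ^ (2 * a) < GG k ^ h := by
      calc (2 : ℝ) * GG k ^ (2 * a) ≤ GG k * GG k ^ (2 * a) := by
            have : (2 : ℝ) ≤ GG k := by exact_mod_cast hG
            gcongr
        _ = GG k ^ (2 * a + 1) := by ring
        _ < GG k ^ h := pow_lt_pow_right₀ hG1 hcon
    linarith
  have hex : ∃ M, 2 * m ≤ n M := by
    by_contra hcon
    push Not at hcon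
    have h1 : ∑ M, n M < ∑ _M : Fin k → Fin k → Bool, 2 * m :=
      sum_lt_sum_of_nonempty ⟨fun _ _ => true, mem_univ _⟩ fun M _ => hcon M
    rw [← ha, sum_const, card_univ, Fintype.card_fun, Fintype.card_fun, Fintype.card_fin,
      Fintype.card_bool, ← pow_mul, smul_eq_mul] at h1
    omega
  obtain ⟨M, hM⟩ := hex
  obtain ⟨A, B, h1, h2, h3, h4⟩ := hch M (2 * m) hM
  refine ⟨A, B, h1, h2, h3, fun j j' => ?_⟩
  cases hM' : M j j'
  · exact Or.inr fun a ha b hb => (h4 j j' a ha b hb).2 hM'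
  · exact Or.inl fun a ha b hb => (h4 j j' a ha b hb).1 hM'

end Pool.Agent.V8H39.SR
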