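import Mathlib
import Pool.Agent.V8H43.SRC

/-!
# The number of inputs with zeros, with an explicit constant
-/

set_option autoImplicit false

open Finset

namespace Pool.Agent.V8H39.SR

/-- the number of nodes of the tree -/
def nodes (D : ℕ) : ℕ → ℕ
  | 0 => 1
  | h + 1 => 1 + D * nodes D h

theorem nodes_pos (D h : ℕ) : 1 ≤ nodes D h := by
  cases h with
  | zero => exact le_rfl
  | succ h => exact Nat.le_add_right _ _

theorem card_hole (D h : ℕ) : Fintype.card (Hole D h) + 1 = nodes D h := by
  induction h with
  | zero =>
    show Fintype.card Empty + 1 = 1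
    simp
  | succ h ih =>
    have h1 : Fintype.card (Hole D (h + 1)) = D * (Fintype.card (Hole D h) + 1) := by
      show Fintype.card (Fin D × Option (Hole D h)) = _
      rw [Fintype.card_prod, Fintype.card_fin, Fintype.card_option]
    rw [h1, ih, nodes, add_comm]

/-- Most inputs are nice. -/
theorem nice_count_le (D h : ℕ) (F : Type) [Field F] [Fintype F] [CharP F 2] :
    Nat.card {x : Var D F h → Bool // ¬ Nice h x} * Fintype.card F ≤
      ((h + 1) * nodes D h) * 2 ^ Fintype.card (Var D F h) := by
  classical
  induction h with
  | zero =>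
    have h1 : Nat.card {x : Var D F 0 → Bool // ¬ Nice 0 x} =
        Nat.card {x : F → Bool // blk (F := F) x = 0} :=
      Nat.card_congr (Equiv.subtypeEquivRight (fun x => not_not))
    rw [h1, nodes, zero_add, one_mul, one_mul]
    exact leaf_count
  | succ h hC =>
    have hval' : Nat.card {x : Var D F (h + 1) → Bool // val (h + 1) x = 0} * Fintype.card F ≤
        2 ^ Fintype.card (Var D F (h + 1)) := root_count _ val_flip
    have hhole : ∀ π : Hole D (h + 1),
        Nat.card {x : Var D F (h + 1) → Bool // hval (h + 1) π x = 0} * Fintype.card F ≤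
        2 ^ Fintype.card (Var D F (h + 1)) := fun π => root_count _ (hval_flip π)
    have hsub : ∀ p : Fin D,
        Nat.card {x : Var D F (h + 1) → Bool // ¬ Nice h (sub x p)} * Fintype.card F ≤
        ((h + 1) * nodes D h) * 2 ^ Fintype.card (Var D F (h + 1)) :=
      fun p => sub_count (fun y => ¬ Nice h y) _ hC p
    have hle : Nat.card {x : Var D F (h + 1) → Bool // ¬ Nice (h + 1) x} ≤
        Nat.card {x : Var D F (h + 1) → Bool // val (h + 1) x = 0} +
        ∑ π : Hole D (h + 1), Nat.card {x : Var D F (h + 1) → Bool // hval (h + 1) π x = 0} +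
        ∑ p : Fin D, Nat.card {x : Var D F (h + 1) → Bool // ¬ Nice h (sub x p)} := by
      simp only [Nat.card_eq_fintype_card, Fintype.card_subtype]
      refine le_trans (Finset.card_le_card (t := (univ.filter
        (fun x : Var D F (h + 1) → Bool => val (h + 1) x = 0) ∪
        univ.biUnion (fun π : Hole D (h + 1) =>
          univ.filter (fun x : Var D F (h + 1) → Bool => hval (h + 1) π x = 0))) ∪
        univ.biUnion (fun p : Fin D =>
          univ.filter (fun x : Var D F (h + 1) → Bool => ¬ Nice h (sub x p)))) ?_) ?_
      · intro x hx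
        simp only [mem_filter, mem_univ, true_and] at hx
        simp only [mem_union, mem_filter, mem_univ, true_and, mem_biUnion]
        by_contra hcon
        push Not at hcon
        exact hx ⟨hcon.1.1, hcon.1.2, hcon.2⟩
      · refine le_trans (Finset.card_union_le _ _) (Nat.add_le_add ?_ Finset.card_biUnion_le)
        exact le_trans (Finset.card_union_le _ _) (Nat.add_le_add le_rfl Finset.card_biUnion_le)
    calc Nat.card {x : Var D F (h + 1) → Bool // ¬ Nice (h + 1) x} * Fintype.card F
        ≤ (Nat.card {x : Var D F (h + 1) → Bool // val (h + 1) x = 0} +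
        ∑ π : Hole D (h + 1), Nat.card {x : Var D F (h + 1) → Bool // hval (h + 1) π x = 0} +
        ∑ p : Fin D, Nat.card {x : Var D F (h + 1) → Bool // ¬ Nice h (sub x p)}) *
          Fintype.card F := Nat.mul_le_mul_right _ hle
      _ = Nat.card {x : Var D F (h + 1) → Bool // val (h + 1) x = 0} * Fintype.card F +
        ∑ π : Hole D (h + 1), Nat.card {x : Var D F (h + 1) → Bool // hval (h + 1) π x = 0} *
          Fintype.card F +
        ∑ p : Fin D, Nat.card {x : Var D F (h + 1) → Bool // ¬ Nice h (sub x p)} *
          Fintype.card F := by rw [add_mul, add_mul, Finset.sum_mul, Finset.sum_mul]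
      _ ≤ 2 ^ Fintype.card (Var D F (h + 1)) +
        ∑ _π : Hole D (h + 1), 2 ^ Fintype.card (Var D F (h + 1)) +
        ∑ _p : Fin D, ((h + 1) * nodes D h) * 2 ^ Fintype.card (Var D F (h + 1)) := by
          refine Nat.add_le_add (Nat.add_le_add hval' ?_) ?_
          · exact Finset.sum_le_sum (fun π _ => hhole π)
          · exact Finset.sum_le_sum (fun p _ => hsub p)
      _ = (Fintype.card (Hole D (h + 1)) + 1 + D * ((h + 1) * nodes D h)) *
          2 ^ Fintype.card (Var D F (h + 1)) := by
          rw [Finset.sum_const, Finset.sum_const, Finset.card_univ, Finset.card_univ,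
            Fintype.card_fin]
          simp only [smul_eq_mul]
          ring
      _ ≤ _ := by
          refine Nat.mul_le_mul_right _ ?_
          rw [card_hole]
          have e : nodes D (h + 1) = 1 + D * nodes D h := rfl
          have e2 : D * ((h + 1) * nodes D h) = (h + 1) * (D * nodes D h) := by ring
          have e3 : (h + 1) * (D * nodes D h) ≤ (h + 1) * nodes D (h + 1) :=
            Nat.mul_le_mul_left _ (by omega)
          have e4 : (h + 1 + 1) * nodes D (h + 1) = (h + 1) * nodes D (h + 1) + nodes D (h + 1) := by
            ring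
          omega

end Pool.Agent.V8H39.SR
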