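import Mathlib
import Pool.Agent.V8H47.MH.Defs

/-!
# A deterministic one-way pushdown automaton which evaluates expressions
-/

set_option autoImplicit false

namespace Pool.Agent.V8H39.SR

open Pool.Agent.V8H47.MH

/-- the letters -/
inductive Sy
  | bit (b : Bool)
  | new
  | one
  | blk
  | seg
  | fin
  deriving DecidableEq, Fintype

/-- A pattern is a word in which some letters are variable bits; `fillBits p x` is the word that
arises if the bits of `x` are inserted. -/
def fillBits {n : ℕ} (p : List (Sy ⊕ Fin n)) (x : Fin n → Bool) : List Sy :=
  p.map (Sum.elim id fun i => Sy.bit (x i))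

/-- the states -/
inductive Md
  | ready
  | first
  | second
  | write
  | skip
  | yes
  deriving DecidableEq, Fintype

/-- The transitions for a letter. The store contains numbers in unary, `true` is a stroke and
`false` separates the numbers. In the state `ready` the automaton can write numbers on the store. The
letter `blk` begins a table of values of a function of the two topmost numbers; `first` and `second`
look up the two numbers in the table, `write` copies the value and `skip` goes on to the end `fin` of
the table. -/
def tr : Md → Sy → Option Bool → Md × Op Bool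
  | Md.ready, Sy.new, _ => (Md.ready, Op.push false)
  | Md.ready, Sy.one, _ => (Md.ready, Op.push true)
  | Md.ready, Sy.bit true, _ => (Md.ready, Op.push true)
  | Md.ready, Sy.blk, some true => (Md.first, Op.pop)
  | Md.ready, Sy.blk, some false => (Md.second, Op.pop)
  | Md.first, Sy.blk, some true => (Md.first, Op.pop)
  | Md.first, Sy.blk, some false => (Md.second, Op.pop)
  | Md.second, Sy.seg, some true => (Md.second, Op.pop)
  | Md.second, Sy.seg, _ => (Md.write, Op.keep)
  | Md.write, Sy.one, _ => (Md.write, Op.push true)
  | Md.write, Sy.seg, _ => (Md.skip, Op.keep)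
  | Md.write, Sy.blk, _ => (Md.skip, Op.keep)
  | Md.write, Sy.fin, _ => (Md.ready, Op.keep)
  | Md.skip, Sy.fin, _ => (Md.ready, Op.keep)
  | m, _, _ => (m, Op.keep)

/-- The automaton. It accepts if at the end of the word it is in the state `ready` and the topmost
number is not zero. -/
def Ev : PDA Sy (Fin 1) Bool where
  Q := Md
  finQ := inferInstance
  init := Md.ready
  acc := {Md.yes}
  step q a g :=
    match a 0 with
    | Sym.left => {(q, fun _ => Dir.R, Op.keep)}
    | Sym.letter c => {((tr q c g).1, fun _ => Dir.R, (tr q c g).2)}
    | Sym.right => {t | q = Md.ready ∧ g = some true ∧ t = (Md.yes, fun _ => Dir.S, Op.keep)}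

/-- The heads do not move to the left. -/
def OneWay {α H Γ : Type} (M : PDA α H Γ) : Prop :=
  ∀ q a g, ∀ t ∈ M.step q a g, ∀ i, t.2.1 i ≠ Dir.L

/-- The languages over `α` accepted by deterministic one-way pushdown automata. -/
def oneDPDA (α : Type) : Set (Language α) :=
  {L | ∃ (Γ : Type) (_ : Finite Γ) (M : PDA α (Fin 1) Γ), M.Det ∧ OneWay M ∧ M.lang = L}

end Pool.Agent.V8H39.SR
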