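import Mathlib
import Pool.Agent.V8H39.SR.Defs

/-!
# A deterministic machine with a store computes the tree function
-/

set_option autoImplicit false

open Finset

namespace Pool.Agent.V8H39.SR

/-- instructions for a register and a store: read the bit `v` and add `e` to the register if it is
one; push the register and put `c` in the register; multiply the register by the topmost element of
the store -/
inductive Ins (V F : Type) : Type
  | rd (v : V) (e : F)
  | psh (c : F)
  | ml

namespace Ins

variable {V F : Type}

/-- the bits which are read -/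
def vars : List (Ins V F) → List V
  | [] => []
  | rd v _ :: l => v :: vars l
  | psh _ :: l => vars l
  | ml :: l => vars l

theorem vars_append (p q : List (Ins V F)) : vars (p ++ q) = vars p ++ vars q := by
  induction p with
  | nil => rfl
  | cons i p ih => cases i <;> simp [vars, ih]

section inv

variable {P : Mach V} {R : V → Bool → Prop} {q : P.Conf} {s : List P.Γ} {L : List V} {b : Bool}

theorem inv_halt {b' : Bool} (ha : P.act q = Act.halt b') (h : P.Comp R q s L b) :
    L = [] ∧ b = b' := by
  cases h with
  | halt h =>
    rw [ha] at h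
    injection h with h
    exact ⟨rfl, h.symm⟩
  | guess h => rw [ha] at h; cases h
  | read h => rw [ha] at h; cases h
  | push h => rw [ha] at h; cases h
  | pop h => rw [ha] at h; cases h

theorem inv_read {v : V} {next : Bool → P.Conf} (ha : P.act q = Act.read v next)
    (h : P.Comp R q s L b) : ∃ c L', R v c ∧ L = v :: L' ∧ P.Comp R (next c) s L' b := by
  cases h with
  | halt h => rw [ha] at h; cases h
  | guess h => rw [ha] at h; cases h
  | @read _ _ L _ v' next' c' h hc h' =>
    rw [ha] at h
    injection h with h1 h2
    subst h1
    subst h2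
    exact ⟨c', L, hc, rfl, h'⟩
  | push h => rw [ha] at h; cases h
  | pop h => rw [ha] at h; cases h

theorem inv_push {c : P.Γ} {next : P.Conf} (ha : P.act q = Act.push c next)
    (h : P.Comp R q s L b) : P.Comp R next (c :: s) L b := by
  cases h with
  | halt h => rw [ha] at h; cases h
  | guess h => rw [ha] at h; cases h
  | read h => rw [ha] at h; cases h
  | push h h' =>
    rw [ha] at h
    injection h with h1 h2
    subst h1
    subst h2
    exact h'
  | pop h => rw [ha] at h; cases h

theorem inv_pop {next : P.Γ → P.Conf} (ha : P.act q = Act.pop next)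
    (h : P.Comp R q s L b) : ∃ c s', s = c :: s' ∧ P.Comp R (next c) s' L b := by
  cases h with
  | halt h => rw [ha] at h; cases h
  | guess h => rw [ha] at h; cases h
  | read h => rw [ha] at h; cases h
  | push h => rw [ha] at h; cases h
  | @pop _ s' _ _ c' next h h' =>
    rw [ha] at h
    injection h with h1
    subst h1
    exact ⟨c', s', rfl, h'⟩

end inv

/-- the next line -/
def nx {n : ℕ} (i : Fin (n + 1)) : Fin (n + 1) := if h : (i : ℕ) + 1 < n + 1 then ⟨i + 1, h⟩ else i

variable [Field F] [Fintype F] [DecidableEq F]

/-- the action of the machine -/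
def act (prog : List (Ins V F)) (t : F) (q : Fin (prog.length + 1) × F) :
    Act V F (Fin (prog.length + 1) × F) :=
  match prog[(q.1 : ℕ)]? with
    | none => Act.halt (decide (q.2 = t))
    | some (rd v e) => Act.read v fun b => (nx q.1, if b = true then q.2 + e else q.2)
    | some (psh c) => Act.push q.2 (nx q.1, c)
    | some ml => Act.pop fun z => (nx q.1, z * q.2)

/-- the machine of a program -/
def mach (prog : List (Ins V F)) (c t : F) : Mach V where
  Γ := F
  Conf := Fin (prog.length + 1) × F
  start := (0, c)
  act := act prog t

/-- the computations of a program -/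
def Run (R : V → Bool → Prop) (t : F) : List (Ins V F) → F → List F → List V → Bool → Prop
  | [], a, _, L, b => L = [] ∧ b = decide (a = t)
  | rd v e :: l, a, s, L, b => ∃ c L', R v c ∧ L = v :: L' ∧
      Run R t l (if c = true then a + e else a) s L' b
  | psh c :: l, a, s, L, b => Run R t l c (a :: s) L b
  | ml :: l, a, s, L, b => ∃ z s', s = z :: s' ∧ Run R t l (z * a) s' L b

theorem comp_iff (R : V → Bool → Prop) (prog : List (Ins V F)) (c t : F) :
    ∀ (l : List (Ins V F)) (i : Fin (prog.length + 1)), prog.drop i = l →
      ∀ (a : F) (s : List F) (L : List V) (b : Bool),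
      (mach prog c t).Comp R (i, a) s L b ↔ Run R t l a s L b := by
  intro l
  induction l with
  | nil =>
    intro i hi a s L b
    have h0 : prog[(i : ℕ)]? = none := by
      rw [List.getElem?_eq_none_iff]
      exact List.drop_eq_nil_iff.1 hi
    have ha : (mach prog c t).act (i, a) = Act.halt (decide (a = t)) := by
      show act prog t (i, a) = _
      unfold act
      simp only [h0]
      rfl
    constructor
    · exact inv_halt ha
    · rintro ⟨rfl, rfl⟩
      exact Mach.Comp.halt ha
  | cons ins l ih =>
    intro i hi a s L b
    have hlt : (i : ℕ) < prog.length := by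
      by_contra h
      rw [List.drop_eq_nil_of_le (not_lt.1 h)] at hi
      cases hi
    have h0 : prog[(i : ℕ)]? = some ins := by
      have h1 : (prog.drop i)[0]? = prog[(i : ℕ) + 0]? := List.getElem?_drop
      rw [hi] at h1
      rw [Nat.add_zero] at h1
      rw [← h1]
      rfl
    have hn : prog.drop (nx i : Fin (prog.length + 1)) = l := by
      have e : ((nx i : Fin (prog.length + 1)) : ℕ) = i + 1 := by
        unfold nx
        rw [dif_pos (by omega)]
      rw [e, ← List.tail_drop, hi]
      rfl
    have ih' := ih (nx i) hn
    cases ins with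
    | rd v e =>
      have ha : (mach prog c t).act (i, a) =
          Act.read v fun b => (nx i, if b = true then a + e else a) := by
        show act prog t (i, a) = _
        unfold act
        simp only [h0]
        rfl
      constructor
      · intro h
        obtain ⟨c', L', hc, rfl, h'⟩ := inv_read ha h
        exact ⟨c', L', hc, rfl, (ih' _ _ _ _).1 h'⟩
      · rintro ⟨c', L', hc, rfl, h⟩
        exact Mach.Comp.read ha hc ((ih' _ _ _ _).2 h)
    | psh e =>
      have ha : (mach prog c t).act (i, a) = Act.push a (nx i, e) := by
        show act prog t (i, a) = _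
        unfold act
        simp only [h0]
      constructor
      · intro h
        exact (ih' _ _ _ _).1 (inv_push ha h)
      · intro h
        exact Mach.Comp.push ha ((ih' _ _ _ _).2 h)
    | ml =>
      have ha : (mach prog c t).act (i, a) = Act.pop fun z => (nx i, z * a) := by
        show act prog t (i, a) = _
        unfold act
        simp only [h0]
      constructor
      · intro h
        obtain ⟨z, s', rfl, h'⟩ := inv_pop ha h
        exact ⟨z, s', rfl, (ih' _ _ _ _).1 h'⟩
      · rintro ⟨z, s', rfl, h⟩
        exact Mach.Comp.pop ha ((ih' _ _ _ _).2 h)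

theorem run_vars (R : V → Bool → Prop) (t : F) (p : List (Ins V F)) :
    ∀ (a : F) (s : List F) (L : List V) (b : Bool), Run R t p a s L b → L = vars p := by
  induction p with
  | nil =>
    intro a s L b h
    exact h.1
  | cons i p ih =>
    intro a s L b h
    cases i with
    | rd v e =>
      obtain ⟨c, L', -, rfl, h⟩ := h
      rw [ih _ _ _ _ h]
      rfl
    | psh c => exact ih _ _ _ _ h
    | ml =>
      obtain ⟨z, s', -, h⟩ := h
      exact ih _ _ _ _ h

/-- the value of the register at the start -/
def c0 (h : ℕ) : F := if h = 0 then 0 else 1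

/-- read a block -/
def rds (ι : F → V) (l : List F) : List (Ins V F) := l.map fun e => rd (ι e) e

/-- a bit of the only block -/
def v0 {D : ℕ} (e : F) : Var D F 0 := e

/-- a bit of the block at the root -/
def vi {D h : ℕ} (e : F) : Var D F (h + 1) := Sum.inl e

/-- a bit of the subtree number `p` -/
def vs {D h : ℕ} (p : Fin D) (v : Var D F h) : Var D F (h + 1) := Sum.inr (p, v)

/-- the program for the tree function -/
noncomputable def prog (D : ℕ) : (h : ℕ) → (Var D F h → V) → List (Ins V F)
  | 0, ι => rds (fun e => ι (v0 e)) (univ : Finset F).toList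
  | h + 1, ι => ((List.finRange D).flatMap fun p =>
      psh (c0 h) :: (prog D h (fun v => ι (vs p v)) ++ [ml])) ++
        rds (fun e => ι (vi e)) (univ : Finset F).toList

theorem run_rds (x : V → Bool) (t : F) (ι : F → V) (l : List F) (p : List (Ins V F)) :
    ∀ (a : F) (s : List F) (L : List V) (b : Bool),
      Run (fun v c => x v = c) t (rds ι l ++ p) a s L b ↔
        ∃ L', L = vars (rds ι l) ++ L' ∧ Run (fun v c => x v = c) t p
          (a + (l.map fun e => if x (ι e) = true then e else 0).sum) s L' b := by
  induction l with
  | nil =>
    intro a s L b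
    simp [rds, vars]
  | cons e l ih =>
    intro a s L b
    constructor
    · rintro ⟨c, L', hc, rfl, h⟩
      obtain ⟨L'', rfl, hr⟩ := (ih _ _ _ _).1 h
      refine ⟨L'', rfl, ?_⟩
      have e1 : (if c = true then a + e else a) +
          (l.map fun e => if x (ι e) = true then e else 0).sum =
          a + ((e :: l).map fun e => if x (ι e) = true then e else 0).sum := by
        rw [List.map_cons, List.sum_cons, hc]
        split_ifs <;> ring
      rw [e1] at hr
      exact hr
    · rintro ⟨L', rfl, h⟩
      refine ⟨x (ι e), vars (rds ι l) ++ L', rfl, rfl, (ih _ _ _ _).2 ⟨L', rfl, ?_⟩⟩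
      have e1 : (if x (ι e) = true then a + e else a) +
          (l.map fun e => if x (ι e) = true then e else 0).sum =
          a + ((e :: l).map fun e => if x (ι e) = true then e else 0).sum := by
        rw [List.map_cons, List.sum_cons]
        split_ifs <;> ring
      rw [e1]
      exact h

theorem blk_eq (y : F → Bool) :
    ((univ : Finset F).toList.map fun e => if y e = true then e else 0).sum = blk y := by
  rw [Finset.sum_map_toList]
  rfl

theorem run_prog (x : V → Bool) (t : F) (D : ℕ) : ∀ (h : ℕ) (ι : Var D F h → V)
    (p : List (Ins V F)) (s : List F) (L : List V) (b : Bool),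
      Run (fun v c => x v = c) t (prog D h ι ++ p) (c0 h) s L b ↔
        ∃ L', L = vars (prog D h ι) ++ L' ∧ Run (fun v c => x v = c) t p
          (val h (fun v => x (ι v))) s L' b := by
  intro h
  induction h with
  | zero =>
    intro ι p s L b
    have h1 := run_rds (F := F) x t (fun e => ι (v0 e)) (univ : Finset F).toList p 0 s L b
    rw [blk_eq (fun e => x (ι (v0 e))), zero_add] at h1
    exact h1
  | succ h ih =>
    intro ι p s L b
    have key : ∀ (ps : List (Fin D)) (q : List (Ins V F)) (a : F) (L : List V),
        Run (fun v c => x v = c) t ((ps.flatMap fun p =>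
          psh (c0 h) :: (prog D h (fun v => ι (vs p v)) ++ [ml])) ++ q) a s L b ↔
        ∃ L', L = vars (ps.flatMap fun p =>
          psh (c0 h) :: (prog D h (fun v => ι (vs p v)) ++ [ml])) ++ L' ∧
          Run (fun v c => x v = c) t q
            (a * (ps.map fun p => val h (sub (fun v => x (ι v)) p)).prod) s L' b := by
      intro ps
      induction ps with
      | nil =>
        intro q a L
        simp [vars]
      | cons p ps ih2 =>
        intro q a L
        rw [List.flatMap_cons, List.append_assoc, List.cons_append, List.append_assoc]
        show Run (fun v c => x v = c) t _ (c0 h) (a :: s) L b ↔ _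
        rw [ih]
        constructor
        · rintro ⟨L', rfl, z, s', hs, hr⟩
          injection hs with h1 h2
          subst h1; subst h2
          obtain ⟨L'', rfl, hr2⟩ := (ih2 _ _ _).1 hr
          refine ⟨L'', ?_, ?_⟩
          · show _ = vars (psh (c0 h) :: (_ ++ _)) ++ L''
            simp only [vars, vars_append, List.append_assoc, List.nil_append, List.cons_append]
          · rw [List.map_cons, List.prod_cons, ← mul_assoc]
            exact hr2
        · rintro ⟨L', rfl, hr⟩
          rw [List.map_cons, List.prod_cons, ← mul_assoc] at hr
          refine ⟨vars (ps.flatMap fun p =>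
            psh (c0 h) :: (prog D h (fun v => ι (vs p v)) ++ [ml])) ++ L', ?_, a, s, rfl,
              (ih2 _ _ _).2 ⟨L', rfl, hr⟩⟩
          show vars (psh (c0 h) :: (_ ++ _)) ++ L' = _
          simp only [vars, vars_append, List.append_assoc, List.nil_append, List.cons_append]
    have e1 : (c0 (h + 1) : F) = 1 := if_neg (Nat.succ_ne_zero h)
    rw [prog, List.append_assoc, e1, key]
    have e2 : ((List.finRange D).map fun p => val h (sub (fun v => x (ι v)) p)).prod =
        ∏ p, val h (sub (fun v => x (ι v)) p) := by
      rw [← List.ofFn_eq_map, List.prod_ofFn]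
    rw [e2, one_mul]
    constructor
    · rintro ⟨L', rfl, hr⟩
      obtain ⟨L'', rfl, hr2⟩ := (run_rds x t _ _ _ _ _ _ _).1 hr
      refine ⟨L'', ?_, ?_⟩
      · rw [vars_append, List.append_assoc]
      · rw [blk_eq (fun e => x (ι (vi e))), add_comm] at hr2
        exact hr2
    · rintro ⟨L', rfl, hr⟩
      refine ⟨vars (rds (fun e => ι (vi e)) (univ : Finset F).toList) ++ L', ?_,
        (run_rds x t _ _ _ _ _ _ _).2 ⟨L', rfl, ?_⟩⟩
      · rw [vars_append, List.append_assoc]
      · rw [blk_eq (fun e => x (ι (vi e))), add_comm]
        exact hr

/-! ### the bits -/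

/-- the list of the bits of the tree -/
noncomputable def vl (D : ℕ) : (h : ℕ) → List (Var D F h)
  | 0 => (univ : Finset F).toList.map v0
  | h + 1 => ((List.finRange D).flatMap fun p => (vl D h).map (vs p)) ++
      (univ : Finset F).toList.map vi

theorem vars_rds (ι : F → V) (l : List F) : vars (rds ι l) = l.map ι := by
  induction l with
  | nil => rfl
  | cons e l ih =>
    show ι e :: vars (rds ι l) = _
    rw [ih]
    rfl

theorem vars_prog (D : ℕ) : ∀ (h : ℕ) (ι : Var D F h → V), vars (prog D h ι) = (vl D h).map ι := by
  intro h
  induction h with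
  | zero =>
    intro ι
    rw [prog, vars_rds, vl, List.map_map]
    rfl
  | succ h ih =>
    intro ι
    rw [prog, vars_append, vars_rds, vl, List.map_append, List.map_map]
    congr 1
    generalize List.finRange D = ps
    induction ps with
    | nil => rfl
    | cons p ps ih2 =>
      rw [List.flatMap_cons, vars_append, ih2, List.flatMap_cons, List.map_append]
      congr 1
      show vars (_ ++ _) = _
      rw [vars_append, ih, List.map_map]
      show _ ++ [] = _
      rw [List.append_nil]
      rfl

theorem vl_nodup (D : ℕ) : ∀ h : ℕ, (vl (F := F) D h).Nodup := by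
  intro h
  induction h with
  | zero => exact (Finset.nodup_toList _).map fun _ _ h => h
  | succ h ih =>
    rw [vl, List.nodup_append]
    refine ⟨?_, (Finset.nodup_toList _).map fun _ _ h => Sum.inl_injective h, ?_⟩
    · rw [List.nodup_flatMap]
      constructor
      · intro p _
        refine ih.map ?_
        intro v w hvw
        have h1 := Sum.inr_injective hvw
        exact (Prod.ext_iff.1 h1).2
      · refine (List.nodup_finRange D).imp ?_
        intro p q hpq v hv hw
        rw [List.mem_map] at hv hw
        obtain ⟨v1, -, rfl⟩ := hv
        obtain ⟨w1, -, h2⟩ := hw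
        have h1 := Sum.inr_injective h2
        exact hpq (Prod.ext_iff.1 h1).1.symm
    · intro v hv w hw hvw
      rw [List.mem_flatMap] at hv
      obtain ⟨p, -, hv⟩ := hv
      rw [List.mem_map] at hv hw
      obtain ⟨v1, -, rfl⟩ := hv
      obtain ⟨w1, -, rfl⟩ := hw
      cases hvw

theorem mem_vl (D : ℕ) : ∀ (h : ℕ) (v : Var D F h), v ∈ vl D h := by
  intro h
  induction h with
  | zero => exact fun v => List.mem_map.2 ⟨v, Finset.mem_toList.2 (Finset.mem_univ _), rfl⟩
  | succ h ih =>
    intro v
    rw [vl, List.mem_append]
    rcases v with e | ⟨p, v⟩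
    · exact Or.inr (List.mem_map.2 ⟨e, Finset.mem_toList.2 (Finset.mem_univ _), rfl⟩)
    · exact Or.inl (List.mem_flatMap.2 ⟨p, List.mem_finRange p, List.mem_map.2 ⟨v, ih v, rfl⟩⟩)

theorem card_var_succ (D h : ℕ) : Fintype.card (Var D F (h + 1)) =
    Fintype.card F + D * Fintype.card (Var D F h) := by
  show Fintype.card (F ⊕ (Fin D × Var D F h)) = _
  rw [Fintype.card_sum, Fintype.card_prod, Fintype.card_fin]

theorem card_le_var (D h : ℕ) : Fintype.card F ≤ Fintype.card (Var D F h) := by
  cases h with
  | zero => exact le_rfl
  | succ h =>
    rw [card_var_succ]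
    exact Nat.le_add_right _ _

theorem prog_length (D : ℕ) : ∀ (h : ℕ) (ι : Var D F h → V),
    (prog D h ι).length + 2 ≤ 2 * Fintype.card (Var D F h) := by
  have h2 : 2 ≤ Fintype.card F := Fintype.one_lt_card
  intro h
  induction h with
  | zero =>
    intro ι
    have e : (prog D 0 ι).length = Fintype.card F := by
      rw [prog, rds, List.length_map, Finset.length_toList]
      rfl
    have e' : Fintype.card (Var D F 0) = Fintype.card F := rfl
    omega
  | succ h ih =>
    intro ι
    rw [prog, List.length_append, rds, List.length_map, Finset.length_toList, Finset.card_univ,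
      card_var_succ]
    have key : ∀ ps : List (Fin D), (ps.flatMap fun p =>
        psh (c0 h) :: (prog D h (fun v => ι (vs p v)) ++ [ml])).length ≤
        ps.length * (2 * Fintype.card (Var D F h)) := by
      intro ps
      induction ps with
      | nil => simp
      | cons p ps ih2 =>
        rw [List.flatMap_cons, List.length_append, List.length_cons, List.length_append,
          List.length_cons, List.length_cons, Nat.add_mul, one_mul]
        have h1 := ih (fun v => ι (vs p v))
        simp only [List.length_nil]
        omega
    have h3 := key (List.finRange D)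
    rw [List.length_finRange] at h3
    have h4 : D * (2 * Fintype.card (Var D F h)) = 2 * (D * Fintype.card (Var D F h)) := by ring
    rw [h4] at h3
    omega

end Ins

open Ins in
/-- **The tree function on a deterministic machine with a store.** -/
theorem upper {F : Type} [Field F] [Fintype F] [DecidableEq F] (D h : ℕ) (_hD : 1 ≤ D) (t : F) :
    ∃ P : Mach (Var D F h), P.Det ∧ Fintype.card P.Γ ≤ Fintype.card F ∧
      Fintype.card P.Conf ≤ 2 ^ 6 * Fintype.card (Var D F h) ^ 2 ∧
      (∀ x b, P.Answers x b ↔ b = decide (val h x = t)) ∧
      (∀ L b, P.Path L b → ∀ v, L.count v = 1) := by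
  obtain ⟨p, hp⟩ : ∃ p : List (Ins (Var D F h) F), p = prog D h (fun v => v) := ⟨_, rfl⟩
  have hcomp : ∀ (R : Var D F h → Bool → Prop) (L : List (Var D F h)) (b : Bool),
      (mach p (c0 h) t).Comp R (mach p (c0 h) t).start [] L b ↔ Run R t p (c0 h) [] L b :=
    fun R L b => comp_iff R p (c0 h) t p 0 (List.drop_zero) _ _ _ _
  refine ⟨mach p (c0 h) t, ?_, le_rfl, ?_, ?_, ?_⟩
  · intro q next hq
    change Ins.act p t q = _ at hq
    unfold Ins.act at hq
    split at hq <;> cases hq
  · have e : Fintype.card (mach p (c0 h) t).Conf = (p.length + 1) * Fintype.card F := by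
      show Fintype.card (Fin (p.length + 1) × F) = _
      rw [Fintype.card_prod, Fintype.card_fin]
    rw [e]
    have h1 := prog_length (F := F) D h (fun v => v)
    rw [← hp] at h1
    have h2 := card_le_var (F := F) D h
    have h3 : (p.length + 1) * Fintype.card F ≤
        (2 * Fintype.card (Var D F h)) * Fintype.card (Var D F h) :=
      Nat.mul_le_mul (by omega) h2
    nlinarith
  · intro x b
    unfold Mach.Answers
    simp only [hcomp]
    have h1 : ∀ L, Run (fun v c => x v = c) t p (c0 h) [] L b ↔
        ∃ L', L = vars p ++ L' ∧ L' = [] ∧ b = decide (val h x = t) := by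
      intro L
      have := run_prog x t D h (fun v => v) [] [] L b
      rw [List.append_nil, ← hp] at this
      exact this
    simp only [h1]
    constructor
    · rintro ⟨L, L', -, -, hb⟩
      exact hb
    · intro hb
      exact ⟨vars p ++ [], [], rfl, rfl, hb⟩
  · intro L b hL v
    have h1 := run_vars _ t p _ _ _ _ ((hcomp _ _ _).1 hL)
    rw [h1, hp, vars_prog, List.map_id']
    exact List.count_eq_one_of_mem (vl_nodup D h) (mem_vl D h v)

end Pool.Agent.V8H39.SR
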