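import Mathlib
import Pool.Agent.V8H39.SR.Upper

/-!
# One-way machines with a store
-/

set_option autoImplicit false

open Finset

namespace Pool.Agent.V8H39.SR

namespace Ins

theorem run_dum {V F : Type} [Field F] [Fintype F] [DecidableEq F] (x : V → Bool) (t : F)
    (l : List V) : ∀ (a : F) (s : List F) (L : List V) (b : Bool),
      Run (fun v c => x v = c) t (l.map fun v => (rd v 0 : Ins V F)) a s L b ↔
        L = l ∧ b = decide (a = t) := by
  induction l with
  | nil =>
    intro a s L b
    exact Iff.rfl
  | cons v l ih =>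
    intro a s L b
    constructor
    · rintro ⟨c, L', hc, rfl, h⟩
      rw [add_zero, ite_self] at h
      obtain ⟨rfl, rfl⟩ := (ih _ _ _ _).1 h
      exact ⟨rfl, rfl⟩
    · rintro ⟨rfl, rfl⟩
      refine ⟨x v, l, rfl, rfl, ?_⟩
      rw [add_zero, ite_self]
      exact (ih _ _ _ _).2 ⟨rfl, rfl⟩

theorem vars_dum {V F : Type} (l : List V) (c : F) :
    vars (l.map fun v => (rd v c : Ins V F)) = l := by
  induction l with
  | nil => rfl
  | cons v l ih =>
    show v :: vars _ = _
    rw [ih]

end Ins

open Ins in
/-- The machine of `upper` reads the bits in a fixed order; so, if the bits are numbered in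
this order, it is a one-way automaton. The bits with the numbers `≥ card Var` are dummies, which are
read at the end. -/
theorem upper_fin {F : Type} [Field F] [Fintype F] [DecidableEq F] (D h n : ℕ) (_hD : 1 ≤ D)
    (hn : Fintype.card (Var D F h) ≤ n) :
    ∃ e : Var D F h ↪ Fin n, ∀ t : F, ∃ P : Mach (Fin n), P.Det ∧ Fintype.card P.Γ ≤ n ∧
      Fintype.card P.Conf ≤ 2 ^ 7 * n ^ 2 ∧
      (∀ x b, P.Answers x b ↔ b = decide (val h (fun v => x (e v)) = t)) ∧
      (∀ L b, P.Path L b → L = List.finRange n) := by
  have hnd := vl_nodup (F := F) D h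
  have hlen : (vl (F := F) D h).length = Fintype.card (Var D F h) := by
    rw [← List.toFinset_card_of_nodup hnd, ← Finset.card_univ]
    congr 1
    ext v
    simp only [List.mem_toFinset, mem_vl, Finset.mem_univ]
  let e : Var D F h ↪ Fin n := {
    toFun := fun v => ⟨(vl D h).idxOf v, by
      have h1 := List.idxOf_lt_length_of_mem (mem_vl D h v)
      omega⟩
    inj' := by
      intro v w hvw
      have h1 : (vl D h).idxOf v = (vl D h).idxOf w := congrArg Fin.val hvw
      exact (List.idxOf_inj (mem_vl D h v)).1 h1 }
  have he : ∀ v, ((e v : Fin n) : ℕ) = (vl D h).idxOf v := fun v => rfl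
  have hmap : (vl D h).map (fun v => e v) = (List.finRange n).take (vl (F := F) D h).length := by
    apply List.ext_getElem
    · rw [List.length_map, List.length_take, List.length_finRange]
      omega
    · intro i h1 h2
      rw [List.getElem_map, List.getElem_take, List.getElem_finRange]
      apply Fin.ext
      rw [he, List.Nodup.idxOf_getElem hnd]
      rfl
  obtain ⟨m, hm⟩ : ∃ m, m = (vl (F := F) D h).length := ⟨_, rfl⟩
  obtain ⟨p, hp⟩ : ∃ p : List (Ins (Fin n) F), p = prog D h (fun v => e v) ++
    ((List.finRange n).drop m).map fun v => (rd v 0 : Ins (Fin n) F) := ⟨_, rfl⟩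
  have hvars : vars p = List.finRange n := by
    rw [hp, vars_append, vars_prog, vars_dum, hmap, ← hm, List.take_append_drop]
  refine ⟨e, fun t => ?_⟩
  have hcomp : ∀ (R : Fin n → Bool → Prop) (L : List (Fin n)) (b : Bool),
      (mach p (c0 h) t).Comp R (mach p (c0 h) t).start [] L b ↔ Run R t p (c0 h) [] L b :=
    fun R L b => comp_iff R p (c0 h) t p 0 (List.drop_zero) _ _ _ _
  have hF := card_le_var (F := F) D h
  refine ⟨mach p (c0 h) t, ?_, hF.trans hn, ?_, ?_, ?_⟩
  · intro q next hq
    change Ins.act p t q = _ at hq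
    unfold Ins.act at hq
    split at hq <;> cases hq
  · have e1 : Fintype.card (mach p (c0 h) t).Conf = (p.length + 1) * Fintype.card F := by
      show Fintype.card (Fin (p.length + 1) × F) = _
      rw [Fintype.card_prod, Fintype.card_fin]
    have h1 := prog_length (F := F) D h (fun v => e v)
    have h2 : p.length + 1 ≤ 2 * n := by
      rw [hp, List.length_append, List.length_map, List.length_drop, List.length_finRange]
      omega
    rw [e1]
    have h3 : (p.length + 1) * Fintype.card F ≤ (2 * n) * n := Nat.mul_le_mul h2 (hF.trans hn)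
    nlinarith
  · intro x b
    unfold Mach.Answers
    simp only [hcomp]
    have h1 : ∀ L, Run (fun v c => x v = c) t p (c0 h) [] L b ↔
        ∃ L', L = vars (prog D h (fun v => e v)) ++ L' ∧ L' = (List.finRange n).drop m ∧
          b = decide (val h (fun v => x (e v)) = t) := by
      intro L
      have := run_prog x t D h (fun v => e v)
        (((List.finRange n).drop m).map fun v => (rd v 0 : Ins (Fin n) F)) [] L b
      rw [← hp] at this
      simp only [run_dum] at this
      exact this
    simp only [h1]
    constructor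
    · rintro ⟨L, L', -, -, hb⟩
      exact hb
    · intro hb
      exact ⟨_, _, rfl, rfl, hb⟩
  · intro L b hL
    rw [run_vars _ t p _ _ _ _ ((hcomp _ _ _).1 hL), hvars]

/-- the machine which reads all the bits and answers yes -/
def trivMach (n : ℕ) : Mach (Fin n) where
  Γ := Empty
  Conf := Fin (n + 1)
  start := 0
  act q := if h : (q : ℕ) < n then Act.read ⟨q, h⟩ fun _ => ⟨q + 1, by omega⟩ else Act.halt true

open Ins in
theorem triv_comp (n : ℕ) (R : Fin n → Bool → Prop) : ∀ (k : ℕ) (i : Fin (n + 1)),
    (i : ℕ) + k = n → ∀ (s : List Empty) (L : List (Fin n)) (b : Bool),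
    (trivMach n).Comp R i s L b → L = (List.finRange n).drop i ∧ b = true := by
  intro k
  induction k with
  | zero =>
    intro i hi s L b h
    have ha : (trivMach n).act i = Act.halt true := by
      show dite _ _ _ = _
      exact dif_neg (by omega)
    obtain ⟨rfl, rfl⟩ := inv_halt ha h
    refine ⟨?_, rfl⟩
    rw [List.drop_eq_nil_of_le]
    rw [List.length_finRange]
    omega
  | succ k ih =>
    intro i hi s L b h
    have hin : (i : ℕ) < n := by omega
    have ha : (trivMach n).act i = Act.read ⟨i, hin⟩ fun _ => ⟨i + 1, by omega⟩ := by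
      show dite _ _ _ = _
      exact dif_pos hin
    obtain ⟨c, L', -, rfl, h'⟩ := inv_read ha h
    obtain ⟨rfl, rfl⟩ := ih ⟨i + 1, by omega⟩ (by simp only; omega) _ _ _ h'
    refine ⟨?_, rfl⟩
    have e : (List.finRange n).drop (i : ℕ) = (List.finRange n)[(i : ℕ)]'(by
        rw [List.length_finRange]; exact hin) :: (List.finRange n).drop ((i : ℕ) + 1) :=
      List.drop_eq_getElem_cons _
    rw [e, List.getElem_finRange]
    rfl

theorem triv_run (n : ℕ) (x : Fin n → Bool) : ∀ (k : ℕ) (i : Fin (n + 1)),
    (i : ℕ) + k = n →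
    (trivMach n).Comp (fun v c => x v = c) i [] ((List.finRange n).drop i) true := by
  intro k
  induction k with
  | zero =>
    intro i hi
    have ha : (trivMach n).act i = Act.halt true := by
      show dite _ _ _ = _
      exact dif_neg (by omega)
    rw [List.drop_eq_nil_of_le (by rw [List.length_finRange]; omega)]
    exact Mach.Comp.halt ha
  | succ k ih =>
    intro i hi
    have hin : (i : ℕ) < n := by omega
    have ha : (trivMach n).act i = Act.read ⟨i, hin⟩ fun _ => ⟨i + 1, by omega⟩ := by
      show dite _ _ _ = _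
      exact dif_pos hin
    rw [List.drop_eq_getElem_cons (by rw [List.length_finRange]; exact hin), List.getElem_finRange]
    exact Mach.Comp.read ha rfl (ih ⟨i + 1, by omega⟩ (by simp only; omega))

/-- A trivial one-way machine. -/
theorem upper_triv (n : ℕ) :
    ∃ P : Mach (Fin n), P.Det ∧ Fintype.card P.Γ ≤ n ∧ Fintype.card P.Conf ≤ 2 ^ 7 * n ^ 2 + 1 ∧
      (∀ x b, P.Answers x b ↔ b = true) ∧ (∀ L b, P.Path L b → L = List.finRange n) := by
  refine ⟨trivMach n, ?_, ?_, ?_, ?_, ?_⟩
  · intro q next hq
    change dite _ _ _ = _ at hq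
    split at hq <;> cases hq
  · show Fintype.card Empty ≤ n
    simp
  · show Fintype.card (Fin (n + 1)) ≤ _
    rw [Fintype.card_fin]
    nlinarith [Nat.zero_le n]
  · intro x b
    constructor
    · rintro ⟨L, h⟩
      exact (triv_comp n _ n 0 (by simp) [] L b h).2
    · rintro rfl
      exact ⟨_, triv_run n x n 0 (by simp)⟩
  · intro L b h
    have := (triv_comp n _ n 0 (by simp) [] L b h).1
    rw [this]
    exact List.drop_zero

end Pool.Agent.V8H39.SR
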