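import Mathlib
import Pool.Agent.V8H39.SR.DDefs
import Pool.Agent.V8H39.SR.Upper2

/-!
# The tree function as a part of a deterministic context-free language
-/

set_option autoImplicit false

open Finset

namespace Pool.Agent.V8H39.SR

open Pool.Agent.V8H47.MH

theorem Ev_det : Ev.Det := by
  intro q a g t ht t' ht'
  change t ∈ (match a 0 with
    | Sym.left => _
    | Sym.letter c => _
    | Sym.right => _) at ht
  change t' ∈ (match a 0 with
    | Sym.left => _
    | Sym.letter c => _
    | Sym.right => _) at ht'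
  cases h : a 0 with
  | left =>
    rw [h] at ht ht'
    exact ht.trans ht'.symm
  | letter c =>
    rw [h] at ht ht'
    exact ht.trans ht'.symm
  | right =>
    rw [h] at ht ht'
    exact ht.2.2.trans ht'.2.2.symm

theorem Ev_oneWay : OneWay Ev := by
  intro q a g t ht i
  change t ∈ (match a 0 with
    | Sym.left => _
    | Sym.letter c => _
    | Sym.right => _) at ht
  cases h : a 0 with
  | left =>
    rw [h] at ht
    rw [ht]
    intro h'
    cases h'
  | letter c =>
    rw [h] at ht
    rw [ht]
    intro h'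
    cases h'
  | right =>
    rw [h] at ht
    rw [ht.2.2]
    intro h'
    cases h'

/-- the effect of a letter -/
def stp (s : Md × List Bool) (c : Sy) : Md × List Bool :=
  ((tr s.1 c s.2.head?).1, (tr s.1 c s.2.head?).2.apply s.2)

/-- the effect of a word -/
def rn (w : List Sy) (s : Md × List Bool) : Md × List Bool := w.foldl stp s

theorem rn_append (w w' : List Sy) (s : Md × List Bool) : rn (w ++ w') s = rn w' (rn w s) :=
  List.foldl_append

theorem rn_cons (c : Sy) (w : List Sy) (s : Md × List Bool) : rn (c :: w) s = rn w (stp s c) := rfl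

theorem tr_ne_yes (q : Md) (c : Sy) (g : Option Bool) (hq : q ≠ Md.yes) : (tr q c g).1 ≠ Md.yes := by
  revert q c g
  decide

theorem rn_ne_yes (w : List Sy) : ∀ s : Md × List Bool, s.1 ≠ Md.yes → (rn w s).1 ≠ Md.yes := by
  induction w with
  | nil => exact fun s hs => hs
  | cons c w ih => exact fun s hs => ih _ (tr_ne_yes _ _ _ hs)

/-- the configuration after `i` letters -/
def cfg (w : List Sy) (i : ℕ) : PCfg Md (Fin 1) Bool :=
  ⟨(rn (w.take i) (Md.ready, [])).1, fun _ => i + 1, (rn (w.take i) (Md.ready, [])).2⟩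

theorem step_start (w : List Sy) (c : PCfg Md (Fin 1) Bool) :
    Ev.Step w Ev.start c ↔ c = cfg w 0 := by
  constructor
  · rintro ⟨t, ht, rfl⟩
    change t = _ at ht
    rw [ht]
    show (⟨Md.ready, fun _ => min (0 + 1) (w.length + 1), []⟩ : PCfg Md (Fin 1) Bool) =
      ⟨Md.ready, fun _ => 0 + 1, []⟩
    rw [Nat.min_eq_left (by omega)]
  · rintro rfl
    refine ⟨(Md.ready, fun _ => Dir.R, Op.keep), rfl, ?_⟩
    show (⟨Md.ready, fun _ => 0 + 1, []⟩ : PCfg Md (Fin 1) Bool) =
      ⟨Md.ready, fun _ => min (0 + 1) (w.length + 1), []⟩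
    rw [Nat.min_eq_left (by omega)]

theorem step_cfg (w : List Sy) (i : ℕ) (hi : i < w.length) (c : PCfg Md (Fin 1) Bool) :
    Ev.Step w (cfg w i) c ↔ c = cfg w (i + 1) := by
  have hsym : symAt w (i + 1) = Sym.letter w[i] := by
    simp only [symAt, List.getElem?_eq_getElem hi]
  have hstep : Ev.step (cfg w i).q (fun h => symAt w ((cfg w i).pos h)) (cfg w i).st.head? =
      {((tr (cfg w i).q w[i] (cfg w i).st.head?).1, fun _ => Dir.R,
        (tr (cfg w i).q w[i] (cfg w i).st.head?).2)} := by
    show (match symAt w (i + 1) with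
      | Sym.left => _
      | Sym.letter c => _
      | Sym.right => _) = _
    rw [hsym]
    rfl
  have hc : (⟨(tr (cfg w i).q w[i] (cfg w i).st.head?).1, fun _ => min (i + 1 + 1) (w.length + 1),
      (tr (cfg w i).q w[i] (cfg w i).st.head?).2.apply (cfg w i).st⟩ : PCfg Md (Fin 1) Bool) =
      cfg w (i + 1) := by
    have h1 : w.take (i + 1) = w.take i ++ [w[i]] := by
      rw [List.take_add_one, List.getElem?_eq_getElem hi]
      rfl
    rw [Nat.min_eq_left (by omega)]
    unfold cfg
    rw [h1, rn_append]
    rfl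
  constructor
  · rintro ⟨t, ht, rfl⟩
    rw [hstep] at ht
    rw [ht]
    exact hc
  · rintro rfl
    exact ⟨_, by rw [hstep]; exact rfl, hc.symm⟩

theorem step_end (w : List Sy) (q : Md) (s : List Bool) (c : PCfg Md (Fin 1) Bool) :
    Ev.Step w ⟨q, fun _ => w.length + 1, s⟩ c ↔ q = Md.ready ∧ s.head? = some true ∧
      c = ⟨Md.yes, fun _ => w.length + 1, s⟩ := by
  have hsym : symAt w (w.length + 1) = Sym.right := by
    simp only [symAt, List.getElem?_eq_none (le_refl w.length)]
  have hstep : Ev.step q (fun h => symAt w ((fun _ => w.length + 1 : Fin 1 → ℕ) h)) s.head? =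
      {t | q = Md.ready ∧ s.head? = some true ∧ t = (Md.yes, fun _ => Dir.S, Op.keep)} := by
    show (match symAt w (w.length + 1) with
      | Sym.left => _
      | Sym.letter c => _
      | Sym.right => _) = _
    rw [hsym]
  constructor
  · rintro ⟨t, ht, rfl⟩
    rw [hstep] at ht
    obtain ⟨h1, h2, rfl⟩ := ht
    exact ⟨h1, h2, rfl⟩
  · rintro ⟨h1, h2, rfl⟩
    exact ⟨(Md.yes, fun _ => Dir.S, Op.keep), by rw [hstep]; exact ⟨h1, h2, rfl⟩, rfl⟩

theorem Ev_inv (w : List Sy) : ∀ (t : ℕ) (c : PCfg Md (Fin 1) Bool), Ev.ReachIn w t c →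
    c = Ev.start ∨ (∃ i ≤ w.length, c = cfg w i) ∨
      ((rn w (Md.ready, [])).1 = Md.ready ∧ (rn w (Md.ready, [])).2.head? = some true ∧
        c = ⟨Md.yes, fun _ => w.length + 1, (rn w (Md.ready, [])).2⟩) := by
  intro t
  induction t with
  | zero => exact fun c hc => Or.inl hc
  | succ t ih =>
    rintro c ⟨c', hc', hs⟩
    rcases ih c' hc' with rfl | ⟨i, hi, rfl⟩ | ⟨h1, h2, rfl⟩
    · exact Or.inr (Or.inl ⟨0, Nat.zero_le _, (step_start w c).1 hs⟩)
    · rcases Nat.lt_or_ge i w.length with hi' | hi'
      · exact Or.inr (Or.inl ⟨i + 1, hi', (step_cfg w i hi' c).1 hs⟩)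
      · have hi'' : i = w.length := by omega
        subst hi''
        have e1 : cfg w w.length = ⟨(rn w (Md.ready, [])).1, fun _ => w.length + 1,
            (rn w (Md.ready, [])).2⟩ := by
          unfold cfg
          rw [List.take_length]
        rw [e1] at hs
        obtain ⟨h3, h4, h5⟩ := (step_end w _ _ c).1 hs
        exact Or.inr (Or.inr ⟨h3, h4, h5⟩)
    · have h3 := ((step_end w _ _ c).1 hs).1
      cases h3

theorem Ev_cfg (w : List Sy) : ∀ i ≤ w.length, Ev.Reach w (cfg w i) := by
  intro i
  induction i with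
  | zero => exact fun _ => ⟨1, Ev.start, rfl, (step_start w _).2 rfl⟩
  | succ i ih =>
    intro hi
    obtain ⟨t, ht⟩ := ih (by omega)
    exact ⟨t + 1, _, ht, (step_cfg w i hi _).2 rfl⟩

theorem mem_Ev (w : List Sy) : w ∈ Ev.lang ↔
    (rn w (Md.ready, [])).1 = Md.ready ∧ (rn w (Md.ready, [])).2.head? = some true := by
  constructor
  · rintro ⟨c, ⟨t, ht⟩, hc⟩
    change c.q = Md.yes at hc
    rcases Ev_inv w t c ht with rfl | ⟨i, hi, rfl⟩ | ⟨h1, h2, -⟩
    · cases hc
    · exact absurd hc (rn_ne_yes _ _ (by intro h; cases h))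
    · exact ⟨h1, h2⟩
  · rintro ⟨h1, h2⟩
    obtain ⟨t, ht⟩ := Ev_cfg w w.length le_rfl
    refine ⟨⟨Md.yes, fun _ => w.length + 1, (rn w (Md.ready, [])).2⟩, ⟨t + 1, _, ht, ?_⟩, rfl⟩
    have e1 : cfg w w.length = ⟨(rn w (Md.ready, [])).1, fun _ => w.length + 1,
        (rn w (Md.ready, [])).2⟩ := by
      unfold cfg
      rw [List.take_length]
    rw [e1]
    exact (step_end w _ _ _).2 ⟨h1, h2, rfl⟩

/-! ### Tables -/

/-- the stack of the numbers -/
def enc : List ℕ → List Bool
  | [] => []
  | a :: l => List.replicate a true ++ false :: enc l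

/-- the values of a function of one number -/
def segs : ℕ → (ℕ → ℕ) → List Sy
  | 0, _ => []
  | B + 1, f => Sy.seg :: (List.replicate (f 0) Sy.one ++ segs B (fun j => f (j + 1)))

/-- the values of a function of two numbers -/
def blks (B : ℕ) : ℕ → (ℕ → ℕ → ℕ) → List Sy
  | 0, _ => []
  | A + 1, g => Sy.blk :: (segs B (g 0) ++ blks B A (fun i => g (i + 1)))

/-- a table -/
def tab (A B : ℕ) (g : ℕ → ℕ → ℕ) : List Sy := blks B A g ++ [Sy.fin]

theorem rn_ones_skip (k : ℕ) (m : Md) (hm : m = Md.skip ∨ m = Md.first ∨ m = Md.second)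
    (s : List Bool) : rn (List.replicate k Sy.one) (m, s) = (m, s) := by
  induction k with
  | zero => rfl
  | succ k ih =>
    rw [List.replicate_succ, rn_cons]
    have : stp (m, s) Sy.one = (m, s) := by
      rcases hm with rfl | rfl | rfl <;> rfl
    rw [this]
    exact ih

theorem rn_ones_write (k : ℕ) (m : Md) (hm : m = Md.write ∨ m = Md.ready) (s : List Bool) :
    rn (List.replicate k Sy.one) (m, s) = (m, List.replicate k true ++ s) := by
  induction k generalizing s with
  | zero => rfl
  | succ k ih =>
    rw [List.replicate_succ, rn_cons]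
    have : stp (m, s) Sy.one = (m, true :: s) := by
      rcases hm with rfl | rfl <;> rfl
    rw [this, ih, List.replicate_succ']
    simp

theorem rn_segs_skip (B : ℕ) (m : Md) (hm : m = Md.skip ∨ m = Md.first) (s : List Bool) :
    ∀ f : ℕ → ℕ, rn (segs B f) (m, s) = (m, s) := by
  induction B with
  | zero => exact fun _ => rfl
  | succ B ih =>
    intro f
    rw [segs, rn_cons, rn_append]
    have : stp (m, s) Sy.seg = (m, s) := by
      rcases hm with rfl | rfl <;> rfl
    rw [this, rn_ones_skip _ _ (by tauto), ih]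

theorem rn_blks_skip (A B : ℕ) (s : List Bool) :
    ∀ g : ℕ → ℕ → ℕ, rn (blks B A g) (Md.skip, s) = (Md.skip, s) := by
  induction A with
  | zero => exact fun _ => rfl
  | succ A ih =>
    intro g
    rw [blks, rn_cons, rn_append]
    have : stp (Md.skip, s) Sy.blk = (Md.skip, s) := rfl
    rw [this, rn_segs_skip _ _ (Or.inl rfl), ih]

theorem rn_segs_write (B : ℕ) (f : ℕ → ℕ) (s : List Bool) :
    ∃ m, (m = Md.skip ∨ m = Md.write) ∧ rn (segs B f) (Md.write, s) = (m, s) := by
  cases B with
  | zero => exact ⟨Md.write, Or.inr rfl, rfl⟩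
  | succ B =>
    refine ⟨Md.skip, Or.inl rfl, ?_⟩
    rw [segs, rn_cons, rn_append]
    have : stp (Md.write, s) Sy.seg = (Md.skip, s) := rfl
    rw [this, rn_ones_skip _ _ (Or.inl rfl), rn_segs_skip _ _ (Or.inl rfl)]

theorem rn_segs (B : ℕ) (r : List Bool) : ∀ (f : ℕ → ℕ) (s : ℕ), s < B →
    ∃ m, (m = Md.skip ∨ m = Md.write) ∧
      rn (segs B f) (Md.second, List.replicate s true ++ false :: r) =
        (m, List.replicate (f s) true ++ false :: r) := by
  induction B with
  | zero => exact fun _ _ h => absurd h (Nat.not_lt_zero _)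
  | succ B ih =>
    intro f s hs
    rw [segs, rn_cons, rn_append]
    cases s with
    | zero =>
      have : stp (Md.second, List.replicate 0 true ++ false :: r) Sy.seg =
        (Md.write, false :: r) := rfl
      rw [this, rn_ones_write _ _ (Or.inl rfl)]
      exact rn_segs_write _ _ _
    | succ s =>
      have : stp (Md.second, List.replicate (s + 1) true ++ false :: r) Sy.seg =
        (Md.second, List.replicate s true ++ false :: r) := rfl
      rw [this, rn_ones_skip _ _ (Or.inr (Or.inr rfl))]
      exact ih _ _ (by omega)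

theorem rn_end (A B : ℕ) (g : ℕ → ℕ → ℕ) (m : Md) (hm : m = Md.skip ∨ m = Md.write)
    (s : List Bool) : rn (blks B A g ++ [Sy.fin]) (m, s) = (Md.ready, s) := by
  rw [rn_append]
  rcases hm with rfl | rfl
  · rw [rn_blks_skip]
    rfl
  · cases A with
    | zero => rfl
    | succ A =>
      have e : rn (blks B (A + 1) g) (Md.write, s) = (Md.skip, s) := by
        rw [blks, rn_cons, rn_append]
        have : stp (Md.write, s) Sy.blk = (Md.skip, s) := rfl
        rw [this, rn_segs_skip _ _ (Or.inl rfl), rn_blks_skip]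
      rw [e]
      rfl

theorem rn_blks (A B : ℕ) (r : List Bool) (s : ℕ) (hs : s < B) : ∀ (g : ℕ → ℕ → ℕ) (a : ℕ),
    a < A → ∀ m, (m = Md.ready ∨ m = Md.first) →
    rn (blks B A g ++ [Sy.fin]) (m, List.replicate a true ++ false ::
      (List.replicate s true ++ false :: r)) =
        (Md.ready, List.replicate (g a s) true ++ false :: r) := by
  induction A with
  | zero => exact fun _ _ h => absurd h (Nat.not_lt_zero _)
  | succ A ih =>
    intro g a ha m hm
    rw [blks, List.cons_append, rn_cons, List.append_assoc, rn_append]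
    cases a with
    | zero =>
      have : stp (m, List.replicate 0 true ++ false :: (List.replicate s true ++ false :: r))
        Sy.blk = (Md.second, List.replicate s true ++ false :: r) := by
        rcases hm with rfl | rfl <;> rfl
      rw [this]
      obtain ⟨m', hm', h⟩ := rn_segs B r (g 0) s hs
      rw [h]
      exact rn_end _ _ _ _ hm' _
    | succ a =>
      have : stp (m, List.replicate (a + 1) true ++ false ::
          (List.replicate s true ++ false :: r)) Sy.blk = (Md.first, List.replicate a true ++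
          false :: (List.replicate s true ++ false :: r)) := by
        rcases hm with rfl | rfl <;> rfl
      rw [this, rn_segs_skip _ _ (Or.inr rfl)]
      exact ih _ a (by omega) _ (Or.inr rfl)

/-- **The effect of a table.** -/
theorem rn_tab (A B : ℕ) (g : ℕ → ℕ → ℕ) (a s : ℕ) (ha : a < A) (hs : s < B) (l : List ℕ) :
    rn (tab A B g) (Md.ready, enc (a :: s :: l)) = (Md.ready, enc (g a s :: l)) :=
  rn_blks A B (enc l) s hs g a ha _ (Or.inl rfl)

theorem rn_new (a : ℕ) (l : List ℕ) :
    rn (Sy.new :: List.replicate a Sy.one) (Md.ready, enc l) = (Md.ready, enc (a :: l)) := by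
  rw [rn_cons]
  have : stp (Md.ready, enc l) Sy.new = (Md.ready, false :: enc l) := rfl
  rw [this, rn_ones_write _ _ (Or.inr rfl)]
  rfl

theorem rn_bit (b : Bool) (l : List ℕ) :
    rn [Sy.new, Sy.bit b] (Md.ready, enc l) = (Md.ready, enc ((if b = true then 1 else 0) :: l)) := by
  cases b <;> rfl

/-! ### Words for programs -/

section

variable {F : Type} [Fintype F]

/-- the number of an element of the field -/
noncomputable def nu (a : F) : ℕ := Fintype.equivFin F a

/-- the element with a number -/
noncomputable def mu [Zero F] (i : ℕ) : F :=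
  if h : i < Fintype.card F then (Fintype.equivFin F).symm ⟨i, h⟩ else 0

theorem nu_lt (a : F) : nu a < Fintype.card F := (Fintype.equivFin F a).2

theorem mu_nu [Zero F] (a : F) : mu (nu a) = a := by
  unfold mu
  rw [dif_pos (nu_lt a)]
  exact (Fintype.equivFin F).symm_apply_apply a

theorem nu_inj {a b : F} (h : nu a = nu b) : a = b :=
  (Fintype.equivFin F).injective (Fin.ext h)

end

section

variable {F : Type} [Field F] [Fintype F] {n : ℕ}

open Ins

/-- the word of an instruction -/
noncomputable def wd : Ins (Fin n) F → List (Sy ⊕ Fin n)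
  | rd v e => Sum.inl Sy.new :: Sum.inr v ::
      (tab 2 (Fintype.card F) fun b a => nu (if b = 1 then mu a + e else (mu a : F))).map Sum.inl
  | psh c => (Sy.new :: List.replicate (nu c) Sy.one).map Sum.inl
  | ml => (tab (Fintype.card F) (Fintype.card F) fun a s => nu (mu s * mu a : F)).map Sum.inl

theorem fillBits_append (p p' : List (Sy ⊕ Fin n)) (x : Fin n → Bool) :
    fillBits (p ++ p') x = fillBits p x ++ fillBits p' x := List.map_append

theorem fillBits_inl (w : List Sy) (x : Fin n → Bool) : fillBits (w.map Sum.inl) x = w := by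
  unfold fillBits
  rw [List.map_map]
  exact List.map_id w

theorem getRight_inl (w : List Sy) :
    (w.map (Sum.inl : Sy → Sy ⊕ Fin n)).filterMap Sum.getRight? = [] := by
  induction w with
  | nil => rfl
  | cons a w ih => exact ih

theorem getRight_wd (i : Ins (Fin n) F) : (wd i).filterMap Sum.getRight? = vars [i] := by
  cases i with
  | rd v e =>
    show v :: ((_ : List Sy).map (Sum.inl : Sy → Sy ⊕ Fin n)).filterMap Sum.getRight? = _
    rw [getRight_inl]
    rfl
  | psh c => exact getRight_inl _
  | ml => exact getRight_inl _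

theorem getRight_wds (p : List (Ins (Fin n) F)) :
    (p.flatMap wd).filterMap Sum.getRight? = vars p := by
  induction p with
  | nil => rfl
  | cons i p ih =>
    rw [List.flatMap_cons, List.filterMap_append, ih, getRight_wd]
    exact (vars_append [i] p).symm

variable [DecidableEq F]

/-- the automaton executes a program -/
theorem rn_wds (x : Fin n → Bool) (t : F) (p : List (Ins (Fin n) F)) :
    ∀ (a : F) (s : List F) (L : List (Fin n)) (b : Bool),
      Run (fun v c => x v = c) t p a s L b → ∃ (a' : F) (l : List ℕ), b = decide (a' = t) ∧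
        rn (fillBits (p.flatMap wd) x) (Md.ready, enc (nu a :: s.map nu)) =
          (Md.ready, enc (nu a' :: l)) := by
  induction p with
  | nil =>
    rintro a s L b ⟨-, rfl⟩
    exact ⟨a, _, rfl, rfl⟩
  | cons i p ih =>
    intro a s L b h
    rw [List.flatMap_cons, fillBits_append]
    cases i with
    | rd v e =>
      obtain ⟨c, L', hc, rfl, h⟩ := h
      obtain ⟨a', l, hb, hr⟩ := ih _ _ _ _ h
      refine ⟨a', l, hb, ?_⟩
      rw [rn_append]
      have e1 : fillBits (wd (rd v e : Ins (Fin n) F)) x = [Sy.new, Sy.bit (x v)] ++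
          tab 2 (Fintype.card F) fun b a => nu (if b = 1 then mu a + e else (mu a : F)) := by
        show Sy.new :: Sy.bit (x v) :: fillBits ((_ : List Sy).map Sum.inl) x = _
        rw [fillBits_inl]
        rfl
      rw [e1, rn_append, rn_bit, rn_tab _ _ _ _ _ (by split_ifs <;> omega) (nu_lt a), mu_nu]
      rw [← hr]
      congr 3
      rw [hc]
      cases c <;> simp
    | psh c =>
      obtain ⟨a', l, hb, hr⟩ := ih _ _ _ _ h
      refine ⟨a', l, hb, ?_⟩
      rw [rn_append]
      have e1 : fillBits (wd (psh c : Ins (Fin n) F)) x =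
        Sy.new :: List.replicate (nu c) Sy.one := fillBits_inl _ _
      rw [e1, rn_new]
      exact hr
    | ml =>
      obtain ⟨z, s', rfl, h⟩ := h
      obtain ⟨a', l, hb, hr⟩ := ih _ _ _ _ h
      refine ⟨a', l, hb, ?_⟩
      rw [rn_append]
      have e1 : fillBits (wd (ml : Ins (Fin n) F)) x =
        tab (Fintype.card F) (Fintype.card F) fun a s => nu (mu s * mu a : F) := fillBits_inl _ _
      rw [e1, List.map_cons, rn_tab _ _ _ _ _ (nu_lt a) (nu_lt z), mu_nu, mu_nu]
      exact hr

/-- the word for the test -/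
noncomputable def tst (t : F) : List Sy :=
  Sy.new :: tab 1 (Fintype.card F) fun _ s => if s = nu t then 1 else 0

omit [Field F] in
theorem rn_tst (t a : F) (l : List ℕ) : rn (tst t) (Md.ready, enc (nu a :: l)) =
    (Md.ready, enc ((if a = t then 1 else 0) :: l)) := by
  unfold tst
  rw [rn_cons]
  have : stp (Md.ready, enc (nu a :: l)) Sy.new = (Md.ready, enc (0 :: nu a :: l)) := rfl
  rw [this, rn_tab _ _ _ _ _ (by omega) (nu_lt a)]
  congr 3
  by_cases h : a = t
  · rw [if_pos h, if_pos (by rw [h])]
  · rw [if_neg h, if_neg fun h' => h (nu_inj h')]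

/-- the whole word -/
noncomputable def pat (c t : F) (p : List (Ins (Fin n) F)) : List (Sy ⊕ Fin n) :=
  wd (psh c) ++ (p.flatMap wd ++ (tst t).map Sum.inl)

theorem pat_mem (x : Fin n → Bool) (c t : F) (p : List (Ins (Fin n) F)) (L : List (Fin n))
    (b : Bool) (h : Run (fun v c => x v = c) t p c [] L b) :
    fillBits (pat c t p) x ∈ Ev.lang ↔ b = true := by
  obtain ⟨a', l, rfl, hr⟩ := rn_wds x t p c [] L b h
  have e1 : fillBits (wd (psh c : Ins (Fin n) F)) x =
    Sy.new :: List.replicate (nu c) Sy.one := fillBits_inl _ _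
  have e2 : rn (fillBits (pat c t p) x) (Md.ready, []) =
      (Md.ready, enc ((if a' = t then 1 else 0) :: l)) := by
    unfold pat
    rw [fillBits_append, fillBits_append, rn_append, rn_append, e1, fillBits_inl]
    have e3 := rn_new (nu c) []
    rw [show enc [] = [] from rfl] at e3
    rw [e3]
    rw [List.map_nil] at hr
    rw [hr, rn_tst]
  rw [mem_Ev, e2]
  by_cases h : a' = t
  · simp [h, enc]
  · simp [h, enc]

theorem length_segs (B G : ℕ) : ∀ f : ℕ → ℕ, (∀ j, f j ≤ G) → (segs B f).length ≤ B * (1 + G) := by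
  induction B with
  | zero => exact fun _ _ => Nat.zero_le _
  | succ B ih =>
    intro f hf
    have h1 := ih (fun j => f (j + 1)) fun j => hf _
    have h2 := hf 0
    rw [segs, List.length_cons, List.length_append, List.length_replicate, add_mul]
    omega

theorem length_blks (A B G : ℕ) : ∀ g : ℕ → ℕ → ℕ, (∀ i j, g i j ≤ G) →
    (blks B A g).length ≤ A * (1 + B * (1 + G)) := by
  induction A with
  | zero => exact fun _ _ => Nat.zero_le _
  | succ A ih =>
    intro g hg
    have h1 := ih (fun i => g (i + 1)) fun i => hg _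
    have h2 := length_segs B G (g 0) (hg 0)
    rw [blks, List.length_cons, List.length_append, add_mul]
    omega

theorem length_tab (A B G : ℕ) (g : ℕ → ℕ → ℕ) (hg : ∀ i j, g i j ≤ G) :
    (tab A B g).length ≤ A * (1 + B * (1 + G)) + 1 := by
  have := length_blks A B G g hg
  rw [tab, List.length_append, List.length_singleton]
  omega

omit [DecidableEq F] in
theorem length_wd (i : Ins (Fin n) F) (hn : Fintype.card F ≤ n) : (wd i).length ≤ (n + 2) ^ 3 := by
  have hq : 2 ≤ Fintype.card F := Fintype.one_lt_card
  obtain ⟨q, hq'⟩ : ∃ q, q = Fintype.card F := ⟨_, rfl⟩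
  rw [← hq'] at hn hq
  have h1 : q * (1 + q * (1 + q)) + 1 + 2 ≤ (n + 2) ^ 3 := by
    calc q * (1 + q * (1 + q)) + 1 + 2 ≤ (q + 2) ^ 3 := by nlinarith
      _ ≤ (n + 2) ^ 3 := Nat.pow_le_pow_left (by omega) 3
  cases i with
  | rd v e =>
    have h2 := length_tab 2 q q
      (fun b a => nu (if b = 1 then mu a + e else (mu a : F))) (fun i j => by
        rw [hq']
        exact (nu_lt _).le)
    have h3 : 2 * (1 + q * (1 + q)) ≤ q * (1 + q * (1 + q)) := Nat.mul_le_mul_right _ hq
    show (Sum.inl Sy.new :: Sum.inr v ::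
      (tab 2 (Fintype.card F) fun b a => nu (if b = 1 then mu a + e else (mu a : F))).map
        (Sum.inl : Sy → Sy ⊕ Fin n)).length ≤ _
    rw [List.length_cons, List.length_cons, List.length_map, ← hq']
    omega
  | psh c =>
    show ((Sy.new :: List.replicate (nu c) Sy.one).map (Sum.inl : Sy → Sy ⊕ Fin n)).length ≤ _
    rw [List.length_map, List.length_cons, List.length_replicate]
    have h2 := nu_lt c
    have h3 : q * 1 ≤ q * (1 + q * (1 + q)) := Nat.mul_le_mul_left _ (by omega)
    omega
  | ml =>
    have h2 := length_tab q q q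
      (fun a s => nu (mu s * mu a : F)) (fun i j => by
        rw [hq']
        exact (nu_lt _).le)
    show ((tab (Fintype.card F) (Fintype.card F) fun a s => nu (mu s * mu a : F)).map
      (Sum.inl : Sy → Sy ⊕ Fin n)).length ≤ _
    rw [List.length_map, ← hq']
    omega

omit [DecidableEq F] in
theorem length_pat (c t : F) (p : List (Ins (Fin n) F)) (hn : Fintype.card F ≤ n)
    (hp : p.length ≤ 2 * n) : (pat c t p).length ≤ (n + 2) ^ 5 := by
  have h1 : ∀ p : List (Ins (Fin n) F), (p.flatMap wd).length ≤ p.length * (n + 2) ^ 3 := by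
    intro p
    induction p with
    | nil => simp
    | cons i p ih =>
      have h2 := length_wd i hn
      rw [List.flatMap_cons, List.length_append, List.length_cons, add_mul]
      omega
  have h2 := length_wd (psh c : Ins (Fin n) F) hn
  have h3 : (tst t).length ≤ 1 * (1 + Fintype.card F * (1 + 1)) + 1 + 1 := by
    unfold tst
    rw [List.length_cons]
    exact Nat.add_le_add_right (length_tab 1 _ 1 _ fun i j => by split_ifs <;> omega) 1
  unfold pat
  rw [List.length_append, List.length_append, List.length_map]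
  have h4 := (h1 p).trans (Nat.mul_le_mul_right _ hp)
  have h5 : (n + 2) ^ 3 + (2 * n * (n + 2) ^ 3 + (2 * n + 3)) ≤ (n + 2) ^ 5 := by
    have : (n + 2) ^ 5 = (n + 2) ^ 2 * (n + 2) ^ 3 := by ring
    rw [this]
    have h6 : 2 * n + 3 ≤ (n + 2) ^ 3 := by nlinarith
    nlinarith
  omega

end

open Ins in
/-- the bits in the order in which they are read, with dummies at the end -/
theorem exists_order {F : Type} [Field F] [Fintype F] [DecidableEq F] (D h n : ℕ)
    (hn : Fintype.card (Var D F h) ≤ n) :
    ∃ (e : Var D F h ↪ Fin n) (p : List (Ins (Fin n) F)), vars p = List.finRange n ∧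
      p.length ≤ 2 * n ∧ ∀ (x : Fin n → Bool) (t : F), ∃ L, Run (fun v c => x v = c) t p (c0 h) [] L
        (decide (val h (fun v => x (e v)) = t)) := by
  have hnd := vl_nodup (F := F) D h
  have hlen : (vl (F := F) D h).length = Fintype.card (Var D F h) := by
    rw [← List.toFinset_card_of_nodup hnd, ← Finset.card_univ]
    congr 1
    ext v
    simp only [List.mem_toFinset, mem_vl, Finset.mem_univ]
  let e : Var D F h ↪ Fin n := {
    toFun := fun v => ⟨(vl D h).idxOf v, by
      have h1 := List.idxOf_lt_length_of_mem (mem_vl D h v)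
      omega⟩
    inj' := by
      intro v w hvw
      have h1 : (vl D h).idxOf v = (vl D h).idxOf w := congrArg Fin.val hvw
      exact (List.idxOf_inj (mem_vl D h v)).1 h1 }
  have he : ∀ v, ((e v : Fin n) : ℕ) = (vl D h).idxOf v := fun v => rfl
  have hmap : (vl D h).map (fun v => e v) = (List.finRange n).take (vl (F := F) D h).length := by
    apply List.ext_getElem
    · rw [List.length_map, List.length_take, List.length_finRange]
      omega
    · intro i h1 h2
      rw [List.getElem_map, List.getElem_take, List.getElem_finRange]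
      apply Fin.ext
      rw [he, List.Nodup.idxOf_getElem hnd]
      rfl
  obtain ⟨m, hm⟩ : ∃ m, m = (vl (F := F) D h).length := ⟨_, rfl⟩
  obtain ⟨p, hp⟩ : ∃ p : List (Ins (Fin n) F), p = prog D h (fun v => e v) ++
    ((List.finRange n).drop m).map fun v => (rd v 0 : Ins (Fin n) F) := ⟨_, rfl⟩
  have hvars : vars p = List.finRange n := by
    rw [hp, vars_append, vars_prog, vars_dum, hmap, ← hm, List.take_append_drop]
  refine ⟨e, p, hvars, ?_, fun x t => ?_⟩
  · have h1 := prog_length (F := F) D h (fun v => e v)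
    rw [hp, List.length_append, List.length_map, List.length_drop, List.length_finRange]
    omega
  · have := run_prog x t D h (fun v => e v)
      (((List.finRange n).drop m).map fun v => (rd v 0 : Ins (Fin n) F)) []
        (vars (prog D h (fun v => e v)) ++ (List.finRange n).drop m)
        (decide (val h (fun v => x (e v)) = t))
    rw [← hp] at this
    exact ⟨_, this.2 ⟨_, rfl, (run_dum x t _ _ _ _ _).2 ⟨rfl, rfl⟩⟩⟩

/-- **The tree function as a part of a deterministic context-free language.** -/
theorem dcfl_pattern {F : Type} [Field F] [Fintype F] [DecidableEq F] (D h n : ℕ)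
    (hn : Fintype.card (Var D F h) ≤ n) :
    ∃ e : Var D F h ↪ Fin n, ∀ t : F, ∃ p : List (Sy ⊕ Fin n), p.length ≤ (n + 2) ^ 5 ∧
      p.filterMap Sum.getRight? = List.finRange n ∧
      ∀ x, fillBits p x ∈ Ev.lang ↔ val h (fun v => x (e v)) = t := by
  obtain ⟨e, p, hv, hl, hr⟩ := exists_order (F := F) D h n hn
  refine ⟨e, fun t => ⟨pat (Ins.c0 h) t p, ?_, ?_, fun x => ?_⟩⟩
  · exact length_pat _ _ _ ((Ins.card_le_var (F := F) D h).trans hn) hl
  · unfold pat
    rw [List.filterMap_append, List.filterMap_append, getRight_wd, getRight_wds, getRight_inl, hv,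
      List.append_nil]
    rfl
  · obtain ⟨L, hL⟩ := hr x t
    rw [pat_mem x _ t p L _ hL]
    simp

/-- a trivial pattern -/
theorem dcfl_true (n : ℕ) : ∃ p : List (Sy ⊕ Fin n), p.length ≤ (n + 2) ^ 5 ∧
    p.filterMap Sum.getRight? = List.finRange n ∧ ∀ x, fillBits p x ∈ Ev.lang := by
  refine ⟨(List.finRange n).map Sum.inr ++ [Sum.inl Sy.one], ?_, ?_, fun x => ?_⟩
  · rw [List.length_append, List.length_map, List.length_finRange, List.length_singleton]
    exact (by omega : n + 1 ≤ n + 2).trans (Nat.le_self_pow (by norm_num) _)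
  · rw [List.filterMap_append]
    have : ∀ l : List (Fin n), (l.map (Sum.inr : Fin n → Sy ⊕ Fin n)).filterMap Sum.getRight? =
        l := by
      intro l
      induction l with
      | nil => rfl
      | cons a l ih =>
        show a :: _ = _
        rw [ih]
    rw [this]
    exact List.append_nil _
  · rw [mem_Ev, fillBits_append, rn_append]
    have : ∀ (l : List (Fin n)) (s : List Bool), ∃ s',
        rn (fillBits (l.map Sum.inr) x) (Md.ready, s) = (Md.ready, s') := by
      intro l
      induction l with
      | nil => exact fun s => ⟨s, rfl⟩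
      | cons a l ih =>
        intro s
        show ∃ s', rn (fillBits (l.map Sum.inr) x) (stp (Md.ready, s) (Sy.bit (x a))) = _
        cases x a with
        | true => exact ih (true :: s)
        | false => exact ih s
    obtain ⟨s', hs'⟩ := this (List.finRange n) []
    rw [hs']
    exact ⟨rfl, rfl⟩

end Pool.Agent.V8H39.SR
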