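import Mathlib
import Pool.Agent.V8H39.SR.Thick

/-!
# Dense sets of bits are thick
-/

set_option autoImplicit false

open Finset

namespace Pool.Agent.V8H39.SR

variable {D : ℕ} {ι : Type}

/-- the number of the bits of leaves which do not belong to `S` -/
noncomputable def bad [Fintype ι] : (h : ℕ) → (Var D ι h → Prop) → ℕ
  | 0, S => Nat.card {i : ι // ¬ S i}
  | h + 1, S => ∑ p : Fin D, bad h (fun v => S (Sum.inr (p, v)))

theorem bad_le [Fintype ι] (h : ℕ) (S : Var D ι h → Prop) : bad h S ≤ Nat.card {v // ¬ S v} := by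
  induction h with
  | zero => exact le_rfl
  | succ h ih =>
    have : Finite (Var D ι (h + 1)) := by
      classical
      infer_instance
    calc bad (h + 1) S = ∑ p : Fin D, bad h (fun v => S (Sum.inr (p, v))) := rfl
      _ ≤ ∑ p : Fin D, Nat.card {v : Var D ι h // ¬ S (Sum.inr (p, v))} :=
          sum_le_sum fun p _ => ih _
      _ = Nat.card (Σ p : Fin D, {v : Var D ι h // ¬ S (Sum.inr (p, v))}) :=
          (Nat.card_sigma).symm
      _ ≤ Nat.card {v // ¬ S v} := by
          refine Nat.card_le_card_of_injective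
            (fun z : (Σ p : Fin D, {v : Var D ι h // ¬ S (Sum.inr (p, v))}) =>
              (⟨Sum.inr (z.1, z.2.1), z.2.2⟩ : {v : Var D ι (h + 1) // ¬ S v})) ?_
          rintro ⟨p, v, hv⟩ ⟨p', v', hv'⟩ hz
          have h1 : (Sum.inr (p, v) : ι ⊕ (Fin D × Var D ι h)) = Sum.inr (p', v') :=
            congrArg (fun z => z.1) hz
          have h2 := Sum.inr.inj h1
          obtain ⟨rfl, rfl⟩ := Prod.ext_iff.1 h2
          rfl

theorem thick_of_bad [Fintype ι] (H : ℕ) (hH : 1 ≤ H) : ∀ (h i : ℕ), h + i = H →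
    ∀ S : Var D ι h → Prop, bad h S * (4 * H) ≤ (H + i) * (D ^ h * Fintype.card ι) →
      Thick (D / (2 * H + 1)) (Fintype.card ι / 2) h S := by
  classical
  intro h
  induction h with
  | zero =>
    intro i hi S hS
    refine ⟨univ.filter fun i : ι => S i, ?_, fun i hi => (mem_filter.1 hi).2⟩
    have h1 : (univ.filter fun i : ι => S i).card + (univ.filter fun i : ι => ¬ S i).card =
        Fintype.card ι := by
      rw [← card_univ]
      exact card_filter_add_card_filter_not _
    have h2 : bad 0 S = (univ.filter fun i : ι => ¬ S i).card := by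
      show Nat.card {i : ι // ¬ S i} = _
      rw [Nat.card_eq_fintype_card, Fintype.card_subtype]
    rw [h2, pow_zero, one_mul] at hS
    obtain ⟨b, hb⟩ : ∃ b, b = (univ.filter fun i : ι => ¬ S i).card := ⟨_, rfl⟩
    obtain ⟨n, hn⟩ : ∃ n, n = Fintype.card ι := ⟨_, rfl⟩
    rw [← hb, ← hn] at hS
    rw [← hb, ← hn] at h1
    rw [← hn]
    have h3 : 2 * b ≤ n := by
      have h4 : i = H := by omega
      rw [h4] at hS
      have h5 : (2 * H) * (2 * b) ≤ (2 * H) * n := by
        calc (2 * H) * (2 * b) = b * (4 * H) := by ring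
          _ ≤ (H + H) * n := hS
          _ = (2 * H) * n := by ring
      exact Nat.le_of_mul_le_mul_left h5 (by omega)
    omega
  | succ h ih =>
    intro i hi S hS
    obtain ⟨X, hX⟩ : ∃ X, X = D ^ h * Fintype.card ι := ⟨_, rfl⟩
    obtain ⟨P, hP⟩ : ∃ P : Finset (Fin D), P = univ.filter fun p : Fin D =>
      bad h (fun v => S (Sum.inr (p, v))) * (4 * H) ≤ (H + (i + 1)) * X := ⟨_, rfl⟩
    refine ⟨P, ?_, fun p hp => ih (i + 1) (by omega) _ ?_⟩
    swap
    · rw [← hX]
      rw [hP] at hp
      exact (mem_filter.1 hp).2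
    have h1 : Pᶜ.card * ((H + (i + 1)) * X + 1) ≤ (H + i) * (D * X) := by
      calc Pᶜ.card * ((H + (i + 1)) * X + 1) = ∑ _p ∈ Pᶜ, ((H + (i + 1)) * X + 1) := by
            rw [sum_const, smul_eq_mul]
        _ ≤ ∑ p ∈ Pᶜ, bad h (fun v => S (Sum.inr (p, v))) * (4 * H) := by
            refine sum_le_sum fun p hp => ?_
            rw [mem_compl, hP, mem_filter] at hp
            push Not at hp
            exact hp (mem_univ _)
        _ ≤ ∑ p : Fin D, bad h (fun v => S (Sum.inr (p, v))) * (4 * H) :=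
            sum_le_sum_of_subset (subset_univ _)
        _ = bad (h + 1) S * (4 * H) := by
            rw [← sum_mul]
            rfl
        _ ≤ (H + i) * (D ^ (h + 1) * Fintype.card ι) := hS
        _ = (H + i) * (D * X) := by rw [hX]; ring
    have h2 : P.card + Pᶜ.card = D := by
      rw [card_add_card_compl, Fintype.card_fin]
    refine Nat.div_le_of_le_mul ?_
    rcases Nat.eq_zero_or_pos X with hX0 | hX0
    · rw [hX0, mul_zero, mul_zero, mul_zero, zero_add, mul_one] at h1
      have h3 : P.card = D := by omega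
      rw [h3]
      nlinarith
    · have h3 : Pᶜ.card * (H + (i + 1)) ≤ (H + i) * D := by
        refine Nat.le_of_mul_le_mul_right ?_ hX0
        calc Pᶜ.card * (H + (i + 1)) * X = Pᶜ.card * ((H + (i + 1)) * X) := by ring
          _ ≤ Pᶜ.card * ((H + (i + 1)) * X + 1) := Nat.mul_le_mul_left _ (by omega)
          _ ≤ (H + i) * (D * X) := h1
          _ = (H + i) * D * X := by ring
      have h4 : D * (H + (i + 1)) ≤ P.card * (H + (i + 1)) + (H + i) * D := by
        calc D * (H + (i + 1)) = P.card * (H + (i + 1)) + Pᶜ.card * (H + (i + 1)) := by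
              rw [← add_mul, h2]
          _ ≤ _ := Nat.add_le_add_left h3 _
      have h5 : D ≤ P.card * (H + (i + 1)) := by
        have h6 : D * (H + (i + 1)) = D + (H + i) * D := by ring
        omega
      calc D ≤ P.card * (H + (i + 1)) := h5
        _ ≤ P.card * (2 * H + 1) := Nat.mul_le_mul_left _ (by omega)
        _ = (2 * H + 1) * P.card := mul_comm _ _

theorem card_var_le [Fintype ι] (hD : 2 ≤ D) (h : ℕ) :
    Fintype.card (Var D ι h) ≤ 2 * D ^ h * Fintype.card ι := by
  have key : Fintype.card (Var D ι h) + Fintype.card ι ≤ 2 * D ^ h * Fintype.card ι := by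
    induction h with
    | zero =>
      show Fintype.card ι + Fintype.card ι ≤ _
      rw [pow_zero, mul_one]
      omega
    | succ h ih =>
      have h1 : Fintype.card (Var D ι (h + 1)) = Fintype.card ι + D * Fintype.card (Var D ι h) := by
        show Fintype.card (ι ⊕ (Fin D × Var D ι h)) = _
        rw [Fintype.card_sum, Fintype.card_prod, Fintype.card_fin]
      rw [h1]
      have h2 : D * (Fintype.card (Var D ι h) + Fintype.card ι) ≤
          D * (2 * D ^ h * Fintype.card ι) := Nat.mul_le_mul_left _ ih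
      have h3 : D * (2 * D ^ h * Fintype.card ι) = 2 * D ^ (h + 1) * Fintype.card ι := by ring
      have h4 : 2 * Fintype.card ι ≤ D * Fintype.card ι := Nat.mul_le_mul_right _ hD
      rw [h3, mul_add] at h2
      omega
  omega

theorem thick_of_sum [Fintype ι] (hD : 2 ≤ D) (h k : ℕ) (hh : 1 ≤ h) (κ : Var D ι h → ℕ)
    (hκ : ∑ v, κ v ≤ k * Fintype.card (Var D ι h)) :
    Thick (D / (2 * h + 1)) (Fintype.card ι / 2) h (fun v => κ v ≤ 8 * k) := by
  classical
  obtain ⟨X, hX⟩ : ∃ X, X = D ^ h * Fintype.card ι := ⟨_, rfl⟩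
  obtain ⟨b, hb⟩ : ∃ b, b = Nat.card {v : Var D ι h // ¬ κ v ≤ 8 * k} := ⟨_, rfl⟩
  have h1 : b * (8 * k + 1) ≤ ∑ v, κ v := by
    rw [hb, Nat.card_eq_fintype_card, Fintype.card_subtype]
    calc (univ.filter fun v => ¬ κ v ≤ 8 * k).card * (8 * k + 1) =
          ∑ _v ∈ univ.filter fun v => ¬ κ v ≤ 8 * k, (8 * k + 1) := by
          rw [sum_const, smul_eq_mul]
      _ ≤ ∑ v ∈ univ.filter fun v => ¬ κ v ≤ 8 * k, κ v := by
          refine sum_le_sum fun v hv => ?_
          have := (mem_filter.1 hv).2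
          omega
      _ ≤ ∑ v, κ v := sum_le_sum_of_subset (subset_univ _)
  have h2 := card_var_le (ι := ι) hD h
  have h3 : b * (8 * k + 1) ≤ k * (2 * X) := by
    refine (h1.trans hκ).trans (Nat.mul_le_mul_left _ (h2.trans (le_of_eq ?_)))
    rw [hX]
    ring
  have h4 : 4 * b ≤ X := by
    rcases Nat.eq_zero_or_pos k with hk | hk
    · rw [hk, zero_mul, mul_zero, zero_add, mul_one] at h3
      omega
    · have h5 : (2 * k) * (4 * b) ≤ (2 * k) * X := by
        calc (2 * k) * (4 * b) = b * (8 * k) := by ring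
          _ ≤ b * (8 * k + 1) := Nat.mul_le_mul_left _ (by omega)
          _ ≤ k * (2 * X) := h3
          _ = (2 * k) * X := by ring
      exact Nat.le_of_mul_le_mul_left h5 (by omega)
  refine thick_of_bad h hh h 0 rfl _ ?_
  have h5 : bad h (fun v => κ v ≤ 8 * k) ≤ b := by
    rw [hb]
    exact bad_le h _
  rw [← hX, add_zero]
  calc bad h (fun v => κ v ≤ 8 * k) * (4 * h) ≤ b * (4 * h) := Nat.mul_le_mul_right _ h5
    _ = h * (4 * b) := by ring
    _ ≤ h * X := Nat.mul_le_mul_left _ h4

end Pool.Agent.V8H39.SR
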