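import Mathlib
import Pool.Agent.V8H39.SR.Dense
import Pool.Agent.V8H39.SR.Wt

/-!
# The bits which are read few times have large weight
-/

set_option autoImplicit false

open Finset

namespace Pool.Agent.V8H39.SR

variable {D : ℕ} {ι : Type}

theorem wt_add_bad [Fintype ι] (h : ℕ) (S : Var D ι h → Prop) :
    wt h S + bad h S = D ^ h * Fintype.card ι := by
  classical
  induction h with
  | zero =>
    have h1 : bad 0 S = (univ.filter fun i : ι => ¬ S i).card := by
      show Nat.card {i : ι // ¬ S i} = _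
      rw [Nat.card_eq_fintype_card, Fintype.card_subtype]
    have h2 : wt 0 S = (univ.filter fun i : ι => S i).card := by
      unfold wt
      congr
    rw [h1, h2, pow_zero, one_mul, ← card_univ]
    exact card_filter_add_card_filter_not _
  | succ h ih =>
    show (∑ p : Fin D, wt h (fun v => S (Sum.inr (p, v)))) +
      (∑ p : Fin D, bad h (fun v => S (Sum.inr (p, v)))) = _
    rw [← sum_add_distrib, sum_congr rfl fun p _ => ih (fun v => S (Sum.inr (p, v))), sum_const,
      card_univ, Fintype.card_fin, smul_eq_mul]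
    ring

theorem wt_of_sum [Fintype ι] (hD : 2 ≤ D) (h k : ℕ) (κ : Var D ι h → ℕ)
    (hκ : ∑ v, κ v ≤ k * Fintype.card (Var D ι h)) :
    D ^ h * Fintype.card ι ≤ 2 * wt h (fun v => κ v ≤ 8 * k) := by
  classical
  obtain ⟨X, hX⟩ : ∃ X, X = D ^ h * Fintype.card ι := ⟨_, rfl⟩
  obtain ⟨b, hb⟩ : ∃ b, b = Nat.card {v : Var D ι h // ¬ κ v ≤ 8 * k} := ⟨_, rfl⟩
  have h1 : b * (8 * k + 1) ≤ ∑ v, κ v := by
    rw [hb, Nat.card_eq_fintype_card, Fintype.card_subtype]
    calc (univ.filter fun v => ¬ κ v ≤ 8 * k).card * (8 * k + 1) =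
          ∑ _v ∈ univ.filter fun v => ¬ κ v ≤ 8 * k, (8 * k + 1) := by
          rw [sum_const, smul_eq_mul]
      _ ≤ ∑ v ∈ univ.filter fun v => ¬ κ v ≤ 8 * k, κ v := by
          refine sum_le_sum fun v hv => ?_
          have := (mem_filter.1 hv).2
          omega
      _ ≤ ∑ v, κ v := sum_le_sum_of_subset (subset_univ _)
  have h2 := card_var_le (ι := ι) hD h
  have h3 : b * (8 * k + 1) ≤ k * (2 * X) := by
    refine (h1.trans hκ).trans (Nat.mul_le_mul_left _ (h2.trans (le_of_eq ?_)))
    rw [hX]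
    ring
  have h4 : 4 * b ≤ X := by
    rcases Nat.eq_zero_or_pos k with hk | hk
    · rw [hk, zero_mul, mul_zero, zero_add, mul_one] at h3
      omega
    · have h5 : (2 * k) * (4 * b) ≤ (2 * k) * X := by
        calc (2 * k) * (4 * b) = b * (8 * k) := by ring
          _ ≤ b * (8 * k + 1) := Nat.mul_le_mul_left _ (by omega)
          _ ≤ k * (2 * X) := h3
          _ = (2 * k) * X := by ring
      exact Nat.le_of_mul_le_mul_left h5 (by omega)
  have h5 : bad h (fun v => κ v ≤ 8 * k) ≤ b := by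
    rw [hb]
    exact bad_le h _
  have h6 := wt_add_bad h (fun v => κ v ≤ 8 * k)
  rw [← hX] at h6 ⊢
  omega

end Pool.Agent.V8H39.SR
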