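import Mathlib
import Pool.Agent.V8H39.SR.Defs

/-!
# Machines without a store which read each bit at most k times
-/

set_option autoImplicit false

open Finset

namespace Pool.Agent.V8H39.SR

namespace Mach

variable {V : Type}

/-- one step without the store, with the list of the bits read -/
inductive Step (P : Mach V) (R : V → Bool → Prop) : P.Conf → List V → P.Conf → Prop
  | guess {q q' : P.Conf} {next : Set P.Conf} (h : P.act q = Act.guess next) (hq : q' ∈ next) :
      Step P R q [] q'
  | read {q : P.Conf} {v : V} {next : Bool → P.Conf} {c : Bool} (h : P.act q = Act.read v next)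
      (hc : R v c) : Step P R q [v] (next c)

/-- several steps without the store -/
inductive Steps (P : Mach V) (R : V → Bool → Prop) : P.Conf → List V → P.Conf → Prop
  | refl (q : P.Conf) : Steps P R q [] q
  | head {q q' q'' : P.Conf} {L L' : List V} (h : Step P R q L q') (h' : Steps P R q' L' q'') :
      Steps P R q (L ++ L') q''

variable {P : Mach V} {R R' : V → Bool → Prop}

theorem Steps.trans {q q' q'' : P.Conf} {L L' : List V} (h : Steps P R q L q')
    (h' : Steps P R q' L' q'') : Steps P R q (L ++ L') q'' := by
  induction h with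
  | refl q => simpa using h'
  | head h₁ h₂ ih =>
    rw [List.append_assoc]
    exact Steps.head h₁ (ih h')

theorem Step.congr {q q' : P.Conf} {L : List V} (h : Step P R q L q')
    (hR : ∀ v ∈ L, ∀ c, R v c → R' v c) : Step P R' q L q' := by
  cases h with
  | guess h hq => exact Step.guess h hq
  | read h hc => exact Step.read h (hR _ (by simp) _ hc)

theorem Steps.congr {q q' : P.Conf} {L : List V} (h : Steps P R q L q')
    (hR : ∀ v ∈ L, ∀ c, R v c → R' v c) : Steps P R' q L q' := by
  induction h with
  | refl q => exact Steps.refl q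
  | head h₁ h₂ ih =>
    exact Steps.head (h₁.congr fun v hv => hR v (List.mem_append_left _ hv))
      (ih fun v hv => hR v (List.mem_append_right _ hv))

theorem Step.steps {q q' : P.Conf} {L : List V} (h : Step P R q L q') : Steps P R q L q' := by
  have := Steps.head h (Steps.refl q')
  simpa using this

theorem Steps.true {q q' : P.Conf} {L : List V} (h : Steps P R q L q') :
    Steps P (fun _ _ => True) q L q' := h.congr fun _ _ _ _ => trivial

theorem Steps.comp {q q' : P.Conf} {L L' : List V} {s : List P.Γ} {b : Bool}
    (h : Steps P R q L q') (h' : P.Comp R q' s L' b) : P.Comp R q s (L ++ L') b := by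
  induction h with
  | refl q => simpa using h'
  | head h₁ h₂ ih =>
    cases h₁ with
    | guess h hq => exact Comp.guess h hq (by simpa using ih h')
    | read h hc => exact Comp.read h hc (by simpa using ih h')

theorem steps_of_comp (hs : P.Storeless) {q : P.Conf} {s : List P.Γ} {L : List V} {b : Bool}
    (h : P.Comp R q s L b) : ∃ q', Steps P R q L q' ∧ P.act q' = Act.halt b := by
  induction h with
  | halt h => exact ⟨_, Steps.refl _, h⟩
  | guess h hq h' ih =>
    obtain ⟨q', h₁, h₂⟩ := ih
    exact ⟨q', by simpa using Steps.head (Step.guess h hq) h₁, h₂⟩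
  | read h hc h' ih =>
    obtain ⟨q', h₁, h₂⟩ := ih
    exact ⟨q', by simpa using Steps.head (Step.read h hc) h₁, h₂⟩
  | push h h' ih => exact absurd h ((hs _).1 _ _)
  | pop h h' ih => exact absurd h ((hs _).2 _)

/-- a computation as a function of the time, which waits in its last configuration -/
theorem Steps.seq {q q' : P.Conf} {L : List V} (h : Steps P R q L q') :
    ∃ (f : ℕ → P.Conf) (T : ℕ), f 0 = q ∧
      (∀ i, f (i + 1) = f i ∨ ∃ L, Step P R (f i) L (f (i + 1))) ∧ ∀ i, T ≤ i → f i = q' := by
  induction h with
  | refl q => exact ⟨fun _ => q, 0, rfl, fun i => Or.inl rfl, fun i _ => rfl⟩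
  | @head q q' q'' L L' h₁ h₂ ih =>
    obtain ⟨f, T, h0, h1, h2⟩ := ih
    refine ⟨fun i => Nat.casesOn i q f, T + 1, rfl, ?_, ?_⟩
    · intro i
      cases i with
      | zero => exact Or.inr ⟨L, by simpa [h0] using h₁⟩
      | succ i => exact h1 i
    · intro i hi
      cases i with
      | zero => omega
      | succ i => exact h2 i (by omega)

/-- the maximal number of readings of `v` on the way from the start to `q` -/
noncomputable def cnt [DecidableEq V] (P : Mach V) (q : P.Conf) (v : V) : ℕ :=
  sSup {n | ∃ L, Steps P (fun _ _ => True) P.start L q ∧ L.count v = n}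

/-- `q` is on some path to the answer `true` -/
def Live (P : Mach V) (q : P.Conf) : Prop :=
  ∃ L q', Steps P (fun _ _ => True) q L q' ∧ P.act q' = Act.halt true

/-- `q` can be reached -/
def Rch (P : Mach V) (q : P.Conf) : Prop := ∃ L, Steps P (fun _ _ => True) P.start L q

theorem Live.back {q q' : P.Conf} {L : List V} (h : P.Live q') (h' : Steps P R q L q') :
    P.Live q := by
  obtain ⟨L', q'', h₁, h₂⟩ := h
  exact ⟨_, q'', h'.true.trans h₁, h₂⟩

theorem Rch.fwd {q q' : P.Conf} {L : List V} (h : P.Rch q) (h' : Steps P R q L q') :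
    P.Rch q' := by
  obtain ⟨L', h₁⟩ := h
  exact ⟨_, h₁.trans h'.true⟩

theorem path_of_steps {q : P.Conf} {L L' : List V} {q' : P.Conf}
    (h : Steps P (fun _ _ => True) P.start L q) (h' : Steps P (fun _ _ => True) q L' q')
    (h'' : P.act q' = Act.halt true) : P.Path (L ++ L') true := by
  have := (h.trans h').comp (s := []) (Comp.halt h'')
  simpa [Path] using this

variable [DecidableEq V]

theorem cnt_bdd {k : ℕ} (hk : ∀ L, P.Path L true → ∀ v, L.count v ≤ k) {q : P.Conf}
    (hq : P.Live q) (v : V) :
    k ∈ upperBounds {n | ∃ L, Steps P (fun _ _ => True) P.start L q ∧ L.count v = n} := by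
  rintro n ⟨L, hL, rfl⟩
  obtain ⟨L', q', h₁, h₂⟩ := hq
  have := hk _ (path_of_steps hL h₁ h₂) v
  rw [List.count_append] at this
  omega

theorem cnt_def (q : P.Conf) (v : V) :
    P.cnt q v = sSup {n | ∃ L, Steps P (fun _ _ => True) P.start L q ∧ L.count v = n} := rfl

theorem cnt_le {k : ℕ} (hk : ∀ L, P.Path L true → ∀ v, L.count v ≤ k) {q : P.Conf}
    (hq : P.Live q) (hr : P.Rch q) (v : V) : P.cnt q v ≤ k := by
  rw [cnt_def]
  obtain ⟨L, hL⟩ := hr
  exact csSup_le ⟨_, L, hL, rfl⟩ (cnt_bdd hk hq v)

theorem cnt_add {k : ℕ} (hk : ∀ L, P.Path L true → ∀ v, L.count v ≤ k) {q q' : P.Conf}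
    {L : List V} (hq : P.Live q') (hr : P.Rch q) (h : Steps P R q L q') (v : V) :
    P.cnt q v + L.count v ≤ P.cnt q' v := by
  have hl : P.Live q := hq.back h
  have hmem : P.cnt q v ∈
      {n | ∃ L, Steps P (fun _ _ => True) P.start L q ∧ L.count v = n} := by
    rw [cnt_def]
    obtain ⟨L₀, hL₀⟩ := hr
    exact Nat.sSup_mem ⟨_, L₀, hL₀, rfl⟩ ⟨k, cnt_bdd hk hl v⟩
  obtain ⟨L₁, h₁, h₂⟩ := hmem
  rw [← h₂, ← List.count_append, cnt_def q' v]
  exact le_csSup ⟨k, cnt_bdd hk hq v⟩ ⟨_, h₁.trans h.true, rfl⟩

end Mach

/-- the cuts in the order of time -/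
theorem exists_cuts (S : Finset ℕ) : ∀ big : ℕ, (∀ s ∈ S, s < big) →
    ∃ E : ℕ → ℕ, E 0 = 0 ∧ Monotone E ∧ (∀ i, S.card + 1 ≤ i → E i = big) ∧
      ∀ i, ∀ s ∈ S, ¬ (E i < s ∧ s < E (i + 1)) := by
  induction S using Finset.induction_on_max with
  | empty =>
    intro big _
    refine ⟨fun i => if i = 0 then 0 else big, by simp, ?_, ?_, by simp⟩
    · intro i j hij
      dsimp only
      split_ifs <;> omega
    · intro i hi
      have : i ≠ 0 := by simp at hi; omega
      simp [this]
  | insert a S ha ih =>
    intro big hbig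
    obtain ⟨E, h0, hm, hb, hE⟩ := ih a ha
    have hna : a ∉ S := fun h => lt_irrefl _ (ha a h)
    have hab : a < big := hbig a (mem_insert_self a S)
    have hcard : (insert a S).card = S.card + 1 := card_insert_of_notMem hna
    refine ⟨fun i => if i ≤ S.card + 1 then E i else big, by simp [h0], ?_, ?_, ?_⟩
    · have hle : ∀ i, i ≤ S.card + 1 → E i ≤ a := by
        intro i hi
        rw [← hb (S.card + 1) le_rfl]
        exact hm hi
      intro i j hij
      dsimp only
      split_ifs with h1 h2 h2
      · exact hm hij
      · exact (hle i h1).trans hab.le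
      · omega
      · exact le_rfl
    · intro i hi
      rw [hcard] at hi
      have : ¬ i ≤ S.card + 1 := by omega
      simp [this]
    · intro i s hs
      dsimp only
      have hsa : s ≤ a := by
        rcases mem_insert.1 hs with rfl | h
        · exact le_rfl
        · exact (ha s h).le
      by_cases h1 : i + 1 ≤ S.card + 1
      · rw [if_pos h1, if_pos (by omega : i ≤ S.card + 1)]
        rcases mem_insert.1 hs with rfl | h
        · have : E (i + 1) ≤ s := by
            rw [← hb (S.card + 1) le_rfl]
            exact hm h1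
          omega
        · exact hE i s h
      · have h2 : a ≤ (if i ≤ S.card + 1 then E i else big) := by
          split_ifs with h3
          · rw [hb i (by omega)]
          · exact hab.le
        omega

open Mach in
/-- PART P. -/
theorem prog {V : Type} [Fintype V] [DecidableEq V] (P : Mach V) (hs : P.Storeless) (k : ℕ)
    (hk : ∀ L, P.Path L true → ∀ v, L.count v ≤ k) :
    ∃ (T : Type) (_ : Fintype T) (Via : T → (V → Bool) → Prop) (XA XB : T → V → Prop),
      Fintype.card T ≤ (2 * (Fintype.card P.Conf) ^ 2) ^ (2 * k + 1) ∧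
      (∀ τ x y z, Via τ x → Via τ y → (∀ v, z v = x v ∨ z v = y v) →
        (∀ v, ¬ XB τ v → z v = x v) → (∀ v, ¬ XA τ v → z v = y v) → P.Answers z true) ∧
      (∀ x, P.Answers x true → ∃ t : Fin k → V → ℕ, ∀ A B : Finset V, A.Nonempty →
        (∀ j j', (∀ a ∈ A, ∀ b ∈ B, t j a ≤ t j' b) ∨ (∀ a ∈ A, ∀ b ∈ B, t j' b ≤ t j a)) →
        ∃ τ, Via τ x ∧ (∀ a ∈ A, XA τ a) ∧ (∀ b ∈ B, XB τ b)) := by
  classical
  refine ⟨Fin (2 * k + 1) → Bool × P.Conf × P.Conf, inferInstance,
    fun τ x => (τ 0).2.1 = P.start ∧
      (∀ i, ∃ L, Steps P (fun v c => x v = c) (τ i).2.1 L (τ i).2.2) ∧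
      (∀ i : Fin (2 * k), (τ i.succ).2.1 = (τ i.castSucc).2.2 ∨
        ∃ L, Step P (fun v c => x v = c) (τ i.castSucc).2.2 L (τ i.succ).2.1) ∧
      P.act (τ (Fin.last (2 * k))).2.2 = Act.halt true,
    fun τ v => ∀ i, (τ i).1 = false → P.cnt (τ i).2.1 v = P.cnt (τ i).2.2 v,
    fun τ v => ∀ i, (τ i).1 = true → P.cnt (τ i).2.1 v = P.cnt (τ i).2.2 v, ?_, ?_, ?_⟩
  · simp only [Fintype.card_fun, Fintype.card_fin, Fintype.card_prod, Fintype.card_bool]
    apply le_of_eq
    ring
  · rintro τ x y z ⟨hx0, hx1, hx2, hx3⟩ ⟨hy0, hy1, hy2, hy3⟩ hz hzB hzA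
    -- all configurations can be reached
    have hr : ∀ i, P.Rch (τ i).2.1 := by
      intro i
      induction i using Fin.induction with
      | zero => rw [hx0]; exact ⟨[], Steps.refl _⟩
      | succ i ih =>
        obtain ⟨L, hL⟩ := hx1 i.castSucc
        have := ih.fwd hL
        rcases hx2 i with h | ⟨L', h⟩
        · rw [h]; exact this
        · exact this.fwd h.steps
    have hl : ∀ i, P.Live (τ i).2.2 := by
      intro i
      induction i using Fin.reverseInduction with
      | last => exact ⟨[], _, Steps.refl _, hx3⟩
      | cast i ih =>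
        obtain ⟨L, hL⟩ := hx1 i.succ
        have := ih.back hL
        rcases hx2 i with h | ⟨L', h⟩
        · rw [← h]; exact this
        · exact this.back h.steps
    -- the gaps
    have hgap : ∀ i, ∃ L, Steps P (fun v c => z v = c) (τ i).2.1 L (τ i).2.2 := by
      intro i
      cases hc : (τ i).1 with
      | true =>
        obtain ⟨L, hL⟩ := hx1 i
        refine ⟨L, hL.congr ?_⟩
        rintro v hv c rfl
        apply hzB
        intro h
        have h1 := h i hc
        have h2 := cnt_add hk (hl i) (hr i) hL v
        have h3 : 0 < L.count v := List.count_pos_iff.2 hv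
        omega
      | false =>
        obtain ⟨L, hL⟩ := hy1 i
        refine ⟨L, hL.congr ?_⟩
        rintro v hv c rfl
        apply hzA
        intro h
        have h1 := h i hc
        have h2 := cnt_add hk (hl i) (hr i) hL v
        have h3 : 0 < L.count v := List.count_pos_iff.2 hv
        omega
    -- the cuts
    have hcut : ∀ i : Fin (2 * k), ∃ L,
        Steps P (fun v c => z v = c) (τ i.castSucc).2.2 L (τ i.succ).2.1 := by
      intro i
      rcases hx2 i with h | ⟨L, h⟩
      · rw [h]; exact ⟨[], Steps.refl _⟩
      · rcases hy2 i with h' | ⟨L', h'⟩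
        · rw [h']; exact ⟨[], Steps.refl _⟩
        · generalize (τ i.castSucc).2.2 = r at h h'
          generalize (τ i.succ).2.1 = p at h h'
          cases h with
          | guess h1 h2 => exact ⟨[], (Step.guess h1 h2).steps⟩
          | read h1 h2 =>
            rename_i v next c
            subst h2
            generalize hp : next (x v) = p' at h' ⊢
            cases h' with
            | guess h3 h4 => rw [h1] at h3; cases h3
            | read h3 h4 =>
              rename_i v' next' c'
              subst h4
              rw [h1] at h3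
              cases h3
              rcases hz v with h5 | h5
              · exact ⟨[v], by rw [← hp, ← h5]; exact (Step.read h1 rfl).steps⟩
              · exact ⟨[v], by rw [← h5]; exact (Step.read h1 rfl).steps⟩
    have hall : ∀ i, ∃ L, Steps P (fun v c => z v = c) P.start L (τ i).2.2 := by
      intro i
      induction i using Fin.induction with
      | zero => rw [← hx0]; exact hgap 0
      | succ i ih =>
        obtain ⟨L, hL⟩ := ih
        obtain ⟨L', hL'⟩ := hcut i
        obtain ⟨L'', hL''⟩ := hgap i.succ
        exact ⟨_, (hL.trans hL').trans hL''⟩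
    obtain ⟨L, hL⟩ := hall (Fin.last (2 * k))
    exact ⟨_, hL.comp (Comp.halt hx3)⟩
  · rintro x ⟨L₀, hL₀⟩
    obtain ⟨q', hst, hhalt⟩ := steps_of_comp hs hL₀
    obtain ⟨f, T, hf0, hf1, hf2⟩ := hst.seq
    have hsteps : ∀ i j, i ≤ j → ∃ L, Steps P (fun v c => x v = c) (f i) L (f j) := by
      intro i j hij
      induction j, hij using Nat.le_induction with
      | base => exact ⟨[], Steps.refl _⟩
      | succ j hij ih =>
        obtain ⟨L, hL⟩ := ih
        rcases hf1 j with h | ⟨L', h⟩
        · rw [h]; exact ⟨L, hL⟩
        · exact ⟨_, hL.trans h.steps⟩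
    have hr : ∀ i, P.Rch (f i) := by
      intro i
      obtain ⟨L, hL⟩ := hsteps 0 i (Nat.zero_le i)
      rw [hf0] at hL
      exact ⟨L, hL.true⟩
    have hl : ∀ i, P.Live (f i) := by
      intro i
      obtain ⟨L, hL⟩ := hsteps i (max i T) (le_max_left _ _)
      exact ⟨L, _, hL.true, by rw [hf2 _ (le_max_right _ _)]; exact hhalt⟩
    have hmono : ∀ v, Monotone fun i => P.cnt (f i) v := by
      intro v i j hij
      obtain ⟨L, hL⟩ := hsteps i j hij
      have := cnt_add hk (hl j) (hr i) hL v
      dsimp only
      omega
    -- the first time when the number of readings is larger than `j`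
    let t : Fin k → V → ℕ := fun j v =>
      if h : ∃ i, (j : ℕ) + 1 ≤ P.cnt (f i) v then Nat.find h else T
    have ht : ∀ v i, P.cnt (f i) v < P.cnt (f (i + 1)) v → ∃ j, t j v = i + 1 := by
      intro v i hi
      have hle : P.cnt (f (i + 1)) v ≤ k := cnt_le hk (hl _) (hr _) v
      refine ⟨⟨P.cnt (f i) v, by omega⟩, ?_⟩
      have hex : ∃ l, P.cnt (f i) v + 1 ≤ P.cnt (f l) v := ⟨i + 1, hi⟩
      show (if h : ∃ l, P.cnt (f i) v + 1 ≤ P.cnt (f l) v then Nat.find h else T) = i + 1
      rw [dif_pos hex, Nat.find_eq_iff]
      refine ⟨hi, ?_⟩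
      intro l hl' hc
      have := hmono v (show l ≤ i by omega)
      dsimp only at this
      omega
    refine ⟨t, ?_⟩
    intro A B hA hAB
    let m : Fin k → ℕ := fun j => A.inf' hA (t j)
    let M : Fin k → ℕ := fun j => A.sup' hA (t j)
    let S : Finset ℕ := univ.image m ∪ univ.image M
    have hScard : S.card ≤ 2 * k := by
      refine (card_union_le _ _).trans ?_
      have h1 := card_image_le (s := (univ : Finset (Fin k))) (f := m)
      have h2 := card_image_le (s := (univ : Finset (Fin k))) (f := M)
      simp only [card_univ, Fintype.card_fin] at h1 h2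
      omega
    have hbig : ∀ s ∈ S, s < T + S.sup id + 1 := by
      intro s hs
      have : s ≤ S.sup id := le_sup (f := id) hs
      omega
    obtain ⟨E, hE0, hEm, hEb, hES⟩ := exists_cuts S (T + S.sup id + 1) hbig
    have hm : ∀ j, m j ∈ S := fun j => mem_union_left _ (mem_image_of_mem m (mem_univ j))
    have hM : ∀ j, M j ∈ S := fun j => mem_union_right _ (mem_image_of_mem M (mem_univ j))
    refine ⟨fun i => (decide (∃ j, m j ≤ E i ∧ E (i + 1) ≤ M j), f (E i),
      f (max (E i) (E (i + 1) - 1))), ⟨?_, ?_, ?_, ?_⟩, ?_, ?_⟩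
    · simp [hE0, hf0]
    · intro i
      exact hsteps _ _ (le_max_left _ _)
    · intro i
      have h1 : E i ≤ E (i + 1) := hEm (Nat.le_succ _)
      rcases h1.eq_or_lt with h | h
      · left
        simp only [Fin.val_succ, Fin.val_castSucc]
        rw [max_eq_left (by omega), ← h]
      · simp only [Fin.val_succ, Fin.val_castSucc]
        rw [max_eq_right (by omega)]
        have h2 := hf1 (E (i + 1) - 1)
        rw [show E (i + 1) - 1 + 1 = E (i + 1) by omega] at h2
        exact h2
    · simp only [Fin.val_last]
      rw [hf2]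
      · exact hhalt
      · rw [hEb (2 * k + 1) (by omega)]
        exact le_max_of_le_right (by omega)
    · intro a ha i hi
      simp only [decide_eq_false_iff_not, not_exists, not_and, not_le] at hi ⊢
      -- the number of readings does not change
      have key : ∀ l, E i ≤ l → l ≤ max (E i) (E (i + 1) - 1) →
          P.cnt (f (E i)) a = P.cnt (f l) a := by
        intro l hl1
        induction l, hl1 using Nat.le_induction with
        | base => intro _; rfl
        | succ l hl1 ih =>
          intro hl2
          rw [ih (by omega)]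
          by_contra hne
          have hlt : P.cnt (f l) a < P.cnt (f (l + 1)) a :=
            lt_of_le_of_ne (hmono a (Nat.le_succ l)) hne
          obtain ⟨j, hj⟩ := ht a l hlt
          have h1 : m j ≤ l + 1 := by rw [← hj]; exact inf'_le _ ha
          have h2 : l + 1 ≤ M j := by rw [← hj]; exact le_sup' (t j) ha
          have h3 : l + 1 < E (i + 1) := by
            rcases le_max_iff.1 hl2 with h | h <;> omega
          have h4 : E i < l + 1 := by omega
          have h5 := hES i (m j) (hm j)
          have h6 := hES i (M j) (hM j)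
          have h7 := hi j (by omega)
          omega
      exact key _ (le_max_left _ _) le_rfl
    · intro b hb i hi
      simp only [decide_eq_true_eq] at hi ⊢
      obtain ⟨j, hj1, hj2⟩ := hi
      have key : ∀ l, E i ≤ l → l ≤ max (E i) (E (i + 1) - 1) →
          P.cnt (f (E i)) b = P.cnt (f l) b := by
        intro l hl1
        induction l, hl1 using Nat.le_induction with
        | base => intro _; rfl
        | succ l hl1 ih =>
          intro hl2
          rw [ih (by omega)]
          by_contra hne
          have hlt : P.cnt (f l) b < P.cnt (f (l + 1)) b :=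
            lt_of_le_of_ne (hmono b (Nat.le_succ l)) hne
          obtain ⟨j', hj'⟩ := ht b l hlt
          have h3 : l + 1 < E (i + 1) := by
            rcases le_max_iff.1 hl2 with h | h <;> omega
          have h4 : E i < l + 1 := by omega
          obtain ⟨a1, ha1, ha1'⟩ := exists_mem_eq_inf' hA (t j)
          obtain ⟨a2, ha2, ha2'⟩ := exists_mem_eq_sup' hA (t j)
          have h5 : m j = t j a1 := ha1'
          have h6 : M j = t j a2 := ha2'
          rcases hAB j j' with h | h
          · have := h a2 ha2 b hb
            omega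
          · have := h a1 ha1 b hb
            omega
      exact key _ (le_max_left _ _) le_rfl

end Pool.Agent.V8H39.SR
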