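import Mathlib
import Pool.Agent.V8H39.SR.Prog

/-!
# Machines without a store: only some bits are read few times; fixing bits
-/

set_option autoImplicit false

open Finset

namespace Pool.Agent.V8H39.SR

namespace Mach

variable {V : Type} {P : Mach V} {R : V → Bool → Prop} [DecidableEq V]

theorem cnt_bdd' {k : ℕ} {v : V} (hk : ∀ L, P.Path L true → L.count v ≤ k) {q : P.Conf}
    (hq : P.Live q) :
    k ∈ upperBounds {n | ∃ L, Steps P (fun _ _ => True) P.start L q ∧ L.count v = n} := by
  rintro n ⟨L, hL, rfl⟩
  obtain ⟨L', q', h₁, h₂⟩ := hq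
  have := hk _ (path_of_steps hL h₁ h₂)
  rw [List.count_append] at this
  omega

theorem cnt_le' {k : ℕ} {v : V} (hk : ∀ L, P.Path L true → L.count v ≤ k) {q : P.Conf}
    (hq : P.Live q) (hr : P.Rch q) : P.cnt q v ≤ k := by
  rw [cnt_def]
  obtain ⟨L, hL⟩ := hr
  exact csSup_le ⟨_, L, hL, rfl⟩ (cnt_bdd' hk hq)

theorem cnt_add' {k : ℕ} {v : V} (hk : ∀ L, P.Path L true → L.count v ≤ k) {q q' : P.Conf}
    {L : List V} (hq : P.Live q') (hr : P.Rch q) (h : Steps P R q L q') :
    P.cnt q v + L.count v ≤ P.cnt q' v := by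
  have hl : P.Live q := hq.back h
  have hmem : P.cnt q v ∈
      {n | ∃ L, Steps P (fun _ _ => True) P.start L q ∧ L.count v = n} := by
    rw [cnt_def]
    obtain ⟨L₀, hL₀⟩ := hr
    exact Nat.sSup_mem ⟨_, L₀, hL₀, rfl⟩ ⟨k, cnt_bdd' hk hl⟩
  obtain ⟨L₁, h₁, h₂⟩ := hmem
  rw [← h₂, ← List.count_append, cnt_def q' v]
  exact le_csSup ⟨k, cnt_bdd' hk hq⟩ ⟨_, h₁.trans h.true, rfl⟩

end Mach

open Mach in
/-- As `prog`, but only the bits in `S` are read at most `k` times. -/
theorem prog' {V : Type} [Fintype V] [DecidableEq V] (P : Mach V) (hs : P.Storeless) (k : ℕ)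
    (S : V → Prop) (hk : ∀ L, P.Path L true → ∀ v, S v → L.count v ≤ k) :
    ∃ (T : Type) (_ : Fintype T) (Via : T → (V → Bool) → Prop) (XA XB : T → V → Prop),
      Fintype.card T ≤ (2 * (Fintype.card P.Conf) ^ 2) ^ (2 * k + 1) ∧
      (∀ τ x y z, Via τ x → Via τ y → (∀ v, z v = x v ∨ z v = y v) →
        (∀ v, ¬ XB τ v → z v = x v) → (∀ v, ¬ XA τ v → z v = y v) → P.Answers z true) ∧
      (∀ x, P.Answers x true → ∃ t : Fin k → V → ℕ, ∀ A B : Finset V, A.Nonempty →
        (∀ a ∈ A, S a) → (∀ b ∈ B, S b) →
        (∀ j j', (∀ a ∈ A, ∀ b ∈ B, t j a ≤ t j' b) ∨ (∀ a ∈ A, ∀ b ∈ B, t j' b ≤ t j a)) →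
        ∃ τ, Via τ x ∧ (∀ a ∈ A, XA τ a) ∧ (∀ b ∈ B, XB τ b)) := by
  classical
  refine ⟨Fin (2 * k + 1) → Bool × P.Conf × P.Conf, inferInstance,
    fun τ x => (τ 0).2.1 = P.start ∧
      (∀ i, ∃ L, Steps P (fun v c => x v = c) (τ i).2.1 L (τ i).2.2) ∧
      (∀ i : Fin (2 * k), (τ i.succ).2.1 = (τ i.castSucc).2.2 ∨
        ∃ L, Step P (fun v c => x v = c) (τ i.castSucc).2.2 L (τ i.succ).2.1) ∧
      P.act (τ (Fin.last (2 * k))).2.2 = Act.halt true,
    fun τ v => S v ∧ ∀ i, (τ i).1 = false → P.cnt (τ i).2.1 v = P.cnt (τ i).2.2 v,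
    fun τ v => S v ∧ ∀ i, (τ i).1 = true → P.cnt (τ i).2.1 v = P.cnt (τ i).2.2 v, ?_, ?_, ?_⟩
  · simp only [Fintype.card_fun, Fintype.card_fin, Fintype.card_prod, Fintype.card_bool]
    apply le_of_eq
    ring
  · rintro τ x y z ⟨hx0, hx1, hx2, hx3⟩ ⟨hy0, hy1, hy2, hy3⟩ hz hzB hzA
    -- all configurations can be reached
    have hr : ∀ i, P.Rch (τ i).2.1 := by
      intro i
      induction i using Fin.induction with
      | zero => rw [hx0]; exact ⟨[], Steps.refl _⟩
      | succ i ih =>
        obtain ⟨L, hL⟩ := hx1 i.castSucc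
        have := ih.fwd hL
        rcases hx2 i with h | ⟨L', h⟩
        · rw [h]; exact this
        · exact this.fwd h.steps
    have hl : ∀ i, P.Live (τ i).2.2 := by
      intro i
      induction i using Fin.reverseInduction with
      | last => exact ⟨[], _, Steps.refl _, hx3⟩
      | cast i ih =>
        obtain ⟨L, hL⟩ := hx1 i.succ
        have := ih.back hL
        rcases hx2 i with h | ⟨L', h⟩
        · rw [← h]; exact this
        · exact this.back h.steps
    -- the gaps
    have hgap : ∀ i, ∃ L, Steps P (fun v c => z v = c) (τ i).2.1 L (τ i).2.2 := by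
      intro i
      cases hc : (τ i).1 with
      | true =>
        obtain ⟨L, hL⟩ := hx1 i
        refine ⟨L, hL.congr ?_⟩
        rintro v hv c rfl
        apply hzB
        rintro ⟨hSv, h⟩
        have h1 := h i hc
        have h2 := cnt_add' (fun L hL => hk L hL v hSv) (hl i) (hr i) hL
        have h3 : 0 < L.count v := List.count_pos_iff.2 hv
        omega
      | false =>
        obtain ⟨L, hL⟩ := hy1 i
        refine ⟨L, hL.congr ?_⟩
        rintro v hv c rfl
        apply hzA
        rintro ⟨hSv, h⟩
        have h1 := h i hc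
        have h2 := cnt_add' (fun L hL => hk L hL v hSv) (hl i) (hr i) hL
        have h3 : 0 < L.count v := List.count_pos_iff.2 hv
        omega
    -- the cuts
    have hcut : ∀ i : Fin (2 * k), ∃ L,
        Steps P (fun v c => z v = c) (τ i.castSucc).2.2 L (τ i.succ).2.1 := by
      intro i
      rcases hx2 i with h | ⟨L, h⟩
      · rw [h]; exact ⟨[], Steps.refl _⟩
      · rcases hy2 i with h' | ⟨L', h'⟩
        · rw [h']; exact ⟨[], Steps.refl _⟩
        · generalize (τ i.castSucc).2.2 = r at h h'
          generalize (τ i.succ).2.1 = p at h h'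
          cases h with
          | guess h1 h2 => exact ⟨[], (Step.guess h1 h2).steps⟩
          | read h1 h2 =>
            rename_i v next c
            subst h2
            generalize hp : next (x v) = p' at h' ⊢
            cases h' with
            | guess h3 h4 => rw [h1] at h3; cases h3
            | read h3 h4 =>
              rename_i v' next' c'
              subst h4
              rw [h1] at h3
              cases h3
              rcases hz v with h5 | h5
              · exact ⟨[v], by rw [← hp, ← h5]; exact (Step.read h1 rfl).steps⟩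
              · exact ⟨[v], by rw [← h5]; exact (Step.read h1 rfl).steps⟩
    have hall : ∀ i, ∃ L, Steps P (fun v c => z v = c) P.start L (τ i).2.2 := by
      intro i
      induction i using Fin.induction with
      | zero => rw [← hx0]; exact hgap 0
      | succ i ih =>
        obtain ⟨L, hL⟩ := ih
        obtain ⟨L', hL'⟩ := hcut i
        obtain ⟨L'', hL''⟩ := hgap i.succ
        exact ⟨_, (hL.trans hL').trans hL''⟩
    obtain ⟨L, hL⟩ := hall (Fin.last (2 * k))
    exact ⟨_, hL.comp (Comp.halt hx3)⟩
  · rintro x ⟨L₀, hL₀⟩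
    obtain ⟨q', hst, hhalt⟩ := steps_of_comp hs hL₀
    obtain ⟨f, T, hf0, hf1, hf2⟩ := hst.seq
    have hsteps : ∀ i j, i ≤ j → ∃ L, Steps P (fun v c => x v = c) (f i) L (f j) := by
      intro i j hij
      induction j, hij using Nat.le_induction with
      | base => exact ⟨[], Steps.refl _⟩
      | succ j hij ih =>
        obtain ⟨L, hL⟩ := ih
        rcases hf1 j with h | ⟨L', h⟩
        · rw [h]; exact ⟨L, hL⟩
        · exact ⟨_, hL.trans h.steps⟩
    have hr : ∀ i, P.Rch (f i) := by
      intro i
      obtain ⟨L, hL⟩ := hsteps 0 i (Nat.zero_le i)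
      rw [hf0] at hL
      exact ⟨L, hL.true⟩
    have hl : ∀ i, P.Live (f i) := by
      intro i
      obtain ⟨L, hL⟩ := hsteps i (max i T) (le_max_left _ _)
      exact ⟨L, _, hL.true, by rw [hf2 _ (le_max_right _ _)]; exact hhalt⟩
    have hmono : ∀ v, S v → Monotone fun i => P.cnt (f i) v := by
      intro v hSv i j hij
      obtain ⟨L, hL⟩ := hsteps i j hij
      have := cnt_add' (fun L hL => hk L hL v hSv) (hl j) (hr i) hL
      dsimp only
      omega
    -- the first time when the number of readings is larger than `j`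
    let t : Fin k → V → ℕ := fun j v =>
      if h : ∃ i, (j : ℕ) + 1 ≤ P.cnt (f i) v then Nat.find h else T
    have ht : ∀ v i, S v → P.cnt (f i) v < P.cnt (f (i + 1)) v → ∃ j, t j v = i + 1 := by
      intro v i hSv hi
      have hle : P.cnt (f (i + 1)) v ≤ k :=
        cnt_le' (fun L hL => hk L hL v hSv) (hl _) (hr _)
      refine ⟨⟨P.cnt (f i) v, by omega⟩, ?_⟩
      have hex : ∃ l, P.cnt (f i) v + 1 ≤ P.cnt (f l) v := ⟨i + 1, hi⟩
      show (if h : ∃ l, P.cnt (f i) v + 1 ≤ P.cnt (f l) v then Nat.find h else T) = i + 1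
      rw [dif_pos hex, Nat.find_eq_iff]
      refine ⟨hi, ?_⟩
      intro l hl' hc
      have := hmono v hSv (show l ≤ i by omega)
      dsimp only at this
      omega
    refine ⟨t, ?_⟩
    intro A B hA hAS hBS hAB
    let m : Fin k → ℕ := fun j => A.inf' hA (t j)
    let M : Fin k → ℕ := fun j => A.sup' hA (t j)
    let Q : Finset ℕ := univ.image m ∪ univ.image M
    have hScard : Q.card ≤ 2 * k := by
      refine (card_union_le _ _).trans ?_
      have h1 := card_image_le (s := (univ : Finset (Fin k))) (f := m)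
      have h2 := card_image_le (s := (univ : Finset (Fin k))) (f := M)
      simp only [card_univ, Fintype.card_fin] at h1 h2
      omega
    have hbig : ∀ s ∈ Q, s < T + Q.sup id + 1 := by
      intro s hs
      have : s ≤ Q.sup id := le_sup (f := id) hs
      omega
    obtain ⟨E, hE0, hEm, hEb, hES⟩ := exists_cuts Q (T + Q.sup id + 1) hbig
    have hm : ∀ j, m j ∈ Q := fun j => mem_union_left _ (mem_image_of_mem m (mem_univ j))
    have hM : ∀ j, M j ∈ Q := fun j => mem_union_right _ (mem_image_of_mem M (mem_univ j))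
    refine ⟨fun i => (decide (∃ j, m j ≤ E i ∧ E (i + 1) ≤ M j), f (E i),
      f (max (E i) (E (i + 1) - 1))), ⟨?_, ?_, ?_, ?_⟩, ?_, ?_⟩
    · simp [hE0, hf0]
    · intro i
      exact hsteps _ _ (le_max_left _ _)
    · intro i
      have h1 : E i ≤ E (i + 1) := hEm (Nat.le_succ _)
      rcases h1.eq_or_lt with h | h
      · left
        simp only [Fin.val_succ, Fin.val_castSucc]
        rw [max_eq_left (by omega), ← h]
      · simp only [Fin.val_succ, Fin.val_castSucc]
        rw [max_eq_right (by omega)]
        have h2 := hf1 (E (i + 1) - 1)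
        rw [show E (i + 1) - 1 + 1 = E (i + 1) by omega] at h2
        exact h2
    · simp only [Fin.val_last]
      rw [hf2]
      · exact hhalt
      · rw [hEb (2 * k + 1) (by omega)]
        exact le_max_of_le_right (by omega)
    · intro a ha
      refine ⟨hAS a ha, ?_⟩
      intro i hi
      simp only [decide_eq_false_iff_not, not_exists, not_and, not_le] at hi ⊢
      -- the number of readings does not change
      have key : ∀ l, E i ≤ l → l ≤ max (E i) (E (i + 1) - 1) →
          P.cnt (f (E i)) a = P.cnt (f l) a := by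
        intro l hl1
        induction l, hl1 using Nat.le_induction with
        | base => intro _; rfl
        | succ l hl1 ih =>
          intro hl2
          rw [ih (by omega)]
          by_contra hne
          have hlt : P.cnt (f l) a < P.cnt (f (l + 1)) a :=
            lt_of_le_of_ne (hmono a (hAS a ha) (Nat.le_succ l)) hne
          obtain ⟨j, hj⟩ := ht a l (hAS a ha) hlt
          have h1 : m j ≤ l + 1 := by rw [← hj]; exact inf'_le _ ha
          have h2 : l + 1 ≤ M j := by rw [← hj]; exact le_sup' (t j) ha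
          have h3 : l + 1 < E (i + 1) := by
            rcases le_max_iff.1 hl2 with h | h <;> omega
          have h4 : E i < l + 1 := by omega
          have h5 := hES i (m j) (hm j)
          have h6 := hES i (M j) (hM j)
          have h7 := hi j (by omega)
          omega
      exact key _ (le_max_left _ _) le_rfl
    · intro b hb
      refine ⟨hBS b hb, ?_⟩
      intro i hi
      simp only [decide_eq_true_eq] at hi ⊢
      obtain ⟨j, hj1, hj2⟩ := hi
      have key : ∀ l, E i ≤ l → l ≤ max (E i) (E (i + 1) - 1) →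
          P.cnt (f (E i)) b = P.cnt (f l) b := by
        intro l hl1
        induction l, hl1 using Nat.le_induction with
        | base => intro _; rfl
        | succ l hl1 ih =>
          intro hl2
          rw [ih (by omega)]
          by_contra hne
          have hlt : P.cnt (f l) b < P.cnt (f (l + 1)) b :=
            lt_of_le_of_ne (hmono b (hBS b hb) (Nat.le_succ l)) hne
          obtain ⟨j', hj'⟩ := ht b l (hBS b hb) hlt
          have h3 : l + 1 < E (i + 1) := by
            rcases le_max_iff.1 hl2 with h | h <;> omega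
          have h4 : E i < l + 1 := by omega
          obtain ⟨a1, ha1, ha1'⟩ := exists_mem_eq_inf' hA (t j)
          obtain ⟨a2, ha2, ha2'⟩ := exists_mem_eq_sup' hA (t j)
          have h5 : m j = t j a1 := ha1'
          have h6 : M j = t j a2 := ha2'
          rcases hAB j j' with h | h
          · have := h a2 ha2 b hb
            omega
          · have := h a1 ha1 b hb
            omega
      exact key _ (le_max_left _ _) le_rfl

/-! ### Fixing bits -/

section Fix

variable {V W : Type}

open Classical in
/-- the action after fixing the bits outside the range of `e` -/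
noncomputable def fixAct {Γ S : Type} (e : V ↪ W) (y : W → Bool) : Act W Γ S → Act V Γ S
  | .halt b => .halt b
  | .guess next => .guess next
  | .read w next => if h : ∃ v, e v = w then .read h.choose next else .guess {next (y w)}
  | .push c next => .push c next
  | .pop next => .pop next

theorem fixAct_read {Γ S : Type} (e : V ↪ W) (y : W → Bool) (v : V) (next : Bool → S) :
    fixAct e y (Act.read (Γ := Γ) (e v) next) = .read v next := by
  have h : ∃ v', e v' = e v := ⟨v, rfl⟩
  unfold fixAct
  simp only [dif_pos h]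
  rw [e.injective h.choose_spec]

theorem fixAct_read' {Γ S : Type} (e : V ↪ W) (y : W → Bool) (w : W) (hw : ∀ v, e v ≠ w)
    (next : Bool → S) : fixAct e y (Act.read (Γ := Γ) w next) = .guess {next (y w)} := by
  have h : ¬ ∃ v', e v' = w := fun ⟨v, hv⟩ => hw v hv
  unfold fixAct
  simp only [dif_neg h]

theorem fixAct_halt_inv {Γ S : Type} (e : V ↪ W) (y : W → Bool) {a : Act W Γ S} {b : Bool}
    (h : fixAct e y a = .halt b) : a = .halt b := by
  cases a with
  | halt b' => simpa [fixAct] using h
  | guess next => simp [fixAct] at h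
  | read w next => simp only [fixAct] at h; split_ifs at h
  | push c next => simp [fixAct] at h
  | pop next => simp [fixAct] at h

theorem fixAct_guess_inv {Γ S : Type} (e : V ↪ W) (y : W → Bool) {a : Act W Γ S} {next : Set S}
    (h : fixAct e y a = .guess next) : a = .guess next ∨
      ∃ w next', a = .read w next' ∧ (∀ v, e v ≠ w) ∧ next = {next' (y w)} := by
  cases a with
  | halt b' => simp [fixAct] at h
  | guess next' => left; simpa [fixAct] using h
  | read w next' =>
    right
    simp only [fixAct] at h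
    split_ifs at h with hw
    simp only [Act.guess.injEq] at h
    exact ⟨w, next', rfl, fun v hv => hw ⟨v, hv⟩, h.symm⟩
  | push c next => simp [fixAct] at h
  | pop next => simp [fixAct] at h

theorem fixAct_read_inv {Γ S : Type} (e : V ↪ W) (y : W → Bool) {a : Act W Γ S} {v : V}
    {next : Bool → S} (h : fixAct e y a = .read v next) : a = .read (e v) next := by
  cases a with
  | halt b' => simp [fixAct] at h
  | guess next' => simp [fixAct] at h
  | read w next' =>
    by_cases hw : ∃ v', e v' = w
    · obtain ⟨v', rfl⟩ := hw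
      rw [fixAct_read] at h
      simp only [Act.read.injEq] at h
      obtain ⟨rfl, rfl⟩ := h
      rfl
    · rw [fixAct_read' e y w (fun v' hv' => hw ⟨v', hv'⟩)] at h
      simp at h
  | push c next => simp [fixAct] at h
  | pop next => simp [fixAct] at h

theorem fixAct_push_inv {Γ S : Type} (e : V ↪ W) (y : W → Bool) {a : Act W Γ S} {c : Γ} {q : S}
    (h : fixAct e y a = .push c q) : a = .push c q := by
  cases a with
  | halt b' => simp [fixAct] at h
  | guess next => simp [fixAct] at h
  | read w next => simp only [fixAct] at h; split_ifs at h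
  | push c next => simpa [fixAct] using h
  | pop next => simp [fixAct] at h

theorem fixAct_pop_inv {Γ S : Type} (e : V ↪ W) (y : W → Bool) {a : Act W Γ S} {f : Γ → S}
    (h : fixAct e y a = .pop f) : a = .pop f := by
  cases a with
  | halt b' => simp [fixAct] at h
  | guess next => simp [fixAct] at h
  | read w next => simp only [fixAct] at h; split_ifs at h
  | push c next => simp [fixAct] at h
  | pop next => simpa [fixAct] using h

/-- the machine with fixed bits -/
noncomputable def fixM (e : V ↪ W) (P : Mach W) (y : W → Bool) : Mach V where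
  Γ := P.Γ
  Conf := P.Conf
  start := P.start
  act q := fixAct e y (P.act q)

theorem fixM_fwd [DecidableEq V] [DecidableEq W] (e : V ↪ W) (P : Mach W) (y : W → Bool)
    (R : V → Bool → Prop) (R' : W → Bool → Prop) (h1 : ∀ v c, R v c → R' (e v) c)
    (h2 : ∀ w, (∀ v, e v ≠ w) → R' w (y w)) {q : (fixM e P y).Conf}
    {s : List (fixM e P y).Γ} {L : List V} {b : Bool} (h : (fixM e P y).Comp R q s L b) :
    ∃ L' : List W, P.Comp R' q s L' b ∧ ∀ v : V, List.count v L = List.count (e v) L' := by
  induction h with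
  | @halt q s b h =>
    exact ⟨[], Mach.Comp.halt (P := P) (q := q) (fixAct_halt_inv e y (a := P.act q) h),
      fun v => by simp⟩
  | @guess q q' s L b next h hq' h₁ ih =>
    obtain ⟨L', ih1, ih2⟩ := ih
    rcases fixAct_guess_inv e y (a := P.act q) h with h3 | ⟨w, next', h3, hw, h4⟩
    · exact ⟨L', Mach.Comp.guess (P := P) (q := q) h3 hq' ih1, ih2⟩
    · have h5 : q' = next' (y w) := by
        have h6 : (q' : P.Conf) ∈ (next : Set P.Conf) := hq'
        have h7 : (q' : P.Conf) ∈ ({next' (y w)} : Set P.Conf) := h4 ▸ h6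
        exact h7
      subst h5
      refine ⟨w :: L', Mach.Comp.read (P := P) (q := q) h3 (h2 w hw) ih1, fun v => ?_⟩
      rw [List.count_cons_of_ne (hw v).symm]
      exact ih2 v
  | @read q s L b v next c h hc h₁ ih =>
    obtain ⟨L', ih1, ih2⟩ := ih
    have h3 := fixAct_read_inv e y (a := P.act q) h
    refine ⟨e v :: L', Mach.Comp.read (P := P) (q := q) h3 (h1 _ _ hc) ih1, fun u => ?_⟩
    rw [List.count_cons, List.count_cons, ih2 u]
    congr 1
    simp
  | @push q s L b c next h h₁ ih =>
    obtain ⟨L', ih1, ih2⟩ := ih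
    exact ⟨L', Mach.Comp.push (P := P) (q := q) (fixAct_push_inv e y (a := P.act q) h) ih1, ih2⟩
  | @pop q s L b c next h h₁ ih =>
    obtain ⟨L', ih1, ih2⟩ := ih
    exact ⟨L', Mach.Comp.pop (P := P) (q := q) (fixAct_pop_inv e y (a := P.act q) h) ih1, ih2⟩

theorem fixM_bwd (e : V ↪ W) (P : Mach W) (y : W → Bool)
    (R : V → Bool → Prop) (R' : W → Bool → Prop) (h1 : ∀ v c, R' (e v) c → R v c)
    (h2 : ∀ w c, (∀ v, e v ≠ w) → R' w c → c = y w) {q : P.Conf} {s : List P.Γ} {L : List W}
    {b : Bool} (h : P.Comp R' q s L b) : ∃ L', (fixM e P y).Comp R q s L' b := by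
  induction h with
  | @halt q s b h =>
    exact ⟨[], Mach.Comp.halt (show fixAct e y (P.act q) = _ by rw [h]; rfl)⟩
  | @guess q q' s L b next h hq' h₁ ih =>
    obtain ⟨L', ih⟩ := ih
    exact ⟨L', Mach.Comp.guess (show fixAct e y (P.act q) = _ by rw [h]; rfl) hq' ih⟩
  | @read q s L b w next c h hc h₁ ih =>
    obtain ⟨L', ih⟩ := ih
    by_cases hw : ∃ v', e v' = w
    · obtain ⟨v', rfl⟩ := hw
      exact ⟨v' :: L', Mach.Comp.read
        (show fixAct e y (P.act q) = _ by rw [h]; exact fixAct_read e y v' next) (h1 _ _ hc) ih⟩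
    · have hw' : ∀ v, e v ≠ w := fun v hv => hw ⟨v, hv⟩
      exact ⟨L', Mach.Comp.guess
        (show fixAct e y (P.act q) = _ by rw [h]; exact fixAct_read' e y w hw' next)
        (show next c ∈ ({next (y w)} : Set P.Conf) from by
          rw [Set.mem_singleton_iff, h2 w c hw' hc]) ih⟩
  | @push q s L b c next h h₁ ih =>
    obtain ⟨L', ih⟩ := ih
    exact ⟨L', Mach.Comp.push (show fixAct e y (P.act q) = _ by rw [h]; rfl) ih⟩
  | @pop q s L b c next h h₁ ih =>
    obtain ⟨L', ih⟩ := ih
    exact ⟨L', Mach.Comp.pop (show fixAct e y (P.act q) = _ by rw [h]; rfl) ih⟩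

end Fix

/-- PART P3. -/
theorem restrict {V W : Type} [DecidableEq V] [DecidableEq W] (e : V ↪ W) (P : Mach W)
    (hs : P.Storeless) (y : W → Bool) :
    ∃ P' : Mach V, P'.Storeless ∧ Fintype.card P'.Conf = Fintype.card P.Conf ∧
      (∀ (x : V → Bool) (z : W → Bool), (∀ v, z (e v) = x v) → (∀ w, (∀ v, e v ≠ w) → z w = y w) →
        ∀ b, P'.Answers x b ↔ P.Answers z b) ∧
      (∀ L b, P'.Path L b → ∃ L', P.Path L' b ∧ ∀ v, L.count v = L'.count (e v)) := by
  refine ⟨fixM e P y, ?_, rfl, ?_, ?_⟩
  · intro q
    have h := hs q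
    exact ⟨fun c next h' => h.1 _ _ (fixAct_push_inv e y (a := P.act q) h'),
      fun next h' => h.2 _ (fixAct_pop_inv e y (a := P.act q) h')⟩
  · intro x z hz1 hz2 b
    constructor
    · rintro ⟨L, hL⟩
      obtain ⟨L', h1, -⟩ := fixM_fwd e P y _ (fun w c => z w = c)
        (fun v c h => by rw [hz1 v]; exact h) (fun w hw => hz2 w hw) hL
      exact ⟨L', h1⟩
    · rintro ⟨L, hL⟩
      obtain ⟨L', h1⟩ := fixM_bwd e P y (fun v c => x v = c) (fun w c => z w = c)
        (fun v c h => by rw [← hz1 v]; exact h)
        (fun w c hw h => by rw [← h]; exact hz2 w hw) hL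
      exact ⟨L', h1⟩
  · intro L b h
    exact fixM_fwd e P y _ (fun _ _ => True) (fun _ _ _ => trivial) (fun _ _ => trivial) h

end Pool.Agent.V8H39.SR
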