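import Mathlib
import Pool.Agent.V8H39.SR.Tree

/-!
# Spread vectors
-/

set_option autoImplicit false
set_option linter.unusedSectionVars false

open Finset

namespace Pool.Agent.V8H39.SR

variable {V : Type} [Fintype V] [DecidableEq V] {F : Type} [Field F] [Fintype F]

theorem card_fun_bool : Nat.card (V → Bool) = 2 ^ Fintype.card V := by
  rw [Nat.card_eq_fintype_card, Fintype.card_fun, Fintype.card_bool]

theorem card_le_all (P : (V → Bool) → Prop) : Nat.card {a // P a} ≤ 2 ^ Fintype.card V := by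
  rw [← card_fun_bool (V := V)]
  exact Nat.card_le_card_of_injective (fun a : {a // P a} => a.1) Subtype.val_injective

theorem card_mono {P Q : (V → Bool) → Prop} (h : ∀ a, P a → Q a) :
    Nat.card {a // P a} ≤ Nat.card {a // Q a} :=
  Nat.card_le_card_of_injective (fun a : {a // P a} => (⟨a.1, h a.1 a.2⟩ : {a // Q a})) (by
    intro a b hab
    have := congrArg (fun c : {a // Q a} => c.1) hab
    exact Subtype.ext this)

/-- `a` on `S`, `a'` outside `S` -/
def swp (S : Finset V) (p : (V → Bool) × (V → Bool)) : (V → Bool) × (V → Bool) :=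
  (fun v => if v ∈ S then p.1 v else p.2 v, fun v => if v ∈ S then p.2 v else p.1 v)

theorem swp_swp (S : Finset V) (p : (V → Bool) × (V → Bool)) : swp S (swp S p) = p := by
  apply Prod.ext
  · funext v
    by_cases hv : v ∈ S <;> simp [swp, hv]
  · funext v
    by_cases hv : v ∈ S <;> simp [swp, hv]

/-- PART S1. Independence: `Φ a a'` depends on `a` only in `S` and on `a'` only outside `S`
(involution on pairs). -/
theorem indep (S : Finset V) (Φ : (V → Bool) → (V → Bool) → Prop)
    (h1 : ∀ a b a', (∀ v ∈ S, a v = b v) → (Φ a a' ↔ Φ b a'))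
    (h2 : ∀ a a' b', (∀ v, v ∉ S → a' v = b' v) → (Φ a a' ↔ Φ a b')) :
    Nat.card {a // Φ a a} * 2 ^ Fintype.card V =
      Nat.card {p : (V → Bool) × (V → Bool) // Φ p.1 p.2} := by
  rw [← card_fun_bool (V := V), ← Nat.card_prod]
  have key : ∀ p : (V → Bool) × (V → Bool), Φ p.1 p.2 ↔ Φ (swp S p).1 (swp S p).1 := by
    intro p
    rw [h1 p.1 (swp S p).1 p.2 (fun v hv => by simp [swp, hv]),
      h2 (swp S p).1 p.2 (swp S p).1 (fun v hv => by simp [swp, hv])]
  refine Nat.card_congr
    { toFun := fun q => ⟨swp S (q.1.1, q.2), ?_⟩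
      invFun := fun p => (⟨(swp S p.1).1, (key p.1).mp p.2⟩, (swp S p.1).2)
      left_inv := ?_
      right_inv := ?_ }
  · rw [key, swp_swp]
    exact q.1.2
  · rintro ⟨⟨a, ha⟩, b⟩
    simp only [swp_swp]
  · rintro ⟨p, hp⟩
    apply Subtype.ext
    simp only [Prod.mk.eta, swp_swp]

theorem spread_zero (K : ℕ) (𝒜 : (V → Bool) → Prop) (u : (V → Bool) → Fin 0 → F) :
    Spread K 0 𝒜 u := by
  intro U v
  have h0 : Module.finrank F U = 0 := by
    have h1 := Submodule.finrank_le U
    rw [Module.finrank_fin_fun] at h1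
    omega
  rw [h0, pow_zero, mul_one, mul_one]
  exact card_le_all _

/-- PART S2 -/
theorem spread_affine {K m : ℕ} {𝒜 : (V → Bool) → Prop} {u : (V → Bool) → Fin m → F}
    (h : Spread K m 𝒜 u) (c : F) (hc : c ≠ 0) (w : Fin m → F) :
    Spread K m 𝒜 (fun a => c • u a + w) := by
  intro U v
  refine le_trans (Nat.mul_le_mul_right _ (card_mono ?_)) (h U (c⁻¹ • (v - w)))
  rintro a ⟨h1, h2⟩
  refine ⟨h1, ?_⟩
  have h3 : c • u a + w - v = c • (u a - c⁻¹ • (v - w)) := by
    rw [smul_sub, smul_smul, mul_inv_cancel₀ hc, one_smul]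
    abel
  rw [h3] at h2
  exact (Submodule.smul_mem_iff U hc).mp h2

theorem card_pairs (Φ : (V → Bool) → (V → Bool) → Prop) (G : (V → Bool) → Prop) (A B : ℕ)
    (h0 : ∀ a a', Φ a a' → G a)
    (h : ∀ a, G a → Nat.card {a' // Φ a a'} * A ≤ B) :
    Nat.card {p : (V → Bool) × (V → Bool) // Φ p.1 p.2} * A ≤ Nat.card {a // G a} * B := by
  classical
  have e : {p : (V → Bool) × (V → Bool) // Φ p.1 p.2} ≃ Σ a : {a // G a}, {a' // Φ a.1 a'} :=
    { toFun := fun p => ⟨⟨p.1.1, h0 _ _ p.2⟩, ⟨p.1.2, p.2⟩⟩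
      invFun := fun q => ⟨(q.1.1, q.2.1), q.2.2⟩
      left_inv := fun p => rfl
      right_inv := fun q => rfl }
  rw [Nat.card_congr e, Nat.card_sigma, Finset.sum_mul, Nat.card_eq_fintype_card]
  refine le_trans (Finset.sum_le_card_nsmul _ _ B fun a _ => h a.1 a.2) ?_
  rw [smul_eq_mul, Finset.card_univ]

/-- `z ↦ Fin.cons 0 z` -/
def consZero (m : ℕ) (F : Type) [Field F] : (Fin m → F) →ₗ[F] (Fin (m + 1) → F) where
  toFun z := Fin.cons 0 z
  map_add' z w := by
    funext i
    refine Fin.cases ?_ (fun j => ?_) i <;> simp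
  map_smul' c z := by
    funext i
    refine Fin.cases ?_ (fun j => ?_) i <;> simp

theorem consZero_apply {m : ℕ} (z : Fin m → F) : consZero m F z = Fin.cons 0 z := rfl

theorem consZero_injective (m : ℕ) : Function.Injective (consZero m F) := by
  intro z w h
  funext i
  have := congrFun h i.succ
  simpa [consZero_apply] using this

theorem finrank_consZero {m : ℕ} (U : Submodule F (Fin (m + 1) → F)) :
    Module.finrank F (U.comap (consZero m F)) =
      Module.finrank F ((U.comap (consZero m F)).map (consZero m F)) :=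
  (Submodule.equivMapOfInjective (consZero m F) (consZero_injective m) _).finrank_eq

theorem cons_mem_iff {m : ℕ} (U : Submodule F (Fin (m + 1) → F)) (e : Fin (m + 1) → F)
    (he : e ∈ U) (v : Fin (m + 1) → F) (g l : F) (hl : l ≠ 0) (hg : g - v 0 = (g - v 0) * e 0)
    (z : Fin m → F) :
    (Fin.cons g (l • z) : Fin (m + 1) → F) - v ∈ U ↔
      z - l⁻¹ • (Fin.tail v + (g - v 0) • Fin.tail e) ∈ U.comap (consZero m F) := by
  rw [← Submodule.smul_mem_iff (U.comap (consZero m F)) hl, Submodule.mem_comap, consZero_apply]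
  have h1 : (Fin.cons g (l • z) : Fin (m + 1) → F) - v =
      Fin.cons 0 (l • (z - l⁻¹ • (Fin.tail v + (g - v 0) • Fin.tail e))) + (g - v 0) • e := by
    rw [smul_sub, smul_smul, mul_inv_cancel₀ hl, one_smul]
    funext i
    refine Fin.cases ?_ (fun j => ?_) i
    · simp only [Pi.sub_apply, Fin.cons_zero, Pi.add_apply, Pi.smul_apply, smul_eq_mul, zero_add]
      exact hg
    · simp only [Pi.sub_apply, Fin.cons_succ, Pi.add_apply, Pi.smul_apply, smul_eq_mul, Fin.tail]
      ring
  rw [h1]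
  constructor
  · intro h
    have := U.sub_mem h (U.smul_mem (g - v 0) he)
    rwa [add_sub_cancel_right] at this
  · intro h
    exact U.add_mem h (U.smul_mem (g - v 0) he)

/-- PART S3. `g`, `l` depend only on `S`, `u` and `𝒜` do not depend on `S`. Proof: let `U₁` be the
space of the `z` with `Fin.cons 0 z ∈ U`. If some element of `U` has a first coordinate different from
zero, then for each `a` the set of the `z` with `Fin.cons (g a) (l a • z) - v ∈ U` is empty or a coset
of `(l a)⁻¹ • U₁ = U₁`, of dimension `finrank U - 1`. Otherwise `g a = v 0`, and the dimension is the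
same. Use `indep`. -/
theorem spread_cons {K m : ℕ} (hK : 1 ≤ K) {𝒜 𝒜' : (V → Bool) → Prop}
    {u : (V → Bool) → Fin m → F} (h : Spread K m 𝒜 u) (S : Finset V) (g l : (V → Bool) → F)
    (hg : ∀ a b, (∀ v ∈ S, a v = b v) → g a = g b)
    (hl : ∀ a b, (∀ v ∈ S, a v = b v) → l a = l b)
    (hu : ∀ a b, (∀ v, v ∉ S → a v = b v) → u a = u b)
    (hA : ∀ a b, (∀ v, v ∉ S → a v = b v) → (𝒜 a ↔ 𝒜 b))
    (hA' : ∀ a, 𝒜' a → 𝒜 a ∧ l a ≠ 0)
    (hfib : ∀ y : F, Nat.card {a // g a = y} * K ≤ 2 ^ Fintype.card V) :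
    Spread K (m + 1) 𝒜' (fun a => Fin.cons (g a) (l a • u a)) := by
  intro U v
  set N := 2 ^ Fintype.card V with hN
  have hN0 : 0 < N := pow_pos (by norm_num) _
  set U₁ := U.comap (consZero m F) with hU₁
  set s := Module.finrank F U₁ with hs
  have hmap : U₁.map (consZero m F) ≤ U := Submodule.map_comap_le _ _
  by_cases hcase : ∃ e ∈ U, e 0 ≠ 0
  · obtain ⟨e', he', he0⟩ := hcase
    obtain ⟨e, he, he1⟩ : ∃ e ∈ U, e 0 = 1 :=
      ⟨(e' 0)⁻¹ • e', U.smul_mem _ he', by simp [he0]⟩
    have hlt : s + 1 ≤ Module.finrank F U := by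
      rw [hs, hU₁, finrank_consZero]
      refine Submodule.finrank_lt_finrank_of_lt (lt_of_le_of_ne hmap ?_)
      intro heq
      have h1 : e ∈ U₁.map (consZero m F) := heq ▸ he
      obtain ⟨z, _, hz⟩ := h1
      have h2 := congrFun hz 0
      rw [consZero_apply, Fin.cons_zero, he1] at h2
      exact zero_ne_one h2
    let w : (V → Bool) → (Fin m → F) := fun a => (l a)⁻¹ • (Fin.tail v + (g a - v 0) • Fin.tail e)
    let Φ : (V → Bool) → (V → Bool) → Prop := fun a a' => l a ≠ 0 ∧ 𝒜 a' ∧ u a' - w a ∈ U₁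
    have hΦ := indep S Φ (fun a b a' hab => by simp only [Φ, w, hg a b hab, hl a b hab])
      (fun a a' b' hab => by simp only [Φ, hu a' b' hab, hA a' b' hab])
    have h3 : Nat.card {p : (V → Bool) × (V → Bool) // Φ p.1 p.2} * K ^ m ≤
        Nat.card {a : V → Bool // True} * (N * K ^ s) := by
      refine card_pairs Φ (fun _ => True) _ _ (fun _ _ _ => trivial) fun a _ => ?_
      exact le_trans (Nat.mul_le_mul_right _ (card_mono fun a' ha' => ⟨ha'.2.1, ha'.2.2⟩)) (h U₁ (w a))
    rw [← hΦ] at h3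
    have h4 := le_trans h3 (Nat.mul_le_mul_right _ (card_le_all _))
    have h5 : Nat.card {a // Φ a a} * K ^ m ≤ N * K ^ s := by
      refine Nat.le_of_mul_le_mul_left (c := N) ?_ hN0
      calc N * (Nat.card {a // Φ a a} * K ^ m) = Nat.card {a // Φ a a} * N * K ^ m := by ring
        _ ≤ N * (N * K ^ s) := h4
    have h6 : Nat.card {a // 𝒜' a ∧ (Fin.cons (g a) (l a • u a) : Fin (m + 1) → F) - v ∈ U} ≤
        Nat.card {a // Φ a a} := by
      refine card_mono fun a ha => ?_
      obtain ⟨ha1, ha2⟩ := ha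
      refine ⟨(hA' a ha1).2, (hA' a ha1).1, ?_⟩
      exact (cons_mem_iff U e he v (g a) (l a) (hA' a ha1).2 (by rw [he1, mul_one]) (u a)).mp ha2
    calc _ ≤ Nat.card {a // Φ a a} * K ^ (m + 1) := Nat.mul_le_mul_right _ h6
      _ = (Nat.card {a // Φ a a} * K ^ m) * K := by ring
      _ ≤ (N * K ^ s) * K := Nat.mul_le_mul_right _ h5
      _ = N * K ^ (s + 1) := by ring
      _ ≤ N * K ^ Module.finrank F U := Nat.mul_le_mul_left _ (Nat.pow_le_pow_right hK hlt)
  · push Not at hcase
    have hle : s ≤ Module.finrank F U := by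
      rw [hs, hU₁, finrank_consZero]
      exact Submodule.finrank_mono hmap
    let w : (V → Bool) → (Fin m → F) := fun a => (l a)⁻¹ • (Fin.tail v + (g a - v 0) • Fin.tail (0 : Fin (m + 1) → F))
    let Φ : (V → Bool) → (V → Bool) → Prop :=
      fun a a' => g a = v 0 ∧ l a ≠ 0 ∧ 𝒜 a' ∧ u a' - w a ∈ U₁
    have hΦ := indep S Φ (fun a b a' hab => by simp only [Φ, w, hg a b hab, hl a b hab])
      (fun a a' b' hab => by simp only [Φ, hu a' b' hab, hA a' b' hab])
    have h3 : Nat.card {p : (V → Bool) × (V → Bool) // Φ p.1 p.2} * K ^ m ≤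
        Nat.card {a : V → Bool // g a = v 0} * (N * K ^ s) := by
      refine card_pairs Φ (fun a => g a = v 0) _ _ (fun _ _ h => h.1) fun a _ => ?_
      exact le_trans (Nat.mul_le_mul_right _ (card_mono fun a' ha' => ⟨ha'.2.2.1, ha'.2.2.2⟩))
        (h U₁ (w a))
    rw [← hΦ] at h3
    have h5 : Nat.card {a // Φ a a} * K ^ (m + 1) ≤ N * K ^ s := by
      refine Nat.le_of_mul_le_mul_left (c := N) ?_ hN0
      calc N * (Nat.card {a // Φ a a} * K ^ (m + 1)) = (Nat.card {a // Φ a a} * N * K ^ m) * K := by ring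
        _ ≤ (Nat.card {a : V → Bool // g a = v 0} * (N * K ^ s)) * K := Nat.mul_le_mul_right _ h3
        _ = (Nat.card {a : V → Bool // g a = v 0} * K) * (N * K ^ s) := by ring
        _ ≤ N * (N * K ^ s) := Nat.mul_le_mul_right _ (hfib (v 0))
    have h6 : Nat.card {a // 𝒜' a ∧ (Fin.cons (g a) (l a • u a) : Fin (m + 1) → F) - v ∈ U} ≤
        Nat.card {a // Φ a a} := by
      refine card_mono fun a ha => ?_
      obtain ⟨ha1, ha2⟩ := ha
      have h7 : g a = v 0 := by
        have := hcase _ ha2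
        rwa [Pi.sub_apply, Fin.cons_zero, sub_eq_zero] at this
      refine ⟨h7, (hA' a ha1).2, (hA' a ha1).1, ?_⟩
      exact (cons_mem_iff U 0 U.zero_mem v (g a) (l a) (hA' a ha1).2 (by rw [h7]; simp) (u a)).mp ha2
    calc _ ≤ Nat.card {a // Φ a a} * K ^ (m + 1) := Nat.mul_le_mul_right _ h6
      _ ≤ N * K ^ s := h5
      _ ≤ N * K ^ Module.finrank F U := Nat.mul_le_mul_left _ (Nat.pow_le_pow_right hK hle)

/-- PART S4. Orthogonality. -/
theorem rect_bound {K m : ℕ} (hK : 1 ≤ K) {𝒜 ℬ RA RB : (V → Bool) → Prop}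
    {u w : (V → Bool) → Fin m → F} (hu : Spread K m 𝒜 u) (hw : Spread K m ℬ w)
    (hA : ∀ a, RA a → 𝒜 a) (hB : ∀ b, RB b → ℬ b) (p t : F)
    (h : ∀ a b, RA a → RB b → p + ∑ l, u a l * w b l = t) :
    Nat.card {a // RA a} * Nat.card {b // RB b} * K ^ m ≤ 4 ^ Fintype.card V := by
  by_cases hRA : ∃ a₀, RA a₀
  swap
  · have : IsEmpty {a // RA a} := ⟨fun a => hRA ⟨a.1, a.2⟩⟩
    rw [Nat.card_of_isEmpty, zero_mul, zero_mul]
    exact Nat.zero_le _
  by_cases hRB : ∃ b₀, RB b₀
  swap
  · have : IsEmpty {b // RB b} := ⟨fun a => hRB ⟨a.1, a.2⟩⟩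
    rw [Nat.card_of_isEmpty (α := {b // RB b}), mul_zero, zero_mul]
    exact Nat.zero_le _
  obtain ⟨a₀, ha₀⟩ := hRA
  obtain ⟨b₀, hb₀⟩ := hRB
  set W : Submodule F (Fin m → F) := Submodule.span F {z | ∃ b, RB b ∧ z = w b - w b₀} with hW
  set U : Submodule F (Fin m → F) := W.dualAnnihilator.comap (dotProductEquiv F (Fin m)).toLinearMap
    with hU
  have hfin : Module.finrank F U + Module.finrank F W = m := by
    have h1 : Module.finrank F U = Module.finrank F W.dualAnnihilator := by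
      rw [hU]
      have h0 : (W.dualAnnihilator.comap (dotProductEquiv F (Fin m)).toLinearMap).map
          (dotProductEquiv F (Fin m)).toLinearMap = W.dualAnnihilator :=
        Submodule.map_comap_eq_of_surjective (dotProductEquiv F (Fin m)).surjective _
      have h3 := LinearEquiv.finrank_map_eq (dotProductEquiv F (Fin m))
        (W.dualAnnihilator.comap (dotProductEquiv F (Fin m)).toLinearMap)
      rw [← h3]
      exact congrArg (fun Z : Submodule F (Module.Dual F (Fin m → F)) => Module.finrank F Z) h0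
    have h2 := Subspace.finrank_add_finrank_dualAnnihilator_eq W
    rw [Module.finrank_fin_fun] at h2
    omega
  have hmemU : ∀ a, RA a → u a - u a₀ ∈ U := by
    intro a ha
    rw [hU, Submodule.mem_comap, Submodule.mem_dualAnnihilator]
    intro z hz
    change (u a - u a₀) ⬝ᵥ z = 0
    rw [hW] at hz
    induction hz using Submodule.span_induction with
    | mem z hz =>
      obtain ⟨b, hb, rfl⟩ := hz
      have e1 := h a b ha hb
      have e2 := h a₀ b ha₀ hb
      have e3 := h a b₀ ha hb₀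
      have e4 := h a₀ b₀ ha₀ hb₀
      have : (u a - u a₀) ⬝ᵥ (w b - w b₀) =
          (p + ∑ l, u a l * w b l) - (p + ∑ l, u a₀ l * w b l) - (p + ∑ l, u a l * w b₀ l) +
          (p + ∑ l, u a₀ l * w b₀ l) := by
        rw [sub_dotProduct, dotProduct_sub, dotProduct_sub]
        simp only [dotProduct]
        ring
      rw [this, e1, e2, e3, e4]
      ring
    | zero => simp
    | add x y _ _ hx hy => rw [dotProduct_add, hx, hy, add_zero]
    | smul c x _ hx => rw [dotProduct_smul, hx, smul_zero]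
  have hmemW : ∀ b, RB b → w b - w b₀ ∈ W := fun b hb => Submodule.subset_span ⟨b, hb, rfl⟩
  have k1 : Nat.card {a // RA a} * K ^ m ≤ 2 ^ Fintype.card V * K ^ Module.finrank F U :=
    le_trans (Nat.mul_le_mul_right _ (card_mono fun a ha => ⟨hA a ha, hmemU a ha⟩)) (hu U (u a₀))
  have k2 : Nat.card {b // RB b} * K ^ m ≤ 2 ^ Fintype.card V * K ^ Module.finrank F W :=
    le_trans (Nat.mul_le_mul_right _ (card_mono fun b hb => ⟨hB b hb, hmemW b hb⟩)) (hw W (w b₀))
  have hKm : 0 < K ^ m := pow_pos hK m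
  refine Nat.le_of_mul_le_mul_left (c := K ^ m) ?_ hKm
  calc K ^ m * (Nat.card {a // RA a} * Nat.card {b // RB b} * K ^ m) =
      (Nat.card {a // RA a} * K ^ m) * (Nat.card {b // RB b} * K ^ m) := by ring
    _ ≤ (2 ^ Fintype.card V * K ^ Module.finrank F U) *
        (2 ^ Fintype.card V * K ^ Module.finrank F W) := Nat.mul_le_mul k1 k2
    _ = (2 ^ Fintype.card V * 2 ^ Fintype.card V) * K ^ (Module.finrank F U + Module.finrank F W) := by
        ring
    _ = K ^ m * 4 ^ Fintype.card V := by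
        rw [hfin, ← mul_pow]
        norm_num [mul_comm]

end Pool.Agent.V8H39.SR
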