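import Mathlib
import Pool.Agent.V8H39.SR.Spread

/-!
# Few inputs in a combinatorial rectangle
-/

set_option autoImplicit false

open Finset

namespace Pool.Agent.V8H39.SR

/-- exchange of `x` with `a` on `A` and with `b` on `B \ A` -/
def rot {V : Type} [DecidableEq V] (A B : Finset V)
    (p : (V → Bool) × (V → Bool) × (V → Bool)) : (V → Bool) × (V → Bool) × (V → Bool) :=
  (mix A B p.1 p.2.1 p.2.2, fun v => if v ∈ A then p.1 v else p.2.1 v,
    fun v => if v ∈ A then p.2.2 v else if v ∈ B then p.1 v else p.2.2 v)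

theorem rot_rot {V : Type} [DecidableEq V] (A B : Finset V)
    (p : (V → Bool) × (V → Bool) × (V → Bool)) : rot A B (rot A B p) = p := by
  obtain ⟨x, a, b⟩ := p
  unfold rot mix
  refine Prod.ext ?_ (Prod.ext ?_ ?_) <;> funext v <;> dsimp only <;> split_ifs <;> rfl

/-- **Rectangles.** -/
theorem count_bound {V : Type} [Fintype V] [DecidableEq V] {F : Type} [Field F] [Fintype F]
    {K m : ℕ} (hK : 1 ≤ K) (A B : Finset V) (f : (V → Bool) → F) (Ni R : (V → Bool) → Prop) (t : F)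
    (hrep : ∀ x, ∃ (p : F) (u w : (V → Bool) → Fin m → F),
      (∀ a b, f (mix A B x a b) = p + ∑ l, u a l * w b l) ∧
      Spread K m (fun a => ∃ b, Ni (mix A B x a b)) u ∧
      Spread K m (fun b => ∃ a, Ni (mix A B x a b)) w)
    (hN : ∀ x, R x → Ni x)
    (hmix : ∀ x y, R x → R y → (∀ v, v ∉ A → v ∉ B → x v = y v) →
      f (fun v => if v ∈ A then x v else y v) = t) :
    Nat.card {x // R x} * K ^ m ≤ 2 ^ Fintype.card V := by
  classical
  have hx : ∀ x : V → Bool, Nat.card {a // ∃ b, R (mix A B x a b)} *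
      Nat.card {b // ∃ a, R (mix A B x a b)} * K ^ m ≤ 4 ^ Fintype.card V := by
    intro x
    obtain ⟨p, u, w, h1, h2, h3⟩ := hrep x
    refine rect_bound hK h2 h3 ?_ ?_ p t ?_
    · rintro a ⟨b, hb⟩
      exact ⟨b, hN _ hb⟩
    · rintro b ⟨a, ha⟩
      exact ⟨a, hN _ ha⟩
    · rintro a b ⟨b', hb'⟩ ⟨a', ha'⟩
      rw [← h1, ← hmix _ _ hb' ha' ?_]
      · congr 1
        funext v
        unfold mix
        split_ifs <;> rfl
      · intro v hvA hvB
        unfold mix
        rw [if_neg hvA, if_neg hvB, if_neg hvA, if_neg hvB]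
  have h1 : Nat.card {p : (V → Bool) × (V → Bool) × (V → Bool) // R (mix A B p.1 p.2.1 p.2.2)} =
      Nat.card {x // R x} * 4 ^ Fintype.card V := by
    have h2 : Nat.card ((V → Bool) × (V → Bool)) = 4 ^ Fintype.card V := by
      rw [Nat.card_prod, card_fun_bool, ← mul_pow]
      norm_num
    rw [← h2, ← Nat.card_prod]
    refine Nat.card_congr ⟨fun p => (⟨(rot A B p.1).1, p.2⟩, (rot A B p.1).2),
      fun p => ⟨rot A B (p.1.1, p.2), ?_⟩, ?_, ?_⟩
    · have h3 := congrArg Prod.fst (rot_rot A B (p.1.1, p.2))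
      have h4 : mix A B (rot A B (p.1.1, p.2)).1 (rot A B (p.1.1, p.2)).2.1
          (rot A B (p.1.1, p.2)).2.2 = p.1.1 := h3
      rw [h4]
      exact p.1.2
    · rintro ⟨p, hp⟩
      apply Subtype.ext
      exact rot_rot A B p
    · rintro ⟨⟨x, hx⟩, p⟩
      have h3 := rot_rot A B (x, p)
      have h5 := congrArg Prod.fst h3
      have h6 := congrArg Prod.snd h3
      refine Prod.ext (Subtype.ext ?_) ?_
      · exact h5
      · exact h6
  have h2 : Nat.card {p : (V → Bool) × (V → Bool) × (V → Bool) // R (mix A B p.1 p.2.1 p.2.2)} ≤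
      ∑ x : V → Bool, Nat.card {a // ∃ b, R (mix A B x a b)} *
        Nat.card {b // ∃ a, R (mix A B x a b)} := by
    have h3 : ∀ x : V → Bool, Nat.card {a // ∃ b, R (mix A B x a b)} *
        Nat.card {b // ∃ a, R (mix A B x a b)} =
        Nat.card ({a // ∃ b, R (mix A B x a b)} × {b // ∃ a, R (mix A B x a b)}) := fun x =>
      (Nat.card_prod _ _).symm
    simp only [h3]
    rw [← Nat.card_sigma]
    refine Nat.card_le_card_of_injective (fun p => ⟨p.1.1, ⟨p.1.2.1, p.1.2.2, p.2⟩,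
      ⟨p.1.2.2, p.1.2.1, p.2⟩⟩) ?_
    rintro ⟨⟨x, a, b⟩, hp⟩ ⟨⟨x', a', b'⟩, hp'⟩ h
    have e1 := congrArg (fun z : (Σ x : V → Bool, {a // ∃ b, R (mix A B x a b)} ×
      {b // ∃ a, R (mix A B x a b)}) => (z.1, z.2.1.1, z.2.2.1)) h
    exact Subtype.ext e1
  have h4 : Nat.card {x // R x} * K ^ m * 4 ^ Fintype.card V ≤
      2 ^ Fintype.card V * 4 ^ Fintype.card V :=
    calc Nat.card {x // R x} * K ^ m * 4 ^ Fintype.card V
        = (Nat.card {x // R x} * 4 ^ Fintype.card V) * K ^ m := by ring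
      _ ≤ (∑ x : V → Bool, Nat.card {a // ∃ b, R (mix A B x a b)} *
        Nat.card {b // ∃ a, R (mix A B x a b)}) * K ^ m := by
          rw [← h1]
          exact Nat.mul_le_mul_right _ h2
      _ = ∑ x : V → Bool, Nat.card {a // ∃ b, R (mix A B x a b)} *
        Nat.card {b // ∃ a, R (mix A B x a b)} * K ^ m := sum_mul _ _ _
      _ ≤ ∑ _x : V → Bool, 4 ^ Fintype.card V := sum_le_sum fun x _ => hx x
      _ = 2 ^ Fintype.card V * 4 ^ Fintype.card V := by
          rw [sum_const, card_univ, smul_eq_mul, ← Nat.card_eq_fintype_card, card_fun_bool]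
  exact Nat.le_of_mul_le_mul_right h4 (by positivity)

end Pool.Agent.V8H39.SR
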