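import Mathlib
import Pool.Agent.V8H39.SR.Chain
import Pool.Agent.V8H39.SR.Spread
import Pool.Agent.V8H43.SRC

/-!
# The tree function along a chain: preparations
-/

set_option autoImplicit false

open Finset

namespace Pool.Agent.V8H39.SR

section basic

variable {D : ℕ} {ι : Type} {h : ℕ}

/-- a bit of the root -/
def nd (e : ι) : Var D ι (h + 1) := (Sum.inl e : ι ⊕ (Fin D × Var D ι h))

/-- a bit of the subtree `p` -/
def ch (p : Fin D) (v : Var D ι h) : Var D ι (h + 1) :=
  (Sum.inr (p, v) : ι ⊕ (Fin D × Var D ι h))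

theorem root_eq (x : Var D ι (h + 1) → Bool) (e : ι) : root x e = x (nd e) := rfl

theorem sub_eq (x : Var D ι (h + 1) → Bool) (p : Fin D) (v : Var D ι h) :
    sub x p v = x (ch p v) := rfl

theorem lift_apply (p : Fin D) (v : Var D ι h) : lift p v = ch p v := rfl

theorem ch_inj {p p' : Fin D} {v v' : Var D ι h} : ch p v = ch p' v' ↔ p = p' ∧ v = v' := by
  constructor
  · intro h1
    have h2 : (Sum.inr (p, v) : ι ⊕ (Fin D × Var D ι h)) = Sum.inr (p', v') := h1
    simpa using h2
  · rintro ⟨rfl, rfl⟩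
    rfl

theorem nd_ne_ch {e : ι} {p : Fin D} {v : Var D ι h} : nd e ≠ ch p v := by
  intro h1
  have h2 : (Sum.inl e : ι ⊕ (Fin D × Var D ι h)) = Sum.inr (p, v) := h1
  simp at h2

theorem ch_mem_lift {p p' : Fin D} {v : Var D ι h} {A : Finset (Var D ι h)} :
    ch p' v ∈ A.map (lift p) ↔ p' = p ∧ v ∈ A := by
  rw [mem_map]
  constructor
  · rintro ⟨w, hw, h1⟩
    rw [lift_apply, ch_inj] at h1
    obtain ⟨rfl, rfl⟩ := h1
    exact ⟨rfl, hw⟩
  · rintro ⟨rfl, hv⟩
    exact ⟨v, hv, rfl⟩

theorem nd_mem_lift {p : Fin D} {e : ι} {A : Finset (Var D ι h)} : ¬ nd e ∈ A.map (lift p) := by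
  rw [mem_map]
  rintro ⟨w, hw, h1⟩
  exact nd_ne_ch h1.symm

variable [DecidableEq ι]

/-- `c` on `J`, `x` elsewhere -/
def ovr {V : Type} [DecidableEq V] (J : Finset V) (x c : V → Bool) : V → Bool :=
  fun v => if v ∈ J then c v else x v

theorem root_mix {A B : Finset (Var D ι (h + 1))} (hA : ∀ e, nd e ∉ A) (hB : ∀ e, nd e ∉ B)
    (x a b : Var D ι (h + 1) → Bool) : root (mix A B x a b) = root x := by
  funext e
  rw [root_eq, root_eq]
  unfold mix
  rw [if_neg (hA e), if_neg (hB e)]

theorem sub_mix {A B : Finset (Var D ι (h + 1))} {A' B' : Finset (Var D ι h)} (p : Fin D)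
    (hA : ∀ v, ch p v ∈ A ↔ v ∈ A') (hB : ∀ v, ch p v ∈ B ↔ v ∈ B')
    (x a b : Var D ι (h + 1) → Bool) :
    sub (mix A B x a b) p = mix A' B' (sub x p) (sub a p) (sub b p) := by
  funext v
  rw [sub_eq]
  unfold mix
  rw [sub_eq, sub_eq, sub_eq]
  by_cases h1 : v ∈ A'
  · rw [if_pos ((hA v).2 h1), if_pos h1]
  · rw [if_neg (fun h2 => h1 ((hA v).1 h2)), if_neg h1]
    by_cases h3 : v ∈ B'
    · rw [if_pos ((hB v).2 h3), if_pos h3]
    · rw [if_neg (fun h2 => h3 ((hB v).1 h2)), if_neg h3]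

theorem mix_empty (x a b : Var D ι h → Bool) : mix ∅ ∅ x a b = x := by
  funext v
  simp [mix]

theorem mix_right {J : Finset (Var D ι h)} (x a b : Var D ι h → Bool) :
    mix ∅ J x a b = ovr J x b := by
  funext v
  simp [mix, ovr]

theorem mix_left {J : Finset (Var D ι h)} (x a b : Var D ι h → Bool) :
    mix J ∅ x a b = ovr J x a := by
  funext v
  simp [mix, ovr]

end basic

section count

variable {V W : Type} [Fintype V] [Fintype W]

theorem card_comp (e : V → W) (he : Function.Injective e) (Φ : (V → Bool) → Prop) :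
    Nat.card {a : W → Bool // Φ (fun v => a (e v))} * 2 ^ Fintype.card V =
      2 ^ Fintype.card W * Nat.card {a : V → Bool // Φ a} := by
  classical
  obtain ⟨e1, he1⟩ : ∃ e1 : (W → Bool) ≃ ({w // w ∈ Set.range e} → Bool) ×
      ({w // ¬ w ∈ Set.range e} → Bool), ∀ a w, (e1 a).1 w = a w :=
    ⟨Equiv.piEquivPiSubtypeProd (fun w => w ∈ Set.range e) (fun _ => Bool), fun _ _ => rfl⟩
  obtain ⟨E, hE⟩ : ∃ E : (W → Bool) ≃ (V → Bool) × ({w // ¬ w ∈ Set.range e} → Bool),
      ∀ a v, (E a).1 v = a (e v) :=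
    ⟨e1.trans (Equiv.prodCongr (Equiv.arrowCongr (Equiv.ofInjective e he).symm (Equiv.refl Bool))
        (Equiv.refl _)), fun a v => he1 a _⟩
  have h1 : Nat.card {a : W → Bool // Φ (fun v => a (e v))} =
      Nat.card {a : V → Bool // Φ a} * Nat.card ({w // ¬ w ∈ Set.range e} → Bool) := by
    rw [← Nat.card_prod]
    refine Nat.card_congr ⟨fun a => (⟨(E a.1).1, by
      have : (E a.1).1 = fun v => a.1 (e v) := funext fun v => hE a.1 v
      rw [this]; exact a.2⟩, (E a.1).2), fun p => ⟨E.symm (p.1.1, p.2), by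
        have : (fun v => E.symm (p.1.1, p.2) (e v)) = p.1.1 := by
          funext v
          exact (hE (E.symm (p.1.1, p.2)) v).symm.trans (by rw [Equiv.apply_symm_apply])
        rw [this]; exact p.1.2⟩, fun a => ?_, fun p => ?_⟩
    · apply Subtype.ext
      simp
    · apply Prod.ext
      · apply Subtype.ext
        simp
      · simp
  have h2 : 2 ^ Fintype.card W = 2 ^ Fintype.card V * Nat.card ({w // ¬ w ∈ Set.range e} → Bool) := by
    have h3 := Nat.card_congr E
    rw [Nat.card_prod, Nat.card_eq_fintype_card, Fintype.card_fun, Fintype.card_bool] at h3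
    rw [h3, Nat.card_eq_fintype_card, Fintype.card_fun, Fintype.card_bool]
  rw [h1, h2]
  ring

end count

section spread

variable {V W : Type} [Fintype V] [Fintype W] {F : Type} [Field F]

theorem Spread.mono {K m : ℕ} {𝒜 𝒜' : (V → Bool) → Prop} {u : (V → Bool) → Fin m → F}
    (h : Spread K m 𝒜 u) (hA : ∀ a, 𝒜' a → 𝒜 a) : Spread K m 𝒜' u := by
  classical
  intro U v
  refine le_trans (Nat.mul_le_mul_right _ ?_) (h U v)
  exact Nat.card_le_card_of_injective (fun a => ⟨a.1, hA _ a.2.1, a.2.2⟩) fun a b hab => by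
    apply Subtype.ext
    simpa using hab

theorem spread_empty {K m : ℕ} {𝒜 : (V → Bool) → Prop} {u : (V → Bool) → Fin m → F}
    (h : ∀ a, ¬ 𝒜 a) : Spread K m 𝒜 u := by
  intro U v
  have : IsEmpty {a // 𝒜 a ∧ u a - v ∈ U} := ⟨fun a => h _ a.2.1⟩
  rw [Nat.card_of_isEmpty, zero_mul]
  exact Nat.zero_le _

theorem Spread.comp {K m : ℕ} {𝒜 : (V → Bool) → Prop} {u : (V → Bool) → Fin m → F}
    (h : Spread K m 𝒜 u) (e : V → W) (he : Function.Injective e) :
    Spread K m (fun a : W → Bool => 𝒜 (fun v => a (e v))) (fun a => u (fun v => a (e v))) := by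
  intro U v
  have h1 := card_comp e he (fun a => 𝒜 a ∧ u a - v ∈ U)
  have h2 := h U v
  have hpos : 0 < 2 ^ Fintype.card V := pow_pos (by norm_num) _
  refine Nat.le_of_mul_le_mul_right ?_ hpos
  calc Nat.card {a : W → Bool // 𝒜 (fun v => a (e v)) ∧ u (fun v => a (e v)) - v ∈ U} * K ^ m *
        2 ^ Fintype.card V
      = (Nat.card {a : W → Bool // 𝒜 (fun v => a (e v)) ∧ u (fun v => a (e v)) - v ∈ U} *
        2 ^ Fintype.card V) * K ^ m := by ring
    _ = 2 ^ Fintype.card W * (Nat.card {a // 𝒜 a ∧ u a - v ∈ U} * K ^ m) := by rw [h1]; ring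
    _ ≤ 2 ^ Fintype.card W * (2 ^ Fintype.card V * K ^ Module.finrank F U) :=
        Nat.mul_le_mul_left _ h2
    _ = _ := by ring

end spread

section flip

set_option linter.unusedSectionVars false

variable {D : ℕ} {F : Type} [Field F] [Fintype F] [DecidableEq F] {h : ℕ}

/-- the product of the values beside the path to a leaf -/
def qf : (h : ℕ) → Leaf D h → (Var D F h → Bool) → F
  | 0, _, _ => 1
  | h + 1, (p, l), x => oth x p * qf h l (sub x p)

theorem val_succ (x : Var D F (h + 1) → Bool) (p : Fin D) :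
    val (h + 1) x = blk (root x) + oth x p * val h (sub x p) := by
  have h1 : val (h + 1) x = blk (root x) + ∏ p, val h (sub x p) := rfl
  rw [h1]
  unfold oth
  rw [Finset.prod_erase_mul _ _ (mem_univ p)]

theorem sub_update_same (x : Var D F (h + 1) → Bool) (p : Fin D) (v : Var D F h) (b : Bool) :
    sub (Function.update x (ch p v) b) p = Function.update (sub x p) v b := by
  funext w
  rw [sub_eq]
  by_cases hw : w = v
  · subst hw
    rw [Function.update_self, Function.update_self]
  · rw [Function.update_of_ne hw, Function.update_of_ne, sub_eq]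
    intro h1
    exact hw (ch_inj.1 h1).2

theorem sub_update_ne (x : Var D F (h + 1) → Bool) {p p' : Fin D} (hp : p' ≠ p) (v : Var D F h)
    (b : Bool) : sub (Function.update x (ch p v) b) p' = sub x p' := by
  funext w
  rw [sub_eq, Function.update_of_ne, sub_eq]
  intro h1
  exact hp (ch_inj.1 h1).1

theorem root_update (x : Var D F (h + 1) → Bool) (p : Fin D) (v : Var D F h) (b : Bool) :
    root (Function.update x (ch p v) b) = root x := by
  funext w
  rw [root_eq, Function.update_of_ne nd_ne_ch, root_eq]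

theorem oth_congr {x x' : Var D F (h + 1) → Bool} {p : Fin D}
    (hx : ∀ p' ≠ p, sub x p' = sub x' p') : oth x p = oth x' p := by
  unfold oth
  exact prod_congr rfl fun p' hp' => by rw [hx p' (ne_of_mem_erase hp')]

theorem leaf_flip [CharP F 2] : ∀ (h : ℕ) (l : Leaf D h) (x : Var D F h → Bool) (e : F),
    val h (Function.update x (leafVar h l e) (!x (leafVar h l e))) = val h x + qf h l x * e
  | 0, _, x, e => by
    change blk (Function.update (fun e : F => x e) e (!x e)) = blk (fun e : F => x e) + 1 * e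
    rw [blk_flip (fun e : F => x e) e, one_mul]
  | h + 1, (p, l), x, e => by
    have h0 : leafVar (h + 1) (p, l) e = ch p (leafVar h l e) := rfl
    have h1 : x (ch p (leafVar h l e)) = sub x p (leafVar h l e) := rfl
    have h2 : qf (h + 1) (p, l) x = oth x p * qf h l (sub x p) := rfl
    rw [h0, h1, h2, val_succ _ p, val_succ x p, sub_update_same, root_update,
      leaf_flip h l (sub x p) e, oth_congr (fun p' hp' => sub_update_ne x hp' _ _)]
    ring

theorem qf_congr : ∀ (h : ℕ) (l : Leaf D h) (x x' : Var D F h → Bool),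
    (∀ v, (∀ e, v ≠ leafVar h l e) → x v = x' v) → qf h l x = qf h l x'
  | 0, _, _, _, _ => rfl
  | h + 1, (p, l), x, x', hx => by
    have h1 : ∀ x : Var D F (h + 1) → Bool, qf (h + 1) (p, l) x = oth x p * qf h l (sub x p) :=
      fun _ => rfl
    have h2 : oth x p = oth x' p := oth_congr fun p' hp' => by
      funext v
      exact hx (ch p' v) fun e he => hp' (ch_inj.1 he).1
    have h3 : qf h l (sub x p) = qf h l (sub x' p) := qf_congr h l (sub x p) (sub x' p)
      fun v hv => hx (ch p v) fun e he => hv e (ch_inj.1 he).2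
    rw [h1, h1, h2, h3]

theorem Nice.val_ne : ∀ {h : ℕ} {x : Var D F h → Bool}, Nice h x → val h x ≠ 0
  | 0, _, hx => hx
  | _ + 1, _, hx => hx.1

theorem Nice.sub {x : Var D F (h + 1) → Bool} (hx : Nice (h + 1) x) (p : Fin D) :
    Nice h (sub x p) := hx.2.2 p

theorem Nice.hval_ne : ∀ {h : ℕ} {x : Var D F h → Bool}, Nice h x → ∀ π, hval h π x ≠ 0
  | 0, _, _, π => π.elim
  | _ + 1, _, hx, π => hx.2.1 π

theorem Nice.oth_ne {x : Var D F (h + 1) → Bool} (hx : Nice (h + 1) x) (p : Fin D) :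
    oth x p ≠ 0 := by
  unfold oth
  exact prod_ne_zero_iff.2 fun p' _ => (hx.sub p').val_ne

theorem Nice.qf_ne : ∀ {h : ℕ} {x : Var D F h → Bool}, Nice h x → ∀ l, qf h l x ≠ 0
  | 0, _, _, _ => one_ne_zero
  | _ + 1, _, hx, (p, l) => mul_ne_zero (hx.oth_ne p) ((hx.sub p).qf_ne l)

end flip

end Pool.Agent.V8H39.SR
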