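import Mathlib
import Pool.Agent.V8H39.SR.Rep

/-!
# The tree function along a chain
-/

set_option autoImplicit false

open Finset

namespace Pool.Agent.V8H39.SR

set_option linter.unusedSectionVars false

variable {D : ℕ} {F : Type} [Field F] [Fintype F] [DecidableEq F] [CharP F 2] {h : ℕ}

/-- even chains -/
def RepE (r : ℕ) (A B : Finset (Var D F h)) (m : ℕ) (x : Var D F h → Bool) : Prop :=
  ∃ (p : F) (u w : (Var D F h → Bool) → Fin m → F),
    (∀ a b, val h (mix A B x a b) = p + ∑ l, u a l * w b l) ∧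
    ((∀ a b, p = val h (mix A B x a b)) ∨ ∃ π, ∀ a b, p = hval h π (mix A B x a b)) ∧
    Spread r m (fun a => ∃ b, Nice h (mix A B x a b)) u ∧
    Spread r m (fun b => ∃ a, Nice h (mix A B x a b)) w

/-- odd chains -/
def RepO (r : ℕ) (A B : Finset (Var D F h)) (m : ℕ) (x : Var D F h → Bool) : Prop :=
  ∃ (p : F) (u : (Var D F h → Bool) → Fin m → F) (w : (Var D F h → Bool) → Fin (m + 1) → F),
    (∀ a b, val h (mix A B x a b) = p + w b 0 + ∑ l : Fin m, u a l * w b l.succ) ∧
    Spread r m (fun a => ∃ b, Nice h (mix A B x a b)) u ∧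
    Spread r (m + 1) (fun b => ∃ a, Nice h (mix A B x a b)) w

/-- the product of the values of the children other than `y` and `z` -/
def oth2 (x : Var D F (h + 1) → Bool) (y z : Fin D) : F :=
  ∏ p' ∈ (univ.erase y).erase z, val h (sub x p')

theorem oth_eq_oth2 (x : Var D F (h + 1) → Bool) {y z : Fin D} (hzy : z ≠ y) :
    oth x y = oth2 x y z * val h (sub x z) := by
  unfold oth oth2
  rw [Finset.prod_erase_mul _ _ (mem_erase.2 ⟨hzy, mem_univ z⟩)]

theorem Nice.oth2_ne {x : Var D F (h + 1) → Bool} (hx : Nice (h + 1) x) (y z : Fin D) :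
    oth2 x y z ≠ 0 := by
  unfold oth2
  exact prod_ne_zero_iff.2 fun p' _ => (hx.sub p').val_ne

/-- an inner node where nothing happens -/
theorem mix_skip (p₀ : Fin D) (A B : Finset (Var D F h)) (x a b : Var D F (h + 1) → Bool) :
    root (mix (A.map (lift p₀)) (B.map (lift p₀)) x a b) = root x ∧
    sub (mix (A.map (lift p₀)) (B.map (lift p₀)) x a b) p₀ =
      mix A B (sub x p₀) (sub a p₀) (sub b p₀) ∧
    ∀ p' ≠ p₀, sub (mix (A.map (lift p₀)) (B.map (lift p₀)) x a b) p' = sub x p' := by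
  refine ⟨root_mix (fun e => nd_mem_lift) (fun e => nd_mem_lift) x a b,
    sub_mix p₀ (fun v => by rw [ch_mem_lift]; simp) (fun v => by rw [ch_mem_lift]; simp) x a b, ?_⟩
  intro p' hp'
  rw [sub_mix (A' := ∅) (B' := ∅) p' (fun v => by rw [ch_mem_lift]; simp [hp'])
    (fun v => by rw [ch_mem_lift]; simp [hp']), mix_empty]

theorem mix_step {y z : Fin D} (hzy : z ≠ y) (A B J J' : Finset (Var D F h))
    (x a b : Var D F (h + 1) → Bool) :
    root (mix (A.map (lift y) ∪ J'.map (lift z)) (B.map (lift y) ∪ J.map (lift z)) x a b) = root x ∧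
    sub (mix (A.map (lift y) ∪ J'.map (lift z)) (B.map (lift y) ∪ J.map (lift z)) x a b) y =
      mix A B (sub x y) (sub a y) (sub b y) ∧
    sub (mix (A.map (lift y) ∪ J'.map (lift z)) (B.map (lift y) ∪ J.map (lift z)) x a b) z =
      mix J' J (sub x z) (sub a z) (sub b z) ∧
    ∀ p', p' ≠ y → p' ≠ z →
      sub (mix (A.map (lift y) ∪ J'.map (lift z)) (B.map (lift y) ∪ J.map (lift z)) x a b) p' =
        sub x p' := by
  have h1 : ∀ e, nd e ∉ A.map (lift y) ∪ J'.map (lift z) := fun e => by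
    rw [mem_union]
    rintro (h | h)
    · exact nd_mem_lift h
    · exact nd_mem_lift h
  have h2 : ∀ e, nd e ∉ B.map (lift y) ∪ J.map (lift z) := fun e => by
    rw [mem_union]
    rintro (h | h)
    · exact nd_mem_lift h
    · exact nd_mem_lift h
  refine ⟨root_mix h1 h2 x a b, sub_mix y ?_ ?_ x a b, sub_mix z ?_ ?_ x a b, ?_⟩
  · intro v
    rw [mem_union, ch_mem_lift, ch_mem_lift]
    simp [hzy.symm]
  · intro v
    rw [mem_union, ch_mem_lift, ch_mem_lift]
    simp [hzy.symm]
  · intro v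
    rw [mem_union, ch_mem_lift, ch_mem_lift]
    simp [hzy]
  · intro v
    rw [mem_union, ch_mem_lift, ch_mem_lift]
    simp [hzy]
  · intro p' h3 h4
    rw [sub_mix (A' := ∅) (B' := ∅) p' (fun v => by
        rw [mem_union, ch_mem_lift, ch_mem_lift]; simp [h3, h4])
      (fun v => by rw [mem_union, ch_mem_lift, ch_mem_lift]; simp [h3, h4]), mix_empty]

/-- the values of a sibling are not concentrated -/
theorem sib_count {K : ℕ} (z : Fin D) (l : Leaf D h) (I : Finset F) (hI : K ≤ I.card)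
    (x : Var D F (h + 1) → Bool) (hq : qf h l (sub x z) ≠ 0) (c : F) (hc : c ≠ 0) (y : F) :
    Nat.card {a : Var D F (h + 1) → Bool //
      c * val h (ovr (I.map (leafEmb l)) (sub x z) (sub a z)) = y} * K ≤
        2 ^ Fintype.card (Var D F (h + 1)) := by
  classical
  obtain ⟨J, hJ⟩ : ∃ J : Finset (Var D F (h + 1)), J = (I.map (leafEmb l)).map (lift z) := ⟨_, rfl⟩
  have hJc : J.card = I.card := by rw [hJ, card_map, card_map]
  have hinj : Function.Injective (fun i : F => (ch z (leafVar h l i) : Var D F (h + 1))) := by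
    intro i j hij
    exact leafVar_inj h l (ch_inj.1 hij).2
  obtain ⟨g, hg⟩ : ∃ g : Var D F (h + 1) → F, ∀ i,
      g (ch z (leafVar h l i)) = c * (qf h l (sub x z) * i) :=
    ⟨Function.extend (fun i : F => (ch z (leafVar h l i) : Var D F (h + 1)))
      (fun i => c * (qf h l (sub x z) * i)) 0, fun i => hinj.extend_apply _ _ i⟩
  have hmem : ∀ v ∈ J, ∃ i ∈ I, v = ch z (leafVar h l i) := by
    intro v hv
    rw [hJ] at hv
    obtain ⟨v', hv', rfl⟩ := mem_map.1 hv
    obtain ⟨i, hi, rfl⟩ := mem_map.1 hv'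
    exact ⟨i, hi, rfl⟩
  have h1 := flip_count (fun a : Var D F (h + 1) → Bool =>
    c * val h (ovr (I.map (leafEmb l)) (sub x z) (sub a z))) J g ?_ ?_ y
  · rw [hJc] at h1
    exact (Nat.mul_le_mul_left _ hI).trans h1
  · intro v hv v' hv' hvv
    obtain ⟨i, hi, rfl⟩ := hmem v hv
    obtain ⟨i', hi', rfl⟩ := hmem v' hv'
    rw [hg, hg] at hvv
    have : i = i' := mul_left_cancel₀ hq (mul_left_cancel₀ hc hvv)
    rw [this]
  · intro a v hv
    obtain ⟨i, hi, rfl⟩ := hmem v hv
    rw [hg]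
    have hiJ : leafVar h l i ∈ I.map (leafEmb l) := mem_map.2 ⟨i, hi, rfl⟩
    have h2 : ovr (I.map (leafEmb l)) (sub x z) (sub (Function.update a (ch z (leafVar h l i))
        (!a (ch z (leafVar h l i)))) z) =
        Function.update (ovr (I.map (leafEmb l)) (sub x z) (sub a z)) (leafVar h l i)
          (!(ovr (I.map (leafEmb l)) (sub x z) (sub a z)) (leafVar h l i)) := by
      rw [sub_update_same]
      funext w
      by_cases hw : w = leafVar h l i
      · subst hw
        unfold ovr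
        rw [if_pos hiJ, Function.update_self, Function.update_self, if_pos hiJ, sub_eq]
      · rw [Function.update_of_ne hw]
        unfold ovr
        rw [Function.update_of_ne hw]
    have h3 : qf h l (ovr (I.map (leafEmb l)) (sub x z) (sub a z)) = qf h l (sub x z) := by
      refine qf_congr h l _ _ fun v hv => ?_
      unfold ovr
      rw [if_neg]
      intro h4
      obtain ⟨j, -, hj⟩ := mem_map.1 h4
      exact hv j hj.symm
    rw [h2, leaf_flip, h3]
    ring

/-- lifting to a tree with one more level -/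
theorem Spread.up {K m : ℕ} {𝒜 : (Var D F h → Bool) → Prop} {u : (Var D F h → Bool) → Fin m → F}
    (hs : Spread K m 𝒜 u) (y : Fin D) :
    Spread K m (fun a : Var D F (h + 1) → Bool => 𝒜 (sub a y)) (fun a => u (sub a y)) :=
  hs.comp (fun v => (ch y v : Var D F (h + 1))) fun _ _ hvw => (ch_inj.1 hvw).2

theorem repE_nil (r : ℕ) (x : Var D F h → Bool) : RepE r (∅ : Finset (Var D F h)) ∅ 0 x := by
  refine ⟨val h x, fun _ => Fin.elim0, fun _ => Fin.elim0, fun a b => ?_, Or.inl fun a b => ?_,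
    spread_zero _ _ _, spread_zero _ _ _⟩
  · rw [mix_empty]
    simp
  · rw [mix_empty]

theorem repE_skip {r m : ℕ} {A B : Finset (Var D F h)} (p₀ : Fin D)
    (x : Var D F (h + 1) → Bool) (hr : RepE r A B m (sub x p₀)) :
    RepE r (A.map (lift p₀)) (B.map (lift p₀)) m x := by
  obtain ⟨p, u, w, h1, h2, h3, h4⟩ := hr
  have hoth : ∀ a b, oth (mix (A.map (lift p₀)) (B.map (lift p₀)) x a b) p₀ = oth x p₀ := fun a b =>
    oth_congr fun p' hp' => (mix_skip p₀ A B x a b).2.2 p' hp'
  have hvv : ∀ a b, val (h + 1) (mix (A.map (lift p₀)) (B.map (lift p₀)) x a b) =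
      blk (root x) + oth x p₀ * val h (mix A B (sub x p₀) (sub a p₀) (sub b p₀)) := by
    intro a b
    rw [val_succ _ p₀, hoth, (mix_skip p₀ A B x a b).1, (mix_skip p₀ A B x a b).2.1]
  refine ⟨blk (root x) + oth x p₀ * p, fun a => u (sub a p₀), fun b => oth x p₀ • w (sub b p₀),
    ?_, ?_, ?_, ?_⟩
  · intro a b
    rw [hvv, h1, mul_add, mul_sum, add_assoc]
    congr 2
    refine sum_congr rfl fun l _ => ?_
    simp only [Pi.smul_apply, smul_eq_mul]
    ring
  · rcases h2 with h2 | ⟨π, h2⟩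
    · left
      intro a b
      rw [hvv, ← h2]
    · right
      refine ⟨(p₀, some π), fun a b => ?_⟩
      have h5 : hval (h + 1) ((p₀, some π) : Hole D (h + 1))
          (mix (A.map (lift p₀)) (B.map (lift p₀)) x a b) =
          blk (root (mix (A.map (lift p₀)) (B.map (lift p₀)) x a b)) +
          oth (mix (A.map (lift p₀)) (B.map (lift p₀)) x a b) p₀ *
            hval h π (sub (mix (A.map (lift p₀)) (B.map (lift p₀)) x a b) p₀) := rfl
      rw [h5, hoth, (mix_skip p₀ A B x a b).1, (mix_skip p₀ A B x a b).2.1, ← h2]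
  · refine (h3.up p₀).mono fun a ha => ?_
    obtain ⟨b, hb⟩ := ha
    refine ⟨sub b p₀, ?_⟩
    rw [← (mix_skip p₀ A B x a b).2.1]
    exact hb.sub p₀
  · by_cases h0 : oth x p₀ = 0
    · refine spread_empty fun b hb => ?_
      obtain ⟨a, ha⟩ := hb
      exact ha.oth_ne p₀ ((hoth a b).trans h0)
    · have h5 := spread_affine (h4.up p₀) (oth x p₀) h0 0
      simp only [add_zero] at h5
      refine h5.mono fun b hb => ?_
      obtain ⟨a, ha⟩ := hb
      refine ⟨sub a p₀, ?_⟩
      rw [← (mix_skip p₀ A B x a b).2.1]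
      exact ha.sub p₀

theorem repO_skip {r m : ℕ} {A B : Finset (Var D F h)} (p₀ : Fin D)
    (x : Var D F (h + 1) → Bool) (hr : RepO r A B m (sub x p₀)) :
    RepO r (A.map (lift p₀)) (B.map (lift p₀)) m x := by
  obtain ⟨p, u, w, h1, h3, h4⟩ := hr
  have hoth : ∀ a b, oth (mix (A.map (lift p₀)) (B.map (lift p₀)) x a b) p₀ = oth x p₀ := fun a b =>
    oth_congr fun p' hp' => (mix_skip p₀ A B x a b).2.2 p' hp'
  have hvv : ∀ a b, val (h + 1) (mix (A.map (lift p₀)) (B.map (lift p₀)) x a b) =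
      blk (root x) + oth x p₀ * val h (mix A B (sub x p₀) (sub a p₀) (sub b p₀)) := by
    intro a b
    rw [val_succ _ p₀, hoth, (mix_skip p₀ A B x a b).1, (mix_skip p₀ A B x a b).2.1]
  refine ⟨blk (root x) + oth x p₀ * p, fun a => u (sub a p₀), fun b => oth x p₀ • w (sub b p₀),
    ?_, ?_, ?_⟩
  · intro a b
    rw [hvv, h1, mul_add, mul_add, mul_sum]
    simp only [Pi.smul_apply, smul_eq_mul]
    rw [add_assoc, add_assoc, add_assoc]
    congr 3
    refine sum_congr rfl fun l _ => ?_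
    ring
  · refine (h3.up p₀).mono fun a ha => ?_
    obtain ⟨b, hb⟩ := ha
    refine ⟨sub b p₀, ?_⟩
    rw [← (mix_skip p₀ A B x a b).2.1]
    exact hb.sub p₀
  · by_cases h0 : oth x p₀ = 0
    · refine spread_empty fun b hb => ?_
      obtain ⟨a, ha⟩ := hb
      exact ha.oth_ne p₀ ((hoth a b).trans h0)
    · have h5 := spread_affine (h4.up p₀) (oth x p₀) h0 0
      simp only [add_zero] at h5
      refine h5.mono fun b hb => ?_
      obtain ⟨a, ha⟩ := hb
      refine ⟨sub a p₀, ?_⟩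
      rw [← (mix_skip p₀ A B x a b).2.1]
      exact ha.sub p₀

theorem ovr_congr {J : Finset (Var D F h)} {z : Fin D} {x : Var D F (h + 1) → Bool}
    {a b : Var D F (h + 1) → Bool} (hab : ∀ v ∈ J.map (lift z), a v = b v) :
    ovr J (sub x z) (sub a z) = ovr J (sub x z) (sub b z) := by
  funext v
  unfold ovr
  by_cases hv : v ∈ J
  · rw [if_pos hv, if_pos hv]
    exact hab _ (mem_map.2 ⟨v, hv, rfl⟩)
  · rw [if_neg hv, if_neg hv]

theorem sub_congr' {J : Finset (Var D F h)} {y z : Fin D} (hzy : z ≠ y)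
    {a b : Var D F (h + 1) → Bool} (hab : ∀ v, v ∉ J.map (lift z) → a v = b v) :
    sub a y = sub b y := by
  funext v
  refine hab (ch y v) ?_
  rw [ch_mem_lift]
  exact fun h1 => hzy h1.1.symm

theorem qf_ovr (l : Leaf D h) (I : Finset F) (x c : Var D F h → Bool) :
    qf h l (ovr (I.map (leafEmb l)) x c) = qf h l x := by
  refine qf_congr h l _ _ fun v hv => ?_
  unfold ovr
  rw [if_neg]
  intro h4
  obtain ⟨j, -, hj⟩ := mem_map.1 h4
  exact hv j hj.symm

theorem repO_stepB {r m : ℕ} (hr1 : 1 ≤ r) {A B : Finset (Var D F h)} {y z : Fin D} (hzy : z ≠ y)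
    (l : Leaf D h) (I : Finset F) (hI : r ≤ I.card) (x : Var D F (h + 1) → Bool)
    (hr : RepE r A B m (sub x y)) :
    RepO r (A.map (lift y)) (B.map (lift y) ∪ (I.map (leafEmb l)).map (lift z)) m x := by
  obtain ⟨p, u, w, h1, h2, h3, h4⟩ := hr
  obtain ⟨J, hJ⟩ : ∃ J : Finset (Var D F h), J = I.map (leafEmb l) := ⟨_, rfl⟩
  rw [← hJ]
  have ms := mix_step hzy A B J ∅ x
  simp only [map_empty, union_empty, mix_right] at ms
  obtain ⟨A₁, hA₁⟩ : ∃ A₁ : Finset (Var D F (h + 1)), A₁ = A.map (lift y) := ⟨_, rfl⟩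
  obtain ⟨B₁, hB₁⟩ : ∃ B₁ : Finset (Var D F (h + 1)), B₁ = B.map (lift y) ∪ J.map (lift z) :=
    ⟨_, rfl⟩
  rw [← hA₁, ← hB₁] at ms ⊢
  have hoth2 : ∀ a b, oth2 (mix A₁ B₁ x a b) y z = oth2 x y z := by
    intro a b
    unfold oth2
    refine prod_congr rfl fun p' hp' => ?_
    rw [(ms a b).2.2.2 p' (ne_of_mem_erase (mem_of_mem_erase hp')) (ne_of_mem_erase hp')]
  have hvv : ∀ a b, val (h + 1) (mix A₁ B₁ x a b) = blk (root x) +
      (oth2 x y z * val h (ovr J (sub x z) (sub b z))) *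
        val h (mix A B (sub x y) (sub a y) (sub b y)) := by
    intro a b
    rw [val_succ _ y, oth_eq_oth2 _ hzy, hoth2, (ms a b).1, (ms a b).2.1, (ms a b).2.2.1]
  refine ⟨blk (root x), fun a => u (sub a y),
    fun b => Fin.cons (oth2 x y z * p * val h (ovr J (sub x z) (sub b z)))
      ((oth2 x y z * val h (ovr J (sub x z) (sub b z))) • w (sub b y)), ?_, ?_, ?_⟩
  · intro a b
    rw [hvv, h1]
    simp only [Fin.cons_zero, Fin.cons_succ, Pi.smul_apply, smul_eq_mul]
    rw [mul_add, mul_sum, ← add_assoc]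
    congr 1
    · ring
    · refine sum_congr rfl fun l _ => ?_
      ring
  · refine (h3.up y).mono fun a ha => ?_
    obtain ⟨b, hb⟩ := ha
    refine ⟨sub b y, ?_⟩
    rw [← (ms a b).2.1]
    exact hb.sub y
  · by_cases hn : ∃ a b, Nice (h + 1) (mix A₁ B₁ x a b)
    · obtain ⟨a₀, b₀, hn⟩ := hn
      have hγ : oth2 x y z ≠ 0 := by
        rw [← hoth2 a₀ b₀]
        exact hn.oth2_ne y z
      have hq : qf h l (sub x z) ≠ 0 := by
        have h5 := (hn.sub z).qf_ne l
        rw [(ms a₀ b₀).2.2.1, hJ, qf_ovr] at h5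
        exact h5
      have hNy : Nice h (mix A B (sub x y) (sub a₀ y) (sub b₀ y)) := by
        rw [← (ms a₀ b₀).2.1]
        exact hn.sub y
      have hp : p ≠ 0 := by
        rcases h2 with h2 | ⟨π, h2⟩
        · rw [h2 (sub a₀ y) (sub b₀ y)]
          exact hNy.val_ne
        · rw [h2 (sub a₀ y) (sub b₀ y)]
          exact hNy.hval_ne π
      refine spread_cons hr1 (h4.up y) (J.map (lift z))
        (fun b => oth2 x y z * p * val h (ovr J (sub x z) (sub b z)))
        (fun b => oth2 x y z * val h (ovr J (sub x z) (sub b z))) ?_ ?_ ?_ ?_ ?_ ?_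
      · intro a b hab
        rw [ovr_congr hab]
      · intro a b hab
        rw [ovr_congr hab]
      · intro a b hab
        rw [sub_congr' hzy hab]
      · intro a b hab
        rw [sub_congr' hzy hab]
      · intro b hb
        obtain ⟨a, ha⟩ := hb
        refine ⟨⟨sub a y, ?_⟩, mul_ne_zero hγ ?_⟩
        · rw [← (ms a b).2.1]
          exact ha.sub y
        · have h5 := (ha.sub z).val_ne
          rwa [(ms a b).2.2.1] at h5
      · intro c
        rw [hJ]
        exact sib_count z l I hI x hq (oth2 x y z * p) (mul_ne_zero hγ hp) c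
    · refine spread_empty fun b hb => ?_
      obtain ⟨a, ha⟩ := hb
      exact hn ⟨a, b, ha⟩

theorem repE_stepA {r m : ℕ} (hr1 : 1 ≤ r) {A B : Finset (Var D F h)} {y z : Fin D} (hzy : z ≠ y)
    (l : Leaf D h) (I : Finset F) (hI : r ≤ I.card) (x : Var D F (h + 1) → Bool)
    (hr : RepO r A B m (sub x y)) :
    RepE r (A.map (lift y) ∪ (I.map (leafEmb l)).map (lift z)) (B.map (lift y)) (m + 1) x := by
  obtain ⟨p, u, w, h1, h3, h4⟩ := hr
  obtain ⟨J, hJ⟩ : ∃ J : Finset (Var D F h), J = I.map (leafEmb l) := ⟨_, rfl⟩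
  rw [← hJ]
  have ms := mix_step hzy A B ∅ J x
  simp only [map_empty, union_empty, mix_left] at ms
  obtain ⟨A₁, hA₁⟩ : ∃ A₁ : Finset (Var D F (h + 1)), A₁ = A.map (lift y) ∪ J.map (lift z) :=
    ⟨_, rfl⟩
  obtain ⟨B₁, hB₁⟩ : ∃ B₁ : Finset (Var D F (h + 1)), B₁ = B.map (lift y) := ⟨_, rfl⟩
  rw [← hA₁, ← hB₁] at ms ⊢
  have hoth2 : ∀ a b, oth2 (mix A₁ B₁ x a b) y z = oth2 x y z := by
    intro a b
    unfold oth2
    refine prod_congr rfl fun p' hp' => ?_
    rw [(ms a b).2.2.2 p' (ne_of_mem_erase (mem_of_mem_erase hp')) (ne_of_mem_erase hp')]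
  have hvv : ∀ a b, val (h + 1) (mix A₁ B₁ x a b) = blk (root x) +
      (oth2 x y z * val h (ovr J (sub x z) (sub a z))) *
        val h (mix A B (sub x y) (sub a y) (sub b y)) := by
    intro a b
    rw [val_succ _ y, oth_eq_oth2 _ hzy, hoth2, (ms a b).1, (ms a b).2.1, (ms a b).2.2.1]
  refine ⟨blk (root x), fun a => Fin.cons (oth2 x y z * val h (ovr J (sub x z) (sub a z)))
      ((oth2 x y z * val h (ovr J (sub x z) (sub a z))) • u (sub a y)),
    fun b => (1 : F) • w (sub b y) + Fin.cons p 0, ?_, ?_, ?_, ?_⟩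
  · intro a b
    rw [hvv, h1, Fin.sum_univ_succ]
    simp only [Fin.cons_zero, Fin.cons_succ, Pi.add_apply, Pi.smul_apply, smul_eq_mul, one_mul,
      Pi.zero_apply, add_zero]
    rw [mul_add, mul_sum]
    congr 1
    congr 1
    · ring
    · refine sum_congr rfl fun l _ => ?_
      ring
  · exact Or.inr ⟨((y, none) : Fin D × Option (Hole D h)), fun a b => by
      have h5 : hval (h + 1) (((y, none) : Fin D × Option (Hole D h)) : Hole D (h + 1))
        (mix A₁ B₁ x a b) = blk (root (mix A₁ B₁ x a b)) := rfl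
      rw [h5, (ms a b).1]⟩
  · by_cases hn : ∃ a b, Nice (h + 1) (mix A₁ B₁ x a b)
    · obtain ⟨a₀, b₀, hn⟩ := hn
      have hγ : oth2 x y z ≠ 0 := by
        rw [← hoth2 a₀ b₀]
        exact hn.oth2_ne y z
      have hq : qf h l (sub x z) ≠ 0 := by
        have h5 := (hn.sub z).qf_ne l
        rw [(ms a₀ b₀).2.2.1, hJ, qf_ovr] at h5
        exact h5
      refine spread_cons hr1 (h3.up y) (J.map (lift z))
        (fun b => oth2 x y z * val h (ovr J (sub x z) (sub b z)))
        (fun b => oth2 x y z * val h (ovr J (sub x z) (sub b z))) ?_ ?_ ?_ ?_ ?_ ?_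
      · intro a b hab
        rw [ovr_congr hab]
      · intro a b hab
        rw [ovr_congr hab]
      · intro a b hab
        rw [sub_congr' hzy hab]
      · intro a b hab
        rw [sub_congr' hzy hab]
      · intro a ha
        obtain ⟨b, hb⟩ := ha
        refine ⟨⟨sub b y, ?_⟩, mul_ne_zero hγ ?_⟩
        · rw [← (ms a b).2.1]
          exact hb.sub y
        · have h5 := (hb.sub z).val_ne
          rwa [(ms a b).2.2.1] at h5
      · intro c
        rw [hJ]
        exact sib_count z l I hI x hq (oth2 x y z) hγ c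
    · refine spread_empty fun a ha => ?_
      obtain ⟨b, hb⟩ := ha
      exact hn ⟨a, b, hb⟩
  · refine (spread_affine (h4.up y) (1 : F) one_ne_zero (Fin.cons p 0)).mono fun b hb => ?_
    obtain ⟨a, ha⟩ := hb
    refine ⟨sub a y, ?_⟩
    rw [← (ms a b).2.1]
    exact ha.sub y

theorem rep_aux {r : ℕ} (hr1 : 1 ≤ r) {h n : ℕ} {A B : Finset (Var D F h)} (hc : Ch r h n A B) :
    (∀ m, n = 2 * m → ∀ x, RepE r A B m x) ∧ (∀ m, n = 2 * m + 1 → ∀ x, RepO r A B m x) := by
  induction hc with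
  | nil h =>
    refine ⟨fun m hm x => ?_, fun m hm => by omega⟩
    obtain rfl : m = 0 := by omega
    exact repE_nil r x
  | skip p _ ih =>
    exact ⟨fun m hm x => repE_skip p x (ih.1 m hm (sub x p)),
      fun m hm x => repO_skip p x (ih.2 m hm (sub x p))⟩
  | @stepB h m A B y z hzy l I hI _ ih =>
    refine ⟨fun m' hm => by omega, fun m' hm x => ?_⟩
    obtain rfl : m' = m := by omega
    exact repO_stepB hr1 hzy l I hI x (ih.1 m' rfl (sub x y))
  | @stepA h m A B y z hzy l I hI _ ih =>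
    refine ⟨fun m' hm x => ?_, fun m' hm => by omega⟩
    obtain rfl : m' = m + 1 := by omega
    exact repE_stepA hr1 hzy l I hI x (ih.2 m rfl (sub x y))

/-- **The tree function along a chain.** -/
theorem rep {r m h : ℕ} (hr1 : 1 ≤ r) {A B : Finset (Var D F h)} (hc : Ch r h (2 * m) A B)
    (x : Var D F h → Bool) :
    ∃ (p : F) (u w : (Var D F h → Bool) → Fin m → F),
      (∀ a b, val h (mix A B x a b) = p + ∑ l, u a l * w b l) ∧
      Spread r m (fun a => ∃ b, Nice h (mix A B x a b)) u ∧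
      Spread r m (fun b => ∃ a, Nice h (mix A B x a b)) w := by
  obtain ⟨p, u, w, h1, -, h3, h4⟩ := (rep_aux hr1 hc).1 m rfl x
  exact ⟨p, u, w, h1, h3, h4⟩

end Pool.Agent.V8H39.SR
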