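import Mathlib
import Pool.Agent.V8H39.SR.RepMain
import Pool.Agent.V8H39.SR.RectCount
import Pool.Agent.V8H39.SR.Prog2
import Pool.Agent.V8H39.SR.Chain2
import Pool.Agent.V8H39.SR.Dense2

/-!
# The lower bound for the tree function
-/

set_option autoImplicit false

open Finset

namespace Pool.Agent.V8H39.SR

variable {D : ℕ} {F : Type} [Field F] [Fintype F] [DecidableEq F] [CharP F 2]

/-- **The lower bound.** -/
theorem lower_var {h k m r : ℕ} (hD : D = DD (8 * k)) (hr : 1 ≤ r) (hm : 1 ≤ m)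
    (hh : 2 ^ (8 * k * (8 * k)) * (2 * m) * 2 + 1 ≤ h)
    (hq : 2 * (r * GG (8 * k) ^ h) ≤ Fintype.card F) (P : Mach (Var D F h)) (hs : P.Storeless)
    (κ : Var D F h → ℕ) (hκ : ∑ v, κ v ≤ k * Fintype.card (Var D F h))
    (hp : ∀ L, P.Path L true → ∀ v, L.count v ≤ κ v) (t : F)
    (hacc : ∀ x, P.Answers x true → val h x = t) :
    Nat.card {x // P.Answers x true ∧ Nice h x} * r ^ m ≤
      (2 * Fintype.card P.Conf ^ 2) ^ (2 * (8 * k) + 1) * 2 ^ Fintype.card (Var D F h) := by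
  classical
  have hD2 : 2 ≤ D := by
    have h1 := GG_ge (8 * k)
    have h2 : 1 ≤ NN (8 * k) := Nat.succ_pos _
    rw [hD]
    unfold DD
    nlinarith
  have hS := wt_of_sum (ι := F) hD2 h k κ hκ
  obtain ⟨T, hT, Via, XA, XB, hcard, hmix, hex⟩ := prog' P hs (8 * k) (fun v => κ v ≤ 8 * k)
    (fun L hL v hv => (hp L hL v).trans hv)
  -- the set of inputs with a given trace
  obtain ⟨R, hR⟩ : ∃ R : T → (Var D F h → Bool) → Prop, ∀ τ x, R τ x ↔
      (P.Answers x true ∧ Nice h x) ∧ Via τ x ∧ ∃ A B : Finset (Var D F h), Ch r h (2 * m) A B ∧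
        (∀ a ∈ A, XA τ a) ∧ (∀ b ∈ B, XB τ b) := ⟨_, fun _ _ => Iff.rfl⟩
  have hcover : ∀ x, P.Answers x true ∧ Nice h x → ∃ τ, R τ x := by
    intro x hx
    obtain ⟨tm, htm⟩ := hex x hx.1
    obtain ⟨A, B, hc, hA, hB, hsep⟩ := exists_chain' (8 * k) m r h hr hD hh hq hS tm
    obtain ⟨τ, hv, h2, h3⟩ := htm A B (hc.nonempty hr (by omega)) hA hB hsep
    exact ⟨τ, (hR τ x).2 ⟨hx, hv, A, B, hc, h2, h3⟩⟩
  have hone : ∀ τ, Nat.card {x // R τ x} * r ^ m ≤ 2 ^ Fintype.card (Var D F h) := by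
    intro τ
    by_cases hne : ∃ x, R τ x
    · obtain ⟨x₀, hx₀⟩ := hne
      obtain ⟨-, -, A, B, hc, hA, hB⟩ := (hR τ x₀).1 hx₀
      refine count_bound hr A B (val h) (Nice h) (R τ) t (rep hr hc) ?_ ?_
      · intro x hx
        exact ((hR τ x).1 hx).1.2
      · intro x y hx hy hxy
        refine hacc _ (hmix τ x y _ ((hR τ x).1 hx).2.1 ((hR τ y).1 hy).2.1 ?_ ?_ ?_)
        · intro v
          by_cases hv : v ∈ A
          · rw [if_pos hv]; exact Or.inl rfl
          · rw [if_neg hv]; exact Or.inr rfl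
        · intro v hv
          by_cases hv' : v ∈ A
          · rw [if_pos hv']
          · rw [if_neg hv']
            exact (hxy v hv' fun hvB => hv (hB v hvB)).symm
        · intro v hv
          rw [if_neg fun hvA => hv (hA v hvA)]
    · have : IsEmpty {x // R τ x} := ⟨fun x => hne ⟨x.1, x.2⟩⟩
      rw [Nat.card_of_isEmpty, zero_mul]
      exact Nat.zero_le _
  have hsum : Nat.card {x // P.Answers x true ∧ Nice h x} ≤ ∑ τ, Nat.card {x // R τ x} := by
    rw [← Nat.card_sigma]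
    choose g hg using hcover
    exact Nat.card_le_card_of_injective (fun x => (⟨g x.1 x.2, x.1, hg x.1 x.2⟩ :
      Σ τ, {x // R τ x})) fun x y hxy => by
        apply Subtype.ext
        have h2 := congrArg (fun z : (Σ τ, {x // R τ x}) => z.2.1) hxy
        exact h2
  calc Nat.card {x // P.Answers x true ∧ Nice h x} * r ^ m
      ≤ (∑ τ, Nat.card {x // R τ x}) * r ^ m := Nat.mul_le_mul_right _ hsum
    _ = ∑ τ, Nat.card {x // R τ x} * r ^ m := sum_mul _ _ _
    _ ≤ ∑ _τ : T, 2 ^ Fintype.card (Var D F h) := sum_le_sum fun τ _ => hone τ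
    _ = Fintype.card T * 2 ^ Fintype.card (Var D F h) := by
        rw [sum_const, card_univ, smul_eq_mul]
    _ ≤ _ := Nat.mul_le_mul_right _ hcard

end Pool.Agent.V8H39.SR
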