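import Mathlib
import Pool.Agent.V8H39.SR.Lower
import Pool.Agent.V8H39.SR.Count

/-!
# The separation
-/

set_option autoImplicit false

open Finset

namespace Pool.Agent.V8H39.SR

/-! ### Counting the extensions -/

/-- `x` on the range of `e`, `y` outside -/
noncomputable def comb {V W : Type} (e : V ↪ W) (x : V → Bool) (y : W → Bool) : W → Bool :=
  fun w => open scoped Classical in if h : ∃ v, e v = w then x h.choose else y w

theorem comb_in {V W : Type} (e : V ↪ W) (x : V → Bool) (y : W → Bool) (v : V) :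
    comb e x y (e v) = x v := by
  have h : ∃ v', e v' = e v := ⟨v, rfl⟩
  unfold comb
  rw [dif_pos h]
  exact congrArg x (e.injective h.choose_spec)

theorem comb_out {V W : Type} (e : V ↪ W) (x : V → Bool) (y : W → Bool) (w : W)
    (hw : ∀ v, e v ≠ w) : comb e x y w = y w := by
  unfold comb
  rw [dif_neg]
  rintro ⟨v, hv⟩
  exact hw v hv

theorem comb_comb {V W : Type} (e : V ↪ W) (x : V → Bool) (y : W → Bool) :
    comb e (fun v => y (e v)) (comb e x y) = y := by
  funext w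
  by_cases hw : ∃ v, e v = w
  · obtain ⟨v, rfl⟩ := hw
    rw [comb_in]
  · push Not at hw
    rw [comb_out _ _ _ _ hw, comb_out _ _ _ _ hw]

/-- the exchange of the bits in the range of `e` -/
noncomputable def exch {V W : Type} (e : V ↪ W) :
    ((W → Bool) × (V → Bool)) ≃ ((W → Bool) × (V → Bool)) where
  toFun p := (comb e p.2 p.1, fun v => p.1 (e v))
  invFun p := (comb e p.2 p.1, fun v => p.1 (e v))
  left_inv p := by
    apply Prod.ext
    · exact comb_comb e p.2 p.1
    · funext v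
      exact comb_in e _ _ v
  right_inv p := by
    apply Prod.ext
    · exact comb_comb e p.2 p.1
    · funext v
      exact comb_in e _ _ v

theorem count_ext {V W : Type} [Fintype V] [Fintype W] [DecidableEq W] (e : V ↪ W) (Q : (W → Bool) → Prop) :
    Nat.card {z // Q z} * 2 ^ Fintype.card V =
      ∑ y : W → Bool, Nat.card {x : V → Bool // Q (comb e x y)} := by
  classical
  have h1 : Nat.card {z // Q z} * 2 ^ Fintype.card V =
      Nat.card {p : (W → Bool) × (V → Bool) // Q p.1} := by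
    have h2 : Nat.card (V → Bool) = 2 ^ Fintype.card V := by
      rw [Nat.card_eq_fintype_card, Fintype.card_fun, Fintype.card_bool]
    rw [← h2, ← Nat.card_prod]
    exact Nat.card_congr ⟨fun p => ⟨(p.1.1, p.2), p.1.2⟩, fun p => (⟨p.1.1, p.2⟩, p.1.2),
      fun p => rfl, fun p => rfl⟩
  rw [h1, ← Nat.card_sigma]
  refine Nat.card_congr ⟨fun p => ⟨comb e p.1.2 p.1.1, ⟨fun v => p.1.1 (e v), ?_⟩⟩,
    fun p => ⟨(comb e p.2.1 p.1, fun v => p.1 (e v)), p.2.2⟩, ?_, ?_⟩
  · rw [comb_comb]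
    exact p.2
  · rintro ⟨⟨z, x⟩, hz⟩
    apply Subtype.ext
    apply Prod.ext
    · exact comb_comb e x z
    · funext v
      exact comb_in e _ _ v
  · rintro ⟨y, ⟨x, hx⟩⟩
    have h3 : comb e (fun v => y (e v)) (comb e x y) = y := comb_comb e x y
    have h4 : (fun v => comb e x y (e v)) = x := by
      funext v
      exact comb_in e _ _ v
    refine Sigma.ext h3 ?_
    refine (Subtype.heq_iff_coe_eq ?_).2 h4
    intro x'
    simp only [h3]

theorem card_fiber {X F : Type} [Finite X] [Fintype F] (f : X → F) (Q : X → Prop) :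
    ∑ t : F, Nat.card {x // Q x ∧ f x = t} = Nat.card {x // Q x} := by
  rw [← Nat.card_sigma]
  refine Nat.card_congr ⟨fun p => ⟨p.2.1, p.2.2.1⟩, fun x => ⟨f x.1, x.1, x.2, rfl⟩, ?_, ?_⟩
  · rintro ⟨t, x, hx, rfl⟩
    rfl
  · rintro ⟨x, hx⟩
    rfl

/-! ### The value -/

/-- the choice of the value for the root -/
theorem exists_target {D h E C : ℕ} {F : Type} [Field F] [Fintype F] [DecidableEq F]
    (hC : Nat.card {x : Var D F h → Bool // ¬ Nice h x} * Fintype.card F ≤
      C * 2 ^ Fintype.card (Var D F h)) (hq : 4 * E * C ≤ Fintype.card F) :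
    ∃ t : F, 2 ^ Fintype.card (Var D F h) +
      4 * Fintype.card F * E * Nat.card {x : Var D F h → Bool // ¬ Nice h x ∧ val h x = t} ≤
        2 * Fintype.card F * Nat.card {x : Var D F h → Bool // val h x = t} := by
  by_contra hcon
  push Not at hcon
  have hq0 : 0 < Fintype.card F := Fintype.card_pos
  have h1 : ∑ t : F, 2 * Fintype.card F * Nat.card {x : Var D F h → Bool // val h x = t} <
      ∑ t : F, (2 ^ Fintype.card (Var D F h) +
        4 * Fintype.card F * E * Nat.card {x : Var D F h → Bool // ¬ Nice h x ∧ val h x = t}) :=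
    Finset.sum_lt_sum_of_nonempty ⟨0, mem_univ _⟩ fun t _ => hcon t
  have h2 : ∑ t : F, Nat.card {x : Var D F h → Bool // val h x = t} =
      2 ^ Fintype.card (Var D F h) := by
    have h3 := card_fiber (val (D := D) (F := F) h) (fun _ => True)
    simp only [true_and] at h3
    rw [h3, ← Fintype.card_bool, ← Fintype.card_fun, ← Nat.card_eq_fintype_card]
    exact Nat.card_congr (Equiv.subtypeUnivEquiv fun _ => trivial)
  have h4 := card_fiber (val (D := D) (F := F) h) (fun x => ¬ Nice h x)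
  rw [← mul_sum, h2, sum_add_distrib, ← mul_sum, h4, sum_const, card_univ, smul_eq_mul] at h1
  have h5 : 4 * E * (Nat.card {x : Var D F h → Bool // ¬ Nice h x} * Fintype.card F) ≤
      Fintype.card F * 2 ^ Fintype.card (Var D F h) :=
    calc 4 * E * (Nat.card {x : Var D F h → Bool // ¬ Nice h x} * Fintype.card F)
        ≤ 4 * E * (C * 2 ^ Fintype.card (Var D F h)) := Nat.mul_le_mul_left _ hC
      _ = 4 * E * C * 2 ^ Fintype.card (Var D F h) := by ring
      _ ≤ _ := Nat.mul_le_mul_right _ hq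
  nlinarith [h1, h5]

/-! ### Numbers -/

theorem num {q Q c E T n s : ℕ} (hQ : 1 ≤ Q) (hq2 : q = 2 * (q / 2)) (hQq : (4 * Q) ^ 2 ≤ q)
    (hc : 4 * T * 2 ^ c ≤ q) (hn : n ≤ q ^ 2) (hs : s ≤ n ^ E) :
    4 * q * T * (2 * s ^ 2) ^ c ≤ (q / 2 / Q) ^ (8 * E * c + 4) := by
  obtain ⟨r, hr⟩ : ∃ r, r = q / 2 / Q := ⟨_, rfl⟩
  rw [← hr]
  have hr1 : 1 ≤ r := by
    rw [hr]
    refine (Nat.le_div_iff_mul_le hQ).2 ?_
    have : (4 * Q) ^ 2 = 16 * (Q * Q) := by ring
    have h2 : Q * 1 ≤ Q * Q := Nat.mul_le_mul_left _ hQ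
    omega
  have h1 : q / 2 < Q * (r + 1) := by
    rw [hr]
    exact Nat.lt_mul_div_succ _ hQ
  have h2 : q ≤ 4 * Q * r := by
    have h3 : Q * 1 ≤ Q * r := Nat.mul_le_mul_left _ hr1
    have h4 : Q * (r + 1) = Q * r + Q := by ring
    have h5 : 4 * Q * r = 4 * (Q * r) := by ring
    omega
  have h3 : q ≤ r ^ 2 := by
    have hpos : 0 < (4 * Q) ^ 2 := by positivity
    refine Nat.le_of_mul_le_mul_left ?_ hpos
    calc (4 * Q) ^ 2 * q ≤ q * q := Nat.mul_le_mul_right _ hQq
      _ ≤ (4 * Q * r) * (4 * Q * r) := Nat.mul_le_mul h2 h2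
      _ = (4 * Q) ^ 2 * r ^ 2 := by ring
  calc 4 * q * T * (2 * s ^ 2) ^ c ≤ 4 * q * T * (2 * ((q ^ 2) ^ E) ^ 2) ^ c := by
        have : s ≤ (q ^ 2) ^ E := hs.trans (Nat.pow_le_pow_left hn E)
        gcongr
    _ = (4 * T * 2 ^ c) * q ^ (4 * E * c + 1) := by
        rw [mul_pow, ← pow_mul, ← pow_mul, ← pow_mul]
        have e1 : 2 * (E * (2 * c)) = 4 * E * c := by ring
        rw [e1, pow_succ]
        ring
    _ ≤ q * q ^ (4 * E * c + 1) := Nat.mul_le_mul_right _ hc
    _ = q ^ (4 * E * c + 2) := by ring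
    _ ≤ (r ^ 2) ^ (4 * E * c + 2) := Nat.pow_le_pow_left h3 _
    _ = r ^ (8 * E * c + 4) := by rw [← pow_mul]; congr 1; ring

theorem card_var {F : Type} [Field F] [Fintype F] (D h : ℕ) :
    Fintype.card (Var D F h) = Fintype.card F * nodes D h := by
  induction h with
  | zero =>
    show Fintype.card F = _
    rw [nodes, mul_one]
  | succ h ih =>
    show Fintype.card (F ⊕ (Fin D × Var D F h)) = _
    rw [Fintype.card_sum, Fintype.card_prod, Fintype.card_fin, ih, nodes]
    ring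

theorem exists_field (b : ℕ) (hb : 1 ≤ b) : ∃ (F : Type) (_ : Field F) (_ : Fintype F)
    (_ : DecidableEq F) (_ : CharP F 2), Fintype.card F = 2 ^ b := by
  classical
  have : Fact (Nat.Prime 2) := ⟨Nat.prime_two⟩
  have : Fintype (GaloisField 2 b) := Fintype.ofFinite _
  refine ⟨GaloisField 2 b, inferInstance, inferInstance, inferInstance, inferInstance, ?_⟩
  rw [← Nat.card_eq_fintype_card]
  exact GaloisField.card 2 b (by omega)

/-! ### The separation for fixed parameters -/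

/-- the machines without a store with at most `n ^ E` configurations and `k * n` reads which only
accept inputs in `L` accept at most a part `1 / 2 ^ E` of these inputs -/
def Hard (k E n : ℕ) (L : (Fin n → Bool) → Prop) : Prop :=
  (∃ x, L x) ∧ ∀ P : Mach (Fin n), P.Storeless → (∀ x, P.Answers x true → L x) →
    (∃ κ : Fin n → ℕ, ∑ v, κ v ≤ k * n ∧ ∀ l, P.Path l true → ∀ v, l.count v ≤ κ v) →
    Fintype.card P.Conf ≤ n ^ E → 2 ^ E * Nat.card {x // P.Answers x true} ≤ Nat.card {x // L x}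

theorem Hard.mono {k k' E E' n : ℕ} {L : (Fin n → Bool) → Prop} (h : Hard k' E' n L) (hk : k ≤ k')
    (hE : E ≤ E') (hn : 1 ≤ n) : Hard k E n L := by
  refine ⟨h.1, fun P hs hL hκ hc => ?_⟩
  obtain ⟨κ, h1, h2⟩ := hκ
  exact (Nat.mul_le_mul_right _ (Nat.pow_le_pow_right (by norm_num) hE)).trans
    (h.2 P hs hL ⟨κ, h1.trans (Nat.mul_le_mul_right _ hk), h2⟩
      (hc.trans (Nat.pow_le_pow_right hn hE)))

/-- machines for the tree function -/
theorem lower_acc {D : ℕ} {F : Type} [Field F] [Fintype F] [DecidableEq F] [CharP F 2]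
    {h k m r E : ℕ} (hD : D = DD (8 * k)) (hr : 1 ≤ r) (hm : 1 ≤ m)
    (hh : 2 ^ (8 * k * (8 * k)) * (2 * m) * 2 + 1 ≤ h)
    (hq : 2 * (r * GG (8 * k) ^ h) ≤ Fintype.card F) (P : Mach (Var D F h)) (hs : P.Storeless)
    (κ : Var D F h → ℕ) (hκ : ∑ v, κ v ≤ k * Fintype.card (Var D F h))
    (hp : ∀ L, P.Path L true → ∀ v, L.count v ≤ κ v) (t : F)
    (hacc : ∀ x, P.Answers x true → val h x = t)
    (ht : 2 ^ Fintype.card (Var D F h) +
      4 * Fintype.card F * E * Nat.card {x : Var D F h → Bool // ¬ Nice h x ∧ val h x = t} ≤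
        2 * Fintype.card F * Nat.card {x : Var D F h → Bool // val h x = t})
    (hnum : 4 * Fintype.card F * E * (2 * Fintype.card P.Conf ^ 2) ^ (2 * (8 * k) + 1) ≤ r ^ m) :
    E * Nat.card {x // P.Answers x true} ≤ Nat.card {x : Var D F h → Bool // val h x = t} := by
  classical
  have hlow := lower_var hD hr hm hh hq P hs κ hκ hp t hacc
  have hconf : 0 < Fintype.card P.Conf := Fintype.card_pos_iff.2 ⟨P.start⟩
  have hpos : 0 < (2 * Fintype.card P.Conf ^ 2) ^ (2 * (8 * k) + 1) := by positivity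
  have hX : 4 * Fintype.card F * E * Nat.card {x // P.Answers x true ∧ Nice h x} ≤
      2 ^ Fintype.card (Var D F h) := by
    refine Nat.le_of_mul_le_mul_right ?_ hpos
    calc 4 * Fintype.card F * E * Nat.card {x // P.Answers x true ∧ Nice h x} *
          (2 * Fintype.card P.Conf ^ 2) ^ (2 * (8 * k) + 1)
        = Nat.card {x // P.Answers x true ∧ Nice h x} *
          (4 * Fintype.card F * E * (2 * Fintype.card P.Conf ^ 2) ^ (2 * (8 * k) + 1)) := by ring
      _ ≤ Nat.card {x // P.Answers x true ∧ Nice h x} * r ^ m := Nat.mul_le_mul_left _ hnum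
      _ ≤ _ := hlow
      _ = _ := by ring
  have hsplit : Nat.card {x // P.Answers x true} ≤ Nat.card {x // P.Answers x true ∧ Nice h x} +
      Nat.card {x : Var D F h → Bool // ¬ Nice h x ∧ val h x = t} := by
    rw [← Nat.card_sum]
    refine Nat.card_le_card_of_injective (fun x : {x // P.Answers x true} =>
      if hx : Nice h x.1 then Sum.inl ⟨x.1, x.2, hx⟩ else Sum.inr ⟨x.1, hx, hacc _ x.2⟩) ?_
    intro x y hxy
    dsimp only at hxy
    split_ifs at hxy with h1 h2 h3
    · exact Subtype.ext (congrArg (fun z => z.1) (Sum.inl.inj hxy))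
    · exact Subtype.ext (congrArg (fun z => z.1) (Sum.inr.inj hxy))
  have hq0 : 0 < Fintype.card F := Fintype.card_pos
  have hall : 4 * Fintype.card F * E * Nat.card {x // P.Answers x true} ≤
      2 * Fintype.card F * Nat.card {x : Var D F h → Bool // val h x = t} :=
    calc 4 * Fintype.card F * E * Nat.card {x // P.Answers x true}
        ≤ 4 * Fintype.card F * E * (Nat.card {x // P.Answers x true ∧ Nice h x} +
          Nat.card {x : Var D F h → Bool // ¬ Nice h x ∧ val h x = t}) :=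
          Nat.mul_le_mul_left _ hsplit
      _ = 4 * Fintype.card F * E * Nat.card {x // P.Answers x true ∧ Nice h x} +
          4 * Fintype.card F * E *
            Nat.card {x : Var D F h → Bool // ¬ Nice h x ∧ val h x = t} := by ring
      _ ≤ 2 ^ Fintype.card (Var D F h) + 4 * Fintype.card F * E *
            Nat.card {x : Var D F h → Bool // ¬ Nice h x ∧ val h x = t} :=
          Nat.add_le_add_right hX _
      _ ≤ _ := ht
  have h2 : (2 * Fintype.card F) * (2 * (E * Nat.card {x // P.Answers x true})) ≤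
      (2 * Fintype.card F) * Nat.card {x : Var D F h → Bool // val h x = t} := by
    calc (2 * Fintype.card F) * (2 * (E * Nat.card {x // P.Answers x true}))
        = 4 * Fintype.card F * E * Nat.card {x // P.Answers x true} := by ring
      _ ≤ _ := hall
  have h3 := Nat.le_of_mul_le_mul_left h2 (by omega)
  omega

/-- padding -/
theorem hard_of_var {D : ℕ} {F : Type} [Field F] [Fintype F] [DecidableEq F]
    {h k n E : ℕ} (e : Var D F h ↪ Fin n) (hn : n ≤ 2 * Fintype.card (Var D F h)) (t : F)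
    (ht : ∃ x : Var D F h → Bool, val h x = t)
    (hlow : ∀ P : Mach (Var D F h), P.Storeless → (∀ x, P.Answers x true → val h x = t) →
      ∀ κ : Var D F h → ℕ, ∑ v, κ v ≤ 2 * k * Fintype.card (Var D F h) →
      (∀ L, P.Path L true → ∀ v, L.count v ≤ κ v) → Fintype.card P.Conf ≤ n ^ E →
      2 ^ E * Nat.card {x // P.Answers x true} ≤ Nat.card {x : Var D F h → Bool // val h x = t}) :
    Hard k E n (fun x => val h (fun v => x (e v)) = t) := by
  classical
  constructor
  · obtain ⟨x, hx⟩ := ht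
    refine ⟨comb e x fun _ => true, ?_⟩
    have : (fun v => comb e x (fun _ => true) (e v)) = x := by
      funext v
      exact comb_in e _ _ v
    show val h (fun v => comb e x (fun _ => true) (e v)) = t
    rw [this]
    exact hx
  · rintro P hs hL ⟨κ, hκ1, hκ2⟩ hconf
    have hcomb : ∀ (x : Var D F h → Bool) (y : Fin n → Bool),
        (fun v => comb e x y (e v)) = x := by
      intro x y
      funext v
      exact comb_in e _ _ v
    have hy : ∀ y : Fin n → Bool, 2 ^ E * Nat.card {x : Var D F h → Bool //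
        P.Answers (comb e x y) true} ≤ Nat.card {x : Var D F h → Bool // val h x = t} := by
      intro y
      obtain ⟨P', hs', hc', ha', hp'⟩ := restrict e P hs y
      have hans : ∀ x b, P'.Answers x b ↔ P.Answers (comb e x y) b := fun x b =>
        ha' x (comb e x y) (fun v => comb_in e x y v) (fun w hw => comb_out e x y w hw) b
      have h1 : Nat.card {x : Var D F h → Bool // P.Answers (comb e x y) true} =
          Nat.card {x // P'.Answers x true} :=
        Nat.card_congr (Equiv.subtypeEquivRight fun x => (hans x true).symm)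
      rw [h1]
      refine hlow P' hs' ?_ (fun v => κ (e v)) ?_ ?_ (by rw [hc']; exact hconf)
      · intro x hx
        have h2 : val h (fun v => comb e x y (e v)) = t := hL _ ((hans x true).1 hx)
        rw [hcomb] at h2
        exact h2
      · calc ∑ v, κ (e v) = ∑ w ∈ univ.map e, κ w := (sum_map _ _ _).symm
          _ ≤ ∑ w, κ w := sum_le_sum_of_subset (subset_univ _)
          _ ≤ k * n := hκ1
          _ ≤ k * (2 * Fintype.card (Var D F h)) := Nat.mul_le_mul_left _ hn
          _ = 2 * k * Fintype.card (Var D F h) := by ring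
      · intro L hL' v
        obtain ⟨L', h3, h4⟩ := hp' L true hL'
        rw [h4]
        exact hκ2 L' h3 _
    have hpos : 0 < 2 ^ Fintype.card (Var D F h) := by positivity
    refine Nat.le_of_mul_le_mul_right ?_ hpos
    rw [mul_assoc, count_ext e (fun z => P.Answers z true),
      count_ext e (fun z => val h (fun v => z (e v)) = t), mul_sum]
    refine sum_le_sum fun y _ => (hy y).trans (le_of_eq ?_)
    simp only [hcomb]

/-- the numbers of the construction -/
structure Par where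
  /-- the bound for the reads -/
  w : ℕ
  /-- the exponent -/
  E : ℕ

namespace Par

variable (x : Par)

/-- number of the blocks of the computation -/
def c : ℕ := 2 * (8 * (2 * x.w)) + 1

/-- the dimension -/
def m : ℕ := 8 * x.E * x.c + 4

/-- the height -/
def h : ℕ := 2 ^ (8 * (2 * x.w) * (8 * (2 * x.w))) * (2 * x.m) * 2 + 1

/-- the loss -/
def Q : ℕ := GG (8 * (2 * x.w)) ^ x.h

/-- the arity -/
def D : ℕ := DD (8 * (2 * x.w))

/-- a lower bound for the field -/
def B : ℕ := (4 * x.Q) ^ 2 * (4 * 2 ^ x.E * 2 ^ x.c) * ((x.h + 1) * nodes x.D x.h) * 2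

/-- the bits -/
def X : ℕ := 2 * nodes x.D x.h * x.B

theorem Q_pos : 1 ≤ x.Q := Nat.one_le_pow _ _ (by have := GG_ge (8 * (2 * x.w)); omega)

end Par

/-- The size of the field that is needed. -/
theorem hard_field (x : Par) (F : Type) [Field F] [Fintype F] [DecidableEq F] [CharP F 2]
    (n : ℕ) (hq2 : 2 ∣ Fintype.card F) (hB : x.B ≤ Fintype.card F)
    (hn : n ≤ 2 * Fintype.card (Var x.D F x.h)) (e : Var x.D F x.h ↪ Fin n) :
    ∃ t : F, Hard x.w x.E n (fun y => val x.h (fun v => y (e v)) = t) := by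
  have hQ1 := x.Q_pos
  have hnod := nodes_pos x.D x.h
  have hq2' : Fintype.card F = 2 * (Fintype.card F / 2) := by omega
  have p1 : 1 ≤ (4 * x.Q) ^ 2 := Nat.one_le_pow _ _ (by omega)
  have p2 : 1 ≤ 4 * 2 ^ x.E * 2 ^ x.c := Nat.one_le_iff_ne_zero.2 (by positivity)
  have p3 : 1 ≤ (x.h + 1) * nodes x.D x.h := Nat.mul_pos (by omega) hnod
  have b1 : (4 * x.Q) ^ 2 ≤ x.B := by
    calc (4 * x.Q) ^ 2 = (4 * x.Q) ^ 2 * 1 * 1 * 1 := by ring
      _ ≤ x.B := by
        unfold Par.B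
        gcongr
        norm_num
  have b2 : 4 * 2 ^ x.E * 2 ^ x.c * ((x.h + 1) * nodes x.D x.h) * 2 ≤ x.B := by
    calc 4 * 2 ^ x.E * 2 ^ x.c * ((x.h + 1) * nodes x.D x.h) * 2 =
          1 * (4 * 2 ^ x.E * 2 ^ x.c) * ((x.h + 1) * nodes x.D x.h) * 2 := by ring
      _ ≤ x.B := by
        unfold Par.B
        gcongr
  have b3 : 4 * 2 ^ x.E * ((x.h + 1) * nodes x.D x.h) ≤ x.B := by
    refine le_trans ?_ b2
    calc 4 * 2 ^ x.E * ((x.h + 1) * nodes x.D x.h) =
          4 * 2 ^ x.E * 1 * ((x.h + 1) * nodes x.D x.h) * 1 := by ring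
      _ ≤ 4 * 2 ^ x.E * 2 ^ x.c * ((x.h + 1) * nodes x.D x.h) * 2 := by
        have : 1 ≤ 2 ^ x.c := Nat.one_le_two_pow
        gcongr
        norm_num
  have b4 : 4 * 2 ^ x.E * 2 ^ x.c ≤ x.B := by
    refine le_trans ?_ b2
    calc 4 * 2 ^ x.E * 2 ^ x.c = 4 * 2 ^ x.E * 2 ^ x.c * 1 * 1 := by ring
      _ ≤ 4 * 2 ^ x.E * 2 ^ x.c * ((x.h + 1) * nodes x.D x.h) * 2 := by
        gcongr
        norm_num
  have b5 : 2 * nodes x.D x.h ≤ x.B := by
    refine le_trans ?_ b2
    calc 2 * nodes x.D x.h = 1 * (1 * nodes x.D x.h) * 2 := by ring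
      _ ≤ 4 * 2 ^ x.E * 2 ^ x.c * ((x.h + 1) * nodes x.D x.h) * 2 := by
        gcongr
        omega
  obtain ⟨t, ht⟩ := exists_target (E := 2 ^ x.E) (nice_count_le x.D x.h F) (b3.trans hB)
  refine ⟨t, hard_of_var e hn t ?_ ?_⟩
  · by_contra hcon
    push Not at hcon
    have : IsEmpty {y : Var x.D F x.h → Bool // val x.h y = t} := ⟨fun y => hcon y.1 y.2⟩
    rw [Nat.card_of_isEmpty (α := {y : Var x.D F x.h → Bool // val x.h y = t}), mul_zero] at ht
    have : 0 < 2 ^ Fintype.card (Var x.D F x.h) := by positivity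
    omega
  · intro P hs hL κ hκ1 hκ2 hconf
    refine lower_acc (k := 2 * x.w) (m := x.m) (r := Fintype.card F / 2 / x.Q)
      rfl ?_ (by unfold Par.m; omega)
      (le_refl _) ?_ P hs κ hκ1 hκ2 t hL ht ?_
    · refine (Nat.le_div_iff_mul_le hQ1).2 ?_
      have : (4 * x.Q) ^ 2 = 16 * (x.Q * x.Q) := by ring
      have h2 : x.Q * 1 ≤ x.Q * x.Q := Nat.mul_le_mul_left _ hQ1
      omega
    · change 2 * (_ * x.Q) ≤ _
      have h1 := Nat.div_mul_le_self (Fintype.card F / 2) x.Q
      omega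
    · refine num hQ1 hq2' (b1.trans hB) (b4.trans hB) (n := n) ?_ hconf
      refine hn.trans ?_
      rw [card_var]
      calc 2 * (Fintype.card F * nodes x.D x.h) = Fintype.card F * (2 * nodes x.D x.h) := by ring
        _ ≤ Fintype.card F * Fintype.card F := Nat.mul_le_mul_left _ (b5.trans hB)
        _ = _ := by ring

/-- the construction for all numbers of bits that are not too small -/
theorem hard_all (Q : ∀ n, ((Fin n → Bool) → Prop) → Prop)
    (hQ' : ∀ (D h n : ℕ) (F : Type) [Field F] [Fintype F] [DecidableEq F],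
      Fintype.card (Var D F h) ≤ n → ∃ e : Var D F h ↪ Fin n, ∀ t : F,
        Q n (fun x => val h (fun v => x (e v)) = t)) (x : Par) (n : ℕ) (hn : x.X ≤ n) :
    ∃ L, Q n L ∧ Hard x.w x.E n L := by
  have hnod := nodes_pos x.D x.h
  obtain ⟨b, hb⟩ : ∃ b, b = Nat.log 2 (n / nodes x.D x.h) := ⟨_, rfl⟩
  have hB2 : 2 ≤ x.B := by
    unfold Par.B
    have p1 : 1 ≤ (4 * x.Q) ^ 2 := Nat.one_le_pow _ _ (by have := x.Q_pos; omega)
    have p2 : 1 ≤ 4 * 2 ^ x.E * 2 ^ x.c := Nat.one_le_iff_ne_zero.2 (by positivity)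
    have p3 : 1 ≤ (x.h + 1) * nodes x.D x.h := Nat.mul_pos (by omega) hnod
    exact Nat.le_mul_of_pos_left 2 (Nat.mul_pos (Nat.mul_pos p1 p2) p3)
  have h1 : 2 * x.B ≤ n / nodes x.D x.h := by
    refine (Nat.le_div_iff_mul_le hnod).2 (le_trans (le_of_eq ?_) hn)
    unfold Par.X
    ring
  have hne : n / nodes x.D x.h ≠ 0 := by omega
  have h2 : 2 ^ b ≤ n / nodes x.D x.h := by
    rw [hb]
    exact Nat.pow_log_le_self 2 hne
  have h3 : n / nodes x.D x.h < 2 ^ (b + 1) := by
    rw [hb]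
    exact Nat.lt_pow_succ_log_self (by norm_num) _
  have hBb : x.B ≤ 2 ^ b := by
    rw [pow_succ] at h3
    omega
  have hb1 : 1 ≤ b := by
    by_contra hcon
    have : b = 0 := by omega
    rw [this, pow_zero] at hBb
    omega
  obtain ⟨F, _, _, _, _, hF⟩ := exists_field b hb1
  have hcard : Fintype.card (Var x.D F x.h) = 2 ^ b * nodes x.D x.h := by rw [card_var, hF]
  have h4 : Fintype.card (Var x.D F x.h) ≤ n := by
    rw [hcard]
    exact (Nat.le_div_iff_mul_le hnod).1 h2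
  have h5 : n ≤ 2 * Fintype.card (Var x.D F x.h) := by
    rw [hcard]
    have h6 := (Nat.div_lt_iff_lt_mul hnod).1 h3
    have h7 : 2 ^ (b + 1) * nodes x.D x.h = 2 * (2 ^ b * nodes x.D x.h) := by ring
    omega
  obtain ⟨e, he⟩ := hQ' x.D x.h n F h4
  obtain ⟨t, ht⟩ := hard_field x F n (by rw [hF]; exact dvd_pow_self 2 (by omega))
    (by rw [hF]; exact hBb) h5 e
  exact ⟨_, he t, ht⟩

theorem nodes_le (D h : ℕ) : nodes D h ≤ (D + 1) ^ h := by
  induction h with
  | zero => exact le_rfl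
  | succ h ih =>
    have h1 := nodes_pos D h
    calc nodes D (h + 1) = 1 + D * nodes D h := rfl
      _ ≤ nodes D h * (D + 1) := by nlinarith
      _ ≤ (D + 1) ^ h * (D + 1) := Nat.mul_le_mul_right _ ih
      _ = (D + 1) ^ (h + 1) := (pow_succ _ _).symm

/-- the growth of the number of bits -/
theorem X_le (w : ℕ) : ∃ M, ∀ E, (⟨w, E⟩ : Par).X ≤ 2 ^ (M * (E + 1)) := by
  obtain ⟨g, hg⟩ : ∃ g, g = GG (8 * (2 * w)) := ⟨_, rfl⟩
  obtain ⟨D, hD⟩ : ∃ D, D = DD (8 * (2 * w)) := ⟨_, rfl⟩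
  obtain ⟨a, ha⟩ : ∃ a, a = 2 ^ (8 * (2 * w) * (8 * (2 * w))) * 4 := ⟨_, rfl⟩
  obtain ⟨c, hc⟩ : ∃ c, c = 2 * (8 * (2 * w)) + 1 := ⟨_, rfl⟩
  obtain ⟨H, hH⟩ : ∃ H, H = a * (12 * c) + 1 := ⟨_, rfl⟩
  refine ⟨(2 * (D + 1) + 2 * g + 1) * H + c + 9, fun E => ?_⟩
  obtain ⟨x, hx⟩ : ∃ x : Par, x = ⟨w, E⟩ := ⟨_, rfl⟩
  have e1 : x.w = w := by rw [hx]
  have e2 : x.E = E := by rw [hx]
  have e3 : x.c = c := by rw [hc, ← e1]; rfl
  have e4 : x.h = a * (8 * E * c + 4) + 1 := by
    have : x.h = 2 ^ (8 * (2 * x.w) * (8 * (2 * x.w))) * (2 * (8 * x.E * x.c + 4)) * 2 + 1 := rfl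
    rw [this, e1, e2, e3, ha]
    ring
  have e5 : x.Q = g ^ x.h := by rw [hg, ← e1]; rfl
  have e6 : x.D = D := by rw [hD, ← e1]; rfl
  rw [← hx]
  obtain ⟨h, hh⟩ : ∃ h, h = x.h := ⟨_, rfl⟩
  rw [← hh] at e4 e5
  have hle : h ≤ H * (E + 1) := by
    rw [e4, hH]
    have h1 : 8 * E * c + 4 ≤ 12 * c * (E + 1) := by
      have : 1 ≤ c := by omega
      nlinarith
    have h2 : a * (8 * E * c + 4) ≤ a * (12 * c) * (E + 1) := by
      calc a * (8 * E * c + 4) ≤ a * (12 * c * (E + 1)) := Nat.mul_le_mul_left _ h1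
        _ = a * (12 * c) * (E + 1) := by ring
    rw [add_mul, one_mul]
    omega
  have hQ : x.Q ≤ 2 ^ (g * h) := by
    rw [e5, pow_mul]
    exact Nat.pow_le_pow_left Nat.lt_two_pow_self.le h
  have hN : nodes x.D x.h ≤ 2 ^ ((D + 1) * h) := by
    rw [← hh, e6]
    refine (nodes_le _ _).trans ?_
    rw [pow_mul]
    exact Nat.pow_le_pow_left Nat.lt_two_pow_self.le h
  have hX : x.X = 2 * nodes x.D x.h * ((4 * x.Q) ^ 2 * (4 * 2 ^ E * 2 ^ c) *
      ((h + 1) * nodes x.D x.h) * 2) := by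
    have : x.X = 2 * nodes x.D x.h * ((4 * x.Q) ^ 2 * (4 * 2 ^ x.E * 2 ^ x.c) *
      ((x.h + 1) * nodes x.D x.h) * 2) := rfl
    rw [this, e2, e3, hh]
  obtain ⟨N, hN'⟩ : ∃ N, N = (D + 1) * h := ⟨_, rfl⟩
  rw [← hN'] at hN
  have hh1 : h + 1 ≤ 2 ^ h := Nat.lt_two_pow_self
  calc x.X = 2 * nodes x.D x.h * ((4 * x.Q) ^ 2 * (4 * 2 ^ E * 2 ^ c) *
      ((h + 1) * nodes x.D x.h) * 2) := hX
    _ ≤ 2 * 2 ^ N * ((4 * 2 ^ (g * h)) ^ 2 * (4 * 2 ^ E * 2 ^ c) * (2 ^ h * 2 ^ N) * 2) := by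
        gcongr
    _ = 2 ^ (2 * N + 2 * (g * h) + E + c + h + 8) := by
        rw [mul_pow, ← pow_mul]
        ring
    _ ≤ 2 ^ (((2 * (D + 1) + 2 * g + 1) * H + c + 9) * (E + 1)) := by
        refine Nat.pow_le_pow_right (by norm_num) ?_
        have g1 : (2 * (D + 1) + 2 * g + 1) * h ≤ (2 * (D + 1) + 2 * g + 1) * (H * (E + 1)) :=
          Nat.mul_le_mul_left _ hle
        have g2 : c * 1 ≤ c * (E + 1) := Nat.mul_le_mul_left _ (by omega)
        calc 2 * N + 2 * (g * h) + E + c + h + 8 =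
              (2 * (D + 1) + 2 * g + 1) * h + E + c + 8 := by rw [hN']; ring
          _ ≤ (2 * (D + 1) + 2 * g + 1) * (H * (E + 1)) + (E + 1) + c * (E + 1) + 8 * (E + 1) := by
              omega
          _ = _ := by ring

/-! ### The separation -/

theorem separation (Q : ∀ n, ((Fin n → Bool) → Prop) → Prop)
    (hQ : ∀ n, ∃ L, Q n L)
    (hQ' : ∀ (D h n : ℕ) (F : Type) [Field F] [Fintype F] [DecidableEq F],
      Fintype.card (Var D F h) ≤ n → ∃ e : Var D F h ↪ Fin n, ∀ t : F,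
        Q n (fun x => val h (fun v => x (e v)) = t)) (k : ℕ) :
    ∃ (C : ℕ) (L : ∀ n, (Fin n → Bool) → Prop), 3 ≤ C ∧ (∀ n, Q n (L n)) ∧
      ∀ n E, C * (E + 1) ≤ Nat.log 2 n → Hard k (E + 3) n (L n) := by
  classical
  obtain ⟨M, hM⟩ := X_le k
  have hall : ∀ n, ∃ L : (Fin n → Bool) → Prop, Q n L ∧
      ∀ E, (4 * M + 3) * (E + 1) ≤ Nat.log 2 n → Hard k (E + 3) n L := by
    intro n
    obtain ⟨l, hl⟩ : ∃ l, l = Nat.log 2 n := ⟨_, rfl⟩
    rw [← hl]
    by_cases hex : 4 * M + 3 ≤ l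
    · obtain ⟨E, hE⟩ : ∃ E, E = l / (4 * M + 3) - 1 := ⟨_, rfl⟩
      have h1 : 1 ≤ l / (4 * M + 3) := (Nat.le_div_iff_mul_le (by omega)).2 (by omega)
      have h2 : (4 * M + 3) * (E + 1) ≤ l := by
        have : E + 1 = l / (4 * M + 3) := by omega
        rw [this]
        exact Nat.mul_div_le _ _
      have hn0 : n ≠ 0 := by
        rintro rfl
        simp at hl
        omega
      have h5 : (⟨k, E + 3⟩ : Par).X ≤ n := by
        refine (hM (E + 3)).trans ?_
        calc 2 ^ (M * (E + 3 + 1)) ≤ 2 ^ l := by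
              refine Nat.pow_le_pow_right (by norm_num) (le_trans ?_ h2)
              nlinarith
          _ ≤ n := by
              rw [hl]
              exact Nat.pow_log_le_self 2 hn0
      obtain ⟨L, hL, hL'⟩ := hard_all Q hQ' ⟨k, E + 3⟩ n h5
      refine ⟨L, hL, fun E' hE' => hL'.mono le_rfl ?_ (by omega)⟩
      have h6 : E' + 1 ≤ l / (4 * M + 3) := (Nat.le_div_iff_mul_le (by omega)).2 (by
        rw [mul_comm]
        exact hE')
      show E' + 3 ≤ E + 3
      omega
    · obtain ⟨L, hL⟩ := hQ n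
      refine ⟨L, hL, fun E hE => absurd ?_ hex⟩
      calc 4 * M + 3 = (4 * M + 3) * 1 := (mul_one _).symm
        _ ≤ (4 * M + 3) * (E + 1) := Nat.mul_le_mul_left _ (by omega)
        _ ≤ l := hE
  choose L hL hL' using hall
  exact ⟨4 * M + 3, L, by omega, hL, fun n E hE => hL' n E hE⟩

end Pool.Agent.V8H39.SR
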