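import Mathlib
import Pool.Agent.V8H39.SR.Final
import Pool.Agent.V8H39.SR.Dcf
import Pool.Agent.V8H39.SR.BP

/-!
# The separation, for branching programs and a deterministic context-free language
-/

set_option autoImplicit false

open Finset

namespace Pool.Agent.V8H39.SR

open Pool.Agent.V8H47.MH

theorem Ev_mem : Ev.lang ∈ oneDPDA Sy := ⟨Bool, inferInstance, Ev, Ev_det, Ev_oneWay, rfl⟩

theorem Ev_mem' : Ev.lang ∈ twoDPDA 1 Sy := ⟨Bool, inferInstance, Ev, Ev_det, rfl⟩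

theorem main : ∃ U ∈ oneDPDA Sy, U ∈ twoDPDA 1 Sy ∧ ∀ k, ∃ (C : ℕ) (p : ∀ n, List (Sy ⊕ Fin n)),
    (∀ n, (p n).length ≤ (n + 2) ^ 5 ∧ (p n).filterMap Sum.getRight? = List.finRange n) ∧
    ∀ n E, C * (E + 1) ≤ Nat.log 2 n → (∃ x, fillBits (p n) x ∈ U) ∧
      ∀ B : NBP (Fin n), Fintype.card B.Node ≤ n ^ E →
        (∃ κ : Fin n → ℕ, ∑ v, κ v ≤ k * n ∧ ∀ L, B.Path L → ∀ v, L.count v ≤ κ v) →
        (∀ x, B.Accepts x → fillBits (p n) x ∈ U) →
        2 ^ E * Nat.card {x // B.Accepts x} ≤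
          Nat.card {x : Fin n → Bool // fillBits (p n) x ∈ U} := by
  classical
  refine ⟨Ev.lang, Ev_mem, Ev_mem', fun k => ?_⟩
  obtain ⟨C, L, hC, hL, hhard⟩ := separation (fun n L => ∃ p : List (Sy ⊕ Fin n),
    p.length ≤ (n + 2) ^ 5 ∧ p.filterMap Sum.getRight? = List.finRange n ∧
      ∀ x, fillBits p x ∈ Ev.lang ↔ L x) (fun n => by
    obtain ⟨p, h1, h2, h3⟩ := dcfl_true n
    exact ⟨fun _ => True, p, h1, h2, fun x => iff_of_true (h3 x) trivial⟩)
    (fun D h n F _ _ _ hn => dcfl_pattern D h n hn) k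
  choose p hp using hL
  have heq : ∀ n, (fun x => fillBits (p n) x ∈ Ev.lang) = L n := fun n =>
    funext fun x => propext ((hp n).2.2 x)
  refine ⟨C, p, fun n => ⟨(hp n).1, (hp n).2.1⟩, fun n E hE => ?_⟩
  have hn : 3 ≤ n := by
    have h1 : 3 * 1 ≤ C * (E + 1) := Nat.mul_le_mul hC (by omega)
    have h2 : Nat.log 2 n ≤ n := Nat.log_le_self 2 n
    omega
  have h1 := hhard n E hE
  rw [← heq n] at h1
  refine ⟨h1.1, fun B hB hκ hacc => ?_⟩
  obtain ⟨κ, h2, h3⟩ := hκ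
  have h4 := h1.2 B.mach B.mach_storeless (fun x hx => hacc x ((B.mach_answers x).1 hx))
    ⟨κ, h2, fun l hl => h3 l (B.mach_path l hl)⟩ (by
      rw [B.card_mach, Fintype.card_fin]
      have h5 : 1 ≤ n ^ E := Nat.one_le_pow _ _ (by omega)
      have h6 : 3 + n * 4 ≤ n ^ 3 := by
        have h7 : 9 ≤ n ^ 2 := by
          calc 9 = 3 ^ 2 := by norm_num
            _ ≤ n ^ 2 := Nat.pow_le_pow_left (by omega) 2
        calc 3 + n * 4 ≤ n * 9 := by omega
          _ ≤ n * n ^ 2 := Nat.mul_le_mul_left _ h7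
          _ = n ^ 3 := by ring
      calc 2 + (Fintype.card B.Node + Fintype.card B.Node * (n * 4)) ≤
            2 * n ^ E + (n ^ E + n ^ E * (n * 4)) := by
            have := Nat.mul_le_mul_right (n * 4) hB
            omega
        _ = n ^ E * (3 + n * 4) := by ring
        _ ≤ n ^ E * n ^ 3 := Nat.mul_le_mul_left _ h6
        _ = n ^ (E + 3) := (pow_add _ _ _).symm)
  have h5 : Nat.card {x // B.mach.Answers x true} = Nat.card {x // B.Accepts x} :=
    Nat.card_congr (Equiv.subtypeEquivRight fun x => B.mach_answers x)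
  rw [h5] at h4
  exact (Nat.mul_le_mul_right _ (Nat.pow_le_pow_right (by norm_num) (by omega))).trans h4

end Pool.Agent.V8H39.SR
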