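import Mathlib
import Pool.Agent.V8H39.SR.Upper
import Pool.Agent.V8H38.RM.Prog

/-!
# The tree function as a part of the monotone circuit value problem
-/

set_option autoImplicit false

open Finset

namespace Pool.Agent.V8H39.SR

open Pool.Agent.V8H38.RM

/-- A pattern is a word in which some letters are literals; `(i, true)` stands for the bit number
`i` and `(i, false)` for its negation. `fillLit p x` is the word that arises if the values of the
literals are inserted. -/
def fillLit {n : ℕ} (p : List (Letter ⊕ (Fin n × Bool))) (x : Fin n → Bool) : List Letter :=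
  p.map (Sum.elim id fun l => Letter.bit (x l.1 == l.2))

namespace Pat

variable {V F : Type} [Field F] [Fintype F] [DecidableEq F] {m : ℕ}

/-- the one-hot code of the register after reading a bit -/
def rdV (l1 l0 : (Fin m → Bool) → Bool) (r : F → (Fin m → Bool) → Bool) (e a : F) :
    (Fin m → Bool) → Bool :=
  fun y => (l1 y && r (a - e) y) || (l0 y && r a y)

/-- the one-hot code of a product -/
def mulV (z r : F → (Fin m → Bool) → Bool) (a : F) : (Fin m → Bool) → Bool :=
  fun y => decide (∃ bc ∈ univ.filter (fun bc : F × F => bc.1 * bc.2 = a),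
    (z bc.1 y && r bc.2 y) = true)

/-- the code of the register at the end of a program -/
def sem (lit : V → Bool → (Fin m → Bool) → Bool) : List (Ins V F) →
    (F → (Fin m → Bool) → Bool) → List (F → (Fin m → Bool) → Bool) → F → (Fin m → Bool) → Bool
  | [], r, _ => r
  | Ins.rd v e :: l, r, σ => sem lit l (rdV (lit v true) (lit v false) r e) σ
  | Ins.psh c :: l, r, σ => sem lit l (fun a _ => decide (a = c)) (r :: σ)
  | Ins.ml :: l, r, z :: σ => sem lit l (mulV z r) σ
  | Ins.ml :: l, r, [] => sem lit l r []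

/-- the available functions -/
def av (r : F → (Fin m → Bool) → Bool) (σ : List (F → (Fin m → Bool) → Bool)) :
    Set ((Fin m → Bool) → Bool) :=
  {f | ∃ i, f = fun x => x i} ∪ ({f | ∃ a, f = r a} ∪ {f | ∃ z ∈ σ, ∃ a, f = z a})

/-- the functions of one code -/
def cd (r : F → (Fin m → Bool) → Bool) : Set ((Fin m → Bool) → Bool) := {f | ∃ a, f = r a}

/-- the number of gates for one instruction -/
def K (F : Type) [Fintype F] : ℕ := (2 * Fintype.card F ^ 2 + 3) * Fintype.card F

omit [Field F] in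
theorem gen_cd {k : ℕ} {S : Set ((Fin m → Bool) → Bool)} (r : F → (Fin m → Bool) → Bool)
    (h : ∀ a, Gen k S {r a}) (hk : k ≤ 2 * Fintype.card F ^ 2 + 3) : Gen (K F) S (cd r) := by
  refine (Gen.all (univ : Finset F) r fun a _ => h a).mono ?_ (subset_refl _) ?_
  · rw [card_univ]
    exact Nat.mul_le_mul_right _ hk
  · rintro f ⟨a, rfl⟩
    exact ⟨a, mem_univ _, rfl⟩

theorem gen_rd {S : Set ((Fin m → Bool) → Bool)} (l1 l0 : (Fin m → Bool) → Bool)
    (r : F → (Fin m → Bool) → Bool) (e : F) (h1 : l1 ∈ S) (h0 : l0 ∈ S) (hr : ∀ a, r a ∈ S) :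
    Gen (K F) S (cd (rdV l1 l0 r e)) := by
  refine gen_cd (k := 3) _ (fun a => ?_) (by omega)
  have a1 : Gen 1 S {fun y => l1 y && r (a - e) y} := (Gen.and _ _).mono le_rfl (by
    rintro f (rfl | hf)
    · exact h1
    · rw [Set.mem_singleton_iff] at hf
      rw [hf]
      exact hr _) (subset_refl _)
  have a2 : Gen 1 (S ∪ {fun y => l1 y && r (a - e) y}) {fun y => l0 y && r a y} :=
    (Gen.and _ _).mono le_rfl (by
      rintro f (rfl | hf)
      · exact Or.inl h0
      · rw [Set.mem_singleton_iff] at hf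
        rw [hf]
        exact Or.inl (hr _)) (subset_refl _)
  have a3 : Gen 1 (S ∪ ({fun y => l1 y && r (a - e) y} ∪ {fun y => l0 y && r a y}))
      {rdV l1 l0 r e a} :=
    (Gen.or _ _).mono le_rfl (by
      rintro f (rfl | hf)
      · exact Or.inr (Or.inl rfl)
      · exact Or.inr (Or.inr hf)) (subset_refl _)
  exact ((a1.trans a2).trans a3).mono le_rfl (subset_refl _) Set.subset_union_right

theorem gen_mul {S : Set ((Fin m → Bool) → Bool)} (z r : F → (Fin m → Bool) → Bool)
    (hz : ∀ a, z a ∈ S) (hr : ∀ a, r a ∈ S) : Gen (K F) S (cd (mulV z r)) := by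
  refine gen_cd (k := 2 * Fintype.card F ^ 2 + 1) _ (fun a => ?_) (by omega)
  have a1 := Gen.all (univ.filter (fun bc : F × F => bc.1 * bc.2 = a)) (k := 1) (S := S)
    (fun bc y => z bc.1 y && r bc.2 y) (fun bc _ => (Gen.and _ _).mono le_rfl (by
      rintro f (rfl | hf)
      · exact hz _
      · rw [Set.mem_singleton_iff] at hf
        rw [hf]
        exact hr _) (subset_refl _))
  have a2 := Gen.orAll (univ.filter (fun bc : F × F => bc.1 * bc.2 = a))
    (fun bc (y : Fin m → Bool) => z bc.1 y && r bc.2 y)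
  have hcard : (univ.filter (fun bc : F × F => bc.1 * bc.2 = a)).card ≤ Fintype.card F ^ 2 := by
    refine (card_filter_le _ _).trans ?_
    rw [card_univ, Fintype.card_prod, sq]
  refine (a1.trans (a2.mono le_rfl ?_ (subset_refl _))).mono ?_ (subset_refl _) ?_
  · intro f hf
    exact Or.inr hf
  · omega
  · intro f hf
    refine Or.inr ?_
    rw [Set.mem_singleton_iff] at hf ⊢
    rw [hf]
    funext y
    unfold mulV
    congr

theorem gen_psh {S : Set ((Fin m → Bool) → Bool)} (c : F) :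
    Gen (K F) S (cd (fun a _ => decide (a = c))) :=
  gen_cd (k := 1) _ (fun a => (Gen.const (decide (a = c))).mono le_rfl (Set.empty_subset _)
    (subset_refl _)) (by omega)

theorem gen_sem (lit : V → Bool → (Fin m → Bool) → Bool) (hlit : ∀ v b, ∃ i, lit v b = fun x => x i)
    (p : List (Ins V F)) : ∀ (r : F → (Fin m → Bool) → Bool)
      (σ : List (F → (Fin m → Bool) → Bool)),
      Gen (K F * p.length) (av r σ) (cd (sem lit p r σ)) := by
  induction p with
  | nil =>
    intro r σ
    exact Gen.refl fun f hf => Or.inr (Or.inl hf)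
  | cons i p ih =>
    intro r σ
    have hr : ∀ a, r a ∈ av r σ := fun a => Or.inr (Or.inl ⟨a, rfl⟩)
    have hk : K F + K F * p.length ≤ K F * (i :: p).length := by
      rw [List.length_cons, Nat.mul_succ, Nat.add_comm]
    have key : ∀ (r' : F → (Fin m → Bool) → Bool) (σ' : List (F → (Fin m → Bool) → Bool)),
        Gen (K F) (av r σ) (cd r') → (∀ z ∈ σ', ∀ a, z a ∈ av r σ) →
        Gen (K F * (i :: p).length) (av r σ) (cd (sem lit p r' σ')) := by
      intro r' σ' h1 h2
      refine (h1.trans ((ih r' σ').mono le_rfl ?_ (subset_refl _))).mono hk (subset_refl _)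
        Set.subset_union_right
      rintro f (hf | hf | ⟨z, hz, a, rfl⟩)
      · exact Or.inl (Or.inl hf)
      · exact Or.inr hf
      · exact Or.inl (h2 z hz a)
    cases i with
    | rd v e =>
      refine key _ _ (gen_rd _ _ _ _ (Or.inl (hlit v true)) (Or.inl (hlit v false)) hr) ?_
      intro z hz a
      exact Or.inr (Or.inr ⟨z, hz, a, rfl⟩)
    | psh c =>
      refine key _ _ (gen_psh c) ?_
      intro z hz a
      rcases List.mem_cons.1 hz with rfl | hz
      · exact hr a
      · exact Or.inr (Or.inr ⟨z, hz, a, rfl⟩)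
    | ml =>
      cases σ with
      | nil =>
        refine (ih r []).mono ?_ (subset_refl _) (subset_refl _)
        exact Nat.mul_le_mul_left _ (by simp)
      | cons z σ =>
        refine key _ _ (gen_mul z r (fun a => Or.inr (Or.inr ⟨z, by simp, a, rfl⟩)) hr) ?_
        intro w hw a
        exact Or.inr (Or.inr ⟨w, List.mem_cons_of_mem _ hw, a, rfl⟩)

/-- `r` is the code of the element `a` -/
def Cod (y : Fin m → Bool) (r : F → (Fin m → Bool) → Bool) (a : F) : Prop :=
  ∀ a', r a' y = decide (a' = a)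

omit [Fintype F] in
theorem cod_rd {y : Fin m → Bool} {r : F → (Fin m → Bool) → Bool} {a : F} (h : Cod y r a)
    {l1 l0 : (Fin m → Bool) → Bool} {c : Bool} (h1 : l1 y = c) (h0 : l0 y = !c) (e : F) :
    Cod y (rdV l1 l0 r e) (if c = true then a + e else a) := by
  intro a'
  unfold rdV
  rw [h1, h0, h a', h (a' - e)]
  cases c with
  | false => simp
  | true => simp [sub_eq_iff_eq_add]

theorem cod_mul {y : Fin m → Bool} {z r : F → (Fin m → Bool) → Bool} {b c : F} (hz : Cod y z b)
    (hr : Cod y r c) : Cod y (mulV z r) (b * c) := by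
  intro a'
  unfold mulV
  rw [decide_eq_decide]
  constructor
  · rintro ⟨bc, h1, h2⟩
    rw [hz, hr, Bool.and_eq_true, decide_eq_true_eq, decide_eq_true_eq] at h2
    rw [mem_filter] at h1
    rw [← h1.2, h2.1, h2.2]
  · rintro rfl
    refine ⟨(b, c), by simp, ?_⟩
    rw [hz, hr]
    simp

theorem sem_run (lit : V → Bool → (Fin m → Bool) → Bool) (y : Fin m → Bool) (x : V → Bool)
    (hl : ∀ v b, lit v b y = (x v == b)) (t : F) (p : List (Ins V F)) :
    ∀ (a : F) (s : List F) (L : List V) (b : Bool) (r : F → (Fin m → Bool) → Bool)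
      (σ : List (F → (Fin m → Bool) → Bool)), Ins.Run (fun v c => x v = c) t p a s L b →
      Cod y r a → List.Forall₂ (fun z a => Cod y z a) σ s → sem lit p r σ t y = b := by
  induction p with
  | nil =>
    intro a s L b r σ hR hr _
    obtain ⟨-, rfl⟩ := hR
    show r t y = _
    rw [hr t, decide_eq_decide]
    exact eq_comm
  | cons i p ih =>
    intro a s L b r σ hR hr hs
    cases i with
    | rd v e =>
      obtain ⟨c, L', hc, -, hR⟩ := hR
      refine ih _ _ _ _ _ _ hR (cod_rd hr ?_ ?_ e) hs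
      · rw [hl, hc]; cases c <;> rfl
      · rw [hl, hc]; cases c <;> rfl
    | psh c => exact ih _ _ _ _ _ _ hR (fun a' => rfl) (List.Forall₂.cons hr hs)
    | ml =>
      obtain ⟨z, s', rfl, hR⟩ := hR
      cases hs with
      | cons h1 h2 => exact ih _ _ _ _ _ _ hR (cod_mul h1 hr) h2

/-- renaming the variables of a pattern -/
def ren {n : ℕ} (φ : Fin m → Fin n × Bool) (p : List (Letter ⊕ Fin m)) :
    List (Letter ⊕ (Fin n × Bool)) := p.map (Sum.map id φ)

theorem fill_ren {n : ℕ} (φ : Fin m → Fin n × Bool) (p : List (Letter ⊕ Fin m))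
    (x : Fin n → Bool) : fillLit (ren φ p) x = fill p fun i => x (φ i).1 == (φ i).2 := by
  unfold fillLit ren fill
  rw [List.map_map]
  refine List.map_congr_left fun a _ => ?_
  cases a <;> rfl

theorem lits_ren {n : ℕ} (φ : Fin m → Fin n × Bool) (p : List (Letter ⊕ Fin m)) :
    (ren φ p).filterMap Sum.getRight? = (p.filterMap Sum.getRight?).map φ := by
  unfold ren
  rw [List.filterMap_map, List.map_filterMap]
  refine List.filterMap_congr fun a _ => ?_
  cases a <;> rfl

/-- a bound -/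
theorem bound {n q l : ℕ} (hq : q ≤ n) (hl : l ≤ 2 * n) :
    (n * 2 + (2 * q ^ 2 + 3) * q * l + 1) * (2 * (n * 2 + (2 * q ^ 2 + 3) * q * l + 1) + 1) ≤
      (n + 2) ^ 16 := by
  have h0 : 2 * q ^ 2 + 3 ≤ (n + 2) ^ 3 := by
    have : q ^ 2 ≤ n ^ 2 := Nat.pow_le_pow_left hq 2
    nlinarith [sq_nonneg n]
  have h1 : (2 * q ^ 2 + 3) * q ≤ (n + 2) ^ 3 * (n + 2) := Nat.mul_le_mul h0 (by omega)
  have h2 : (2 * q ^ 2 + 3) * q * l ≤ (n + 2) ^ 3 * (n + 2) * (n + 2) ^ 2 :=
    Nat.mul_le_mul h1 (by nlinarith)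
  obtain ⟨k, hk⟩ : ∃ k, k = (2 * q ^ 2 + 3) * q * l := ⟨_, rfl⟩
  rw [← hk] at h2 ⊢
  obtain ⟨w, hw⟩ : ∃ w, w = n + 2 := ⟨_, rfl⟩
  have hw2 : 2 ≤ w := by omega
  rw [← hw] at h2 ⊢
  have h4 : w ^ 3 * w * w ^ 2 = w ^ 6 := by ring
  have h6 : 4 * w ≤ w ^ 6 := by
    have : 2 ^ 5 ≤ w ^ 5 := Nat.pow_le_pow_left hw2 5
    calc 4 * w ≤ w ^ 5 * w := Nat.mul_le_mul_right _ (by omega)
      _ = w ^ 6 := by ring
  have h7 : n * 2 + k + 1 ≤ 2 * w ^ 6 := by omega
  have h8 : 1 ≤ w ^ 6 := Nat.one_le_pow _ _ (by omega)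
  calc (n * 2 + k + 1) * (2 * (n * 2 + k + 1) + 1) ≤ (2 * w ^ 6) * (2 * (2 * w ^ 6) + 1) :=
        Nat.mul_le_mul h7 (by omega)
    _ ≤ (2 * w ^ 6) * (5 * w ^ 6) := Nat.mul_le_mul_left _ (by omega)
    _ = 10 * w ^ 12 := by ring
    _ ≤ 2 ^ 4 * w ^ 12 := Nat.mul_le_mul_right _ (by norm_num)
    _ ≤ w ^ 4 * w ^ 12 := Nat.mul_le_mul_right _ (Nat.pow_le_pow_left hw2 4)
    _ = w ^ 16 := by ring

end Pat

open Pat in
/-- PART U3. Write the elements of the field in unary (one wire for each element): monotone in the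
literals. Use `exists_pattern` with `2 * n` variables. -/
theorem pattern_val : ∃ c : ℕ, ∀ (D h n : ℕ) (F : Type) [Field F] [Fintype F] [DecidableEq F]
    (e : Var D F h ↪ Fin n) (t : F), ∃ p : List (Letter ⊕ (Fin n × Bool)),
      p.length ≤ (n + 2) ^ c ∧ (p.filterMap Sum.getRight?).Nodup ∧
      ∀ x, fillLit p x ∈ MCV ↔ val h (fun v => x (e v)) = t := by
  refine ⟨16, ?_⟩
  intro D h n F _ _ _ e t
  obtain ⟨φ⟩ : Nonempty (Fin (n * 2) ≃ Fin n × Bool) :=
    ⟨(finProdFinEquiv.symm).trans (Equiv.prodCongr (Equiv.refl _) finTwoEquiv)⟩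
  obtain ⟨lit, hlit⟩ : ∃ lit : Fin n → Bool → (Fin (n * 2) → Bool) → Bool,
      lit = fun v b y => y (φ.symm (v, b)) := ⟨_, rfl⟩
  obtain ⟨P, hP⟩ : ∃ P : List (Ins (Fin n) F), P = Ins.prog D h e := ⟨_, rfl⟩
  obtain ⟨r0, hr0⟩ : ∃ r0 : F → (Fin (n * 2) → Bool) → Bool,
      r0 = fun a _ => decide (a = Ins.c0 h) := ⟨_, rfl⟩
  have hg1 : Gen (K F) {f | ∃ i, f = fun x : Fin (n * 2) → Bool => x i} (cd r0) := by
    rw [hr0]
    exact gen_psh _
  have hg2 := gen_sem lit (fun v b => ⟨φ.symm (v, b), by rw [hlit]⟩) P r0 []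
  have hg3 : Gen (K F + K F * P.length) {f | ∃ i, f = fun x : Fin (n * 2) → Bool => x i}
      {sem lit P r0 [] t} := by
    refine (hg1.trans (hg2.mono le_rfl ?_ (subset_refl _))).mono le_rfl (subset_refl _) ?_
    · rintro f (hf | hf | ⟨z, hz, -⟩)
      · exact Or.inl hf
      · exact Or.inr hf
      · cases hz
    · intro f hf
      rw [Set.mem_singleton_iff] at hf
      rw [hf]
      exact Or.inr ⟨t, rfl⟩
  obtain ⟨p, hp1, hp2, hp3⟩ := exists_pattern hg3
  refine ⟨ren φ p, ?_, ?_, ?_⟩
  · have e1 : (ren φ p).length = p.length := List.length_map _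
    rw [e1]
    refine hp1.trans ?_
    have h1 := Ins.prog_length D h (fun v => e v)
    have h2 : P.length + 2 ≤ 2 * Fintype.card (Var D F h) := by rw [hP]; exact h1
    have h3 : Fintype.card (Var D F h) ≤ n := by
      have := Fintype.card_le_of_injective e e.injective
      rwa [Fintype.card_fin] at this
    have h4 := Ins.card_le_var (F := F) D h
    have h5 : K F + K F * P.length =
        (2 * Fintype.card F ^ 2 + 3) * Fintype.card F * (P.length + 1) := by
      unfold K
      ring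
    rw [h5]
    exact bound (h4.trans h3) (by omega)
  · rw [lits_ren, hp2]
    exact (List.nodup_finRange _).map φ.injective
  · intro x
    rw [fill_ren, hp3]
    obtain ⟨L, hL⟩ : ∃ L, Ins.Run (fun v c => x v = c) t P (Ins.c0 h) [] L
        (decide (val h (fun v => x (e v)) = t)) := by
      have h1 := (Ins.run_prog x t D h e [] [] (Ins.vars P)
        (decide (val h (fun v => x (e v)) = t))).2 ⟨[], by rw [hP, List.append_nil], rfl, rfl⟩
      rw [List.append_nil, ← hP] at h1
      exact ⟨_, h1⟩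
    have h2 := sem_run lit (fun i => x (φ i).1 == (φ i).2) x (fun v b => by
      rw [hlit]
      simp only [Equiv.apply_symm_apply]) t P _ _ _ _ r0 [] hL (fun a' => by rw [hr0])
      List.Forall₂.nil
    rw [h2, decide_eq_true_eq]

/-- PART U4 (trivial). -/
theorem pattern_true (n : ℕ) : ∃ p : List (Letter ⊕ (Fin n × Bool)),
    p.length ≤ n + 2 ∧ (p.filterMap Sum.getRight?).Nodup ∧ ∀ x, fillLit p x ∈ MCV := by
  refine ⟨[Sum.inl (Letter.bit true)], ?_, ?_, ?_⟩
  · simp
  · exact List.nodup_nil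
  · intro x
    rfl

end Pool.Agent.V8H39.SR
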